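import Mathlib

set_option autoImplicit false

/-!
# Bergman spaces and Hankel operators with conjugate holomorphic symbols: definitions
-/

namespace Pool.Agent.H33R3.HS

open MeasureTheory Set
open scoped ComplexConjugate ENNReal

variable {n : ℕ}

/-- `Ω ⊆ ℂⁿ` is a Reinhardt domain: open, nonempty, connected, and invariant under all rotations
`(z₁, …, z_n) ↦ (e^{iθ₁} z₁, …, e^{iθ_n} z_n)`. -/
structure IsReinhardtDomain (Ω : Set (Fin n → ℂ)) : Prop where
  isOpen : IsOpen Ω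
  isConnected : IsConnected Ω
  rot_mem : ∀ z ∈ Ω, ∀ θ : Fin n → ℝ, (fun j => Complex.exp (θ j * Complex.I) * z j) ∈ Ω

/-- The Hilbert space `L²(Ω)` with respect to Lebesgue measure. -/
abbrev L2 (Ω : Set (Fin n → ℂ)) : Type := Lp ℂ 2 (volume.restrict Ω)

/-- The Bergman space `A²(Ω)`: the classes in `L²(Ω)` that have a representative which is
holomorphic on `Ω`. -/
def bergman (Ω : Set (Fin n → ℂ)) : Submodule ℂ (L2 Ω) where
  carrier := {g | ∃ h : (Fin n → ℂ) → ℂ, DifferentiableOn ℂ h Ω ∧ g =ᵐ[volume.restrict Ω] h}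
  zero_mem' := ⟨0, differentiableOn_const 0, Lp.coeFn_zero _ _ _⟩
  add_mem' := by
    rintro a b ⟨h, hh, ha⟩ ⟨k, hk, hb⟩
    exact ⟨h + k, hh.add hk, (Lp.coeFn_add a b).trans (ha.add hb)⟩
  smul_mem' := by
    rintro c a ⟨h, hh, ha⟩
    exact ⟨c • h, hh.const_smul c, (Lp.coeFn_smul c a).trans (ha.const_smul c)⟩

/-- The domain `{g ∈ A²(Ω) : f̄ g ∈ L²(Ω)}` of the Hankel operator `H_{f̄}`. -/
def hankelDomain (Ω : Set (Fin n → ℂ)) (f : (Fin n → ℂ) → ℂ) : Set (bergman Ω) :=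
  {g | MemLp (fun z => conj (f z) * (g : L2 Ω) z) 2 (volume.restrict Ω)}

open scoped Classical in
/-- The Hankel operator `H_{f̄} g = (I - P)(f̄ g)` on its domain (and `0` off it). Here `P` is the
orthogonal projection of `L²(Ω)` onto `A²(Ω)`, so `I - P` is the orthogonal projection onto the
orthogonal complement of `A²(Ω)`. -/
noncomputable def hankel (Ω : Set (Fin n → ℂ)) (f : (Fin n → ℂ) → ℂ) (g : bergman Ω) : L2 Ω :=
  if h : MemLp (fun z => conj (f z) * (g : L2 Ω) z) 2 (volume.restrict Ω) then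
    (bergman Ω)ᗮ.starProjection (h.toLp _)
  else 0

/-- `H_{f̄}` is Hilbert-Schmidt: its domain is dense in `A²(Ω)`, and it extends to a bounded operator
`T : A²(Ω) → L²(Ω)` with `∑ ‖T e_k‖² < ∞` for an orthonormal basis `(e_k)` of `A²(Ω)`. -/
def IsHilbertSchmidtHankel (Ω : Set (Fin n → ℂ)) (f : (Fin n → ℂ) → ℂ) : Prop :=
  Dense (hankelDomain Ω f) ∧ ∃ T : bergman Ω →L[ℂ] L2 Ω,
    (∀ g ∈ hankelDomain Ω f, T g = hankel Ω f g) ∧
    ∃ (ι : Type) (e : HilbertBasis ι ℂ (bergman Ω)), Summable fun i => ‖T (e i)‖ ^ 2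

end Pool.Agent.H33R3.HS
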