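import Mathlib
import Pool.Agent.H33R3.HSDefs
import Pool.Agent.Helper853.Bk.Bergman

set_option autoImplicit false

/-!
# Hilbert-Schmidt sums do not depend on the orthonormal family; closedness of the Bergman space
-/

namespace Pool.Agent.H33R3.HS

open MeasureTheory Set Filter Topology Metric
open scoped ComplexConjugate ENNReal

section hs

variable {H₁ H₂ : Type*} [NormedAddCommGroup H₁] [InnerProductSpace ℂ H₁]
  [NormedAddCommGroup H₂] [InnerProductSpace ℂ H₂]

lemma parseval {ι : Type*} (b : HilbertBasis ι ℂ H₁) (x : H₁) :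
    HasSum (fun i => ‖inner ℂ (b i) x‖ ^ 2) (‖x‖ ^ 2) := by
  have h1 := b.hasSum_inner_mul_inner x x
  have h2 := Complex.reCLM.hasSum h1
  convert! h2 using 1
  · funext i
    simp only [Function.comp_apply, Complex.reCLM_apply]
    rw [← inner_conj_symm x (b i), ← Complex.normSq_eq_norm_sq, mul_comm, Complex.mul_conj,
      Complex.ofReal_re]
  · simp only [Complex.reCLM_apply]
    rw [inner_self_eq_norm_sq_to_K]
    simp [← Complex.ofReal_pow]

lemma parseval_ennreal {ι : Type*} (b : HilbertBasis ι ℂ H₁) (x : H₁) :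
    ENNReal.ofReal (‖x‖ ^ 2) = ∑' i, ENNReal.ofReal (‖inner ℂ (b i) x‖ ^ 2) := by
  rw [← (parseval b x).tsum_eq]
  exact ENNReal.ofReal_tsum_of_nonneg (fun i => by positivity) (parseval b x).summable

/-- Hilbert-Schmidt sums over finite orthonormal families are bounded by the sum over a basis. -/
lemma hs_bound [CompleteSpace H₂] (T : H₁ →L[ℂ] H₂) {ι : Type*} (e : HilbertBasis ι ℂ H₁)
    (hs : Summable fun i => ‖T (e i)‖ ^ 2) {κ : Type*} (s : Finset κ) (v : κ → H₁)
    (hv1 : ∀ i ∈ s, ‖v i‖ = 1) (hv2 : ∀ i ∈ s, ∀ j ∈ s, i ≠ j → inner ℂ (v i) (v j) = 0) :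
    ∑ k ∈ s, ‖T (v k)‖ ^ 2 ≤ ∑' i, ‖T (e i)‖ ^ 2 := by
  classical
  have : CompleteSpace H₁ := e.repr.toIsometryEquiv.completeSpace
  obtain ⟨w, b, -⟩ := exists_hilbertBasis ℂ H₂
  have hon : Orthonormal ℂ (fun k : s => v k) := by
    rw [orthonormal_iff_ite]
    intro i j
    by_cases h : i = j
    · subst h
      rw [if_pos rfl, inner_self_eq_norm_sq_to_K, hv1 _ i.2]
      simp
    · rw [if_neg h]
      exact hv2 _ i.2 _ j.2 fun h' => h (Subtype.ext h')
  have h1 : ENNReal.ofReal (∑ k ∈ s, ‖T (v k)‖ ^ 2) ≤ ENNReal.ofReal (∑' i, ‖T (e i)‖ ^ 2) := by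
    rw [ENNReal.ofReal_sum_of_nonneg (fun _ _ => by positivity),
      ENNReal.ofReal_tsum_of_nonneg (fun i => by positivity) hs]
    calc ∑ k ∈ s, ENNReal.ofReal (‖T (v k)‖ ^ 2)
        = ∑ k ∈ s, ∑' j, ENNReal.ofReal (‖inner ℂ (b j) (T (v k))‖ ^ 2) :=
          Finset.sum_congr rfl fun k _ => parseval_ennreal b _
      _ = ∑' j, ∑ k ∈ s, ENNReal.ofReal (‖inner ℂ (b j) (T (v k))‖ ^ 2) :=
          (Summable.tsum_finsetSum fun _ _ => ENNReal.summable).symm
      _ ≤ ∑' j, ENNReal.ofReal (‖(ContinuousLinearMap.adjoint T) (b j)‖ ^ 2) := by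
          apply ENNReal.tsum_le_tsum
          intro j
          rw [← ENNReal.ofReal_sum_of_nonneg (fun _ _ => by positivity)]
          apply ENNReal.ofReal_le_ofReal
          have h2 := hon.sum_inner_products_le (s := Finset.univ)
            ((ContinuousLinearMap.adjoint T) (b j))
          rw [Finset.sum_coe_sort s (fun k => ‖inner ℂ (v k)
            ((ContinuousLinearMap.adjoint T) (b j))‖ ^ 2)] at h2
          refine le_trans (le_of_eq ?_) h2
          apply Finset.sum_congr rfl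
          intro k _
          rw [ContinuousLinearMap.adjoint_inner_right, ← inner_conj_symm, RCLike.norm_conj]
      _ = ∑' j, ∑' i, ENNReal.ofReal (‖inner ℂ (b j) (T (e i))‖ ^ 2) := by
          congr 1
          funext j
          rw [parseval_ennreal e]
          congr 1
          funext i
          rw [ContinuousLinearMap.adjoint_inner_right, ← inner_conj_symm, RCLike.norm_conj]
      _ = ∑' i, ∑' j, ENNReal.ofReal (‖inner ℂ (b j) (T (e i))‖ ^ 2) := ENNReal.tsum_comm
      _ = ∑' i, ENNReal.ofReal (‖T (e i)‖ ^ 2) := by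
          congr 1
          funext i
          exact (parseval_ennreal b _).symm
  have h3 : 0 ≤ ∑' i, ‖T (e i)‖ ^ 2 := tsum_nonneg fun i => by positivity
  exact (ENNReal.ofReal_le_ofReal_iff h3).1 h1

end hs

section closed

variable {n : ℕ}

open Pool.Agent.Helper853.Bk

/-- The Bergman space of an open set is closed in `L²`. (Sanity check of the definitions: the
orthogonal projection `P` onto `A²(Ω)` is well defined.) -/
theorem isClosed_bergman {Ω : Set (Fin n → ℂ)} (hΩ : IsOpen Ω) :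
    IsClosed (bergman Ω : Set (L2 Ω)) := by
  apply isClosed_of_closure_subset
  intro g hg
  obtain ⟨G, hG, hGg⟩ := mem_closure_iff_seq_limit.1 hg
  choose h hh hGh using hG
  have hmeas : ∀ k, AEStronglyMeasurable (h k) (volume.restrict Ω) := fun k =>
    (hh k).continuousOn.aestronglyMeasurable hΩ.measurableSet
  -- pointwise estimate
  have hpt : ∀ (u : (Fin n → ℂ) → ℂ), DifferentiableOn ℂ u Ω → ∀ U : L2 Ω,
      U =ᵐ[volume.restrict Ω] u → ∀ z r, 0 < r → closedBall z r ⊆ Ω →
      ‖u z‖ ^ 2 * (volume (closedBall z r)).toReal ≤ ‖U‖ ^ 2 := by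
    intro u hu U hUu z r hr hz
    have h1 := bergman_ineq hu hz
    have h2 : ∫⁻ w in closedBall z r, ENNReal.ofReal (‖u w‖ ^ 2) ≤
        ∫⁻ w in Ω, ENNReal.ofReal (‖u w‖ ^ 2) := lintegral_mono_set hz
    have h3 : ∫⁻ w in Ω, ENNReal.ofReal (‖u w‖ ^ 2) = ENNReal.ofReal (‖U‖ ^ 2) := by
      have e1 : ∫⁻ w in Ω, ENNReal.ofReal (‖u w‖ ^ 2) = ∫⁻ w in Ω, ENNReal.ofReal (‖U w‖ ^ 2) := by
        apply lintegral_congr_ae
        filter_upwards [hUu] with w hw
        rw [hw]
      rw [e1]
      have e2 : ‖U‖ ^ 2 = ∫ w in Ω, ‖U w‖ ^ 2 := by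
        have := L2.inner_def (𝕜 := ℂ) U U
        rw [inner_self_eq_norm_sq_to_K] at this
        have h4 : ∀ w, inner ℂ (U w) (U w) = ((‖U w‖ ^ 2 : ℝ) : ℂ) := by
          intro w; rw [inner_self_eq_norm_sq_to_K]; simp
        simp_rw [h4] at this
        rw [integral_complex_ofReal] at this
        have h5 : ((‖U‖ ^ 2 : ℝ) : ℂ) = ((∫ w in Ω, ‖U w‖ ^ 2 : ℝ) : ℂ) := by
          rw [← this]; simp
        exact_mod_cast h5
      rw [e2, ofReal_integral_eq_lintegral_ofReal]
      · exact (Lp.memLp U).integrable_norm_pow two_ne_zero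
      · exact Eventually.of_forall fun _ => by positivity
    have h4 := (h1.trans h2).trans_eq h3
    have h5 : volume (closedBall z r) ≠ ⊤ := (isCompact_closedBall z r).measure_lt_top.ne
    rw [← ENNReal.ofReal_toReal h5, ← ENNReal.ofReal_mul (by positivity)] at h4
    exact (ENNReal.ofReal_le_ofReal_iff (by positivity)).1 h4
  have hvol : ∀ (z : Fin n → ℂ) (r : ℝ), 0 < r → 0 < (volume (closedBall z r)).toReal := by
    intro z r hr
    exact ENNReal.toReal_pos (measure_closedBall_pos _ _ hr).ne'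
      (isCompact_closedBall z r).measure_lt_top.ne
  have hballs : ∀ z ∈ Ω, ∃ r > 0, closedBall z r ⊆ Ω := fun z hz =>
    Metric.nhds_basis_closedBall.mem_iff.1 (hΩ.mem_nhds hz)
  -- Cauchy
  have hcauchy : ∀ z ∈ Ω, ∃ a, Tendsto (fun k => h k z) atTop (𝓝 a) := by
    intro z hz
    obtain ⟨r, hr, hzr⟩ := hballs z hz
    apply cauchySeq_tendsto_of_complete
    rw [Metric.cauchySeq_iff]
    intro ε hε
    have hcs := hGg.cauchySeq
    rw [Metric.cauchySeq_iff] at hcs
    obtain ⟨N, hN⟩ := hcs (ε * √(volume (closedBall z r)).toReal)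
      (mul_pos hε (Real.sqrt_pos.2 (hvol z r hr)))
    refine ⟨N, fun k hk l hl => ?_⟩
    have h1 := hpt (fun w => h k w - h l w) ((hh k).sub (hh l)) (G k - G l)
      ((Lp.coeFn_sub _ _).trans ((hGh k).sub (hGh l))) z r hr hzr
    have h2 := hN k hk l hl
    rw [dist_eq_norm] at h2 ⊢
    have h3 : ‖G k - G l‖ ^ 2 < (ε * √(volume (closedBall z r)).toReal) ^ 2 := by
      gcongr
    rw [mul_pow, Real.sq_sqrt (hvol z r hr).le] at h3
    have h4 : ‖h k z - h l z‖ ^ 2 < ε ^ 2 := by
      have := h1.trans_lt h3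
      exact lt_of_mul_lt_mul_right this (hvol z r hr).le
    exact lt_of_pow_lt_pow_left₀ 2 hε.le h4
  have hex : ∀ z, ∃ a, z ∈ Ω → Tendsto (fun k => h k z) atTop (𝓝 a) := by
    intro z
    by_cases hz : z ∈ Ω
    · obtain ⟨a, ha⟩ := hcauchy z hz; exact ⟨a, fun _ => ha⟩
    · exact ⟨0, fun h => absurd h hz⟩
  choose u hu using hex
  obtain ⟨M, hM⟩ : ∃ M, ∀ k, ‖G k‖ ≤ M := by
    obtain ⟨M, hM⟩ := hGg.norm.bddAbove_range
    exact ⟨M, fun k => hM ⟨k, rfl⟩⟩
  refine ⟨u, ?_, ?_⟩
  · intro z hz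
    obtain ⟨r, hr, hzr⟩ := hballs z hz
    have hsub : ∀ w ∈ ball z (r / 2), closedBall w (r / 2) ⊆ Ω := by
      intro w hw
      refine Subset.trans ?_ hzr
      intro v hv
      rw [mem_closedBall] at hv ⊢
      rw [mem_ball] at hw
      have := dist_triangle v w z
      linarith
    have hvz : ∀ w : Fin n → ℂ, volume (closedBall w (r / 2)) = volume (closedBall z (r / 2)) := by
      intro w
      rw [Measure.addHaar_closedBall_center, Measure.addHaar_closedBall_center volume z]
    apply DifferentiableAt.differentiableWithinAt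
    apply differentiableAt_of_tendsto (G := h) (r := r / 2)
      (M := √(M ^ 2 / (volume (closedBall z (r / 2))).toReal)) (by positivity)
    · filter_upwards with k
      refine ⟨(hh k).mono fun w hw => hsub w hw (mem_closedBall_self (by positivity)), ?_⟩
      intro w hw
      apply Real.le_sqrt_of_sq_le
      rw [le_div_iff₀ (hvol z (r / 2) (by positivity)), ← hvz w]
      refine (hpt _ (hh k) (G k) (hGh k) w (r / 2) (by positivity) (hsub w hw)).trans ?_
      have := hM k
      gcongr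
    · intro w hw
      exact hu w (hsub w hw (mem_closedBall_self (by positivity)))
  · have hmeasure := tendstoInMeasure_of_tendsto_Lp hGg
    obtain ⟨φ, hmono, hφ⟩ := hmeasure.exists_seq_tendsto_ae
    have hall : ∀ᵐ z ∂(volume.restrict Ω), ∀ k, G k z = h k z := by
      rw [ae_all_iff]; exact hGh
    filter_upwards [hφ, hall, ae_restrict_mem hΩ.measurableSet] with z h1 h2 h3
    have h4 : Tendsto (fun i => h (φ i) z) atTop (𝓝 (g z)) := by
      simpa [h2] using h1
    exact tendsto_nhds_unique h4 ((hu z h3).comp hmono.tendsto_atTop)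

end closed

end Pool.Agent.H33R3.HS
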