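import Mathlib
import Pool.Agent.Helper853.Bk.Bergman

set_option autoImplicit false

/-!
# Torus averages of holomorphic functions on Reinhardt domains
-/

namespace Pool.Agent.H33R3.HS

open MeasureTheory Filter Metric Set Topology UnitAddTorus
open scoped ComplexConjugate

variable {n : ℕ}

/-- the torus -/
abbrev Tor (n : ℕ) : Type := Fin n → UnitAddCircle

/-- Haar probability measure of the torus -/
noncomputable def tau (n : ℕ) : Measure (Tor n) := Measure.pi fun _ => AddCircle.haarAddCircle

instance : IsProbabilityMeasure (tau n) := by unfold tau; infer_instance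
instance : (tau n).IsAddLeftInvariant := by unfold tau; infer_instance
instance : (tau n).IsAddRightInvariant := by unfold tau; infer_instance
instance : (tau n).IsOpenPosMeasure := by unfold tau; infer_instance

/-- the action of the torus -/
noncomputable def rot (x : Tor n) (z : Fin n → ℂ) : Fin n → ℂ := fun j => ((x j).toCircle : ℂ) * z j

/-- the action as a continuous linear map -/
noncomputable def rotL (x : Tor n) : (Fin n → ℂ) →L[ℂ] (Fin n → ℂ) :=
  ContinuousLinearMap.pi fun j => ((x j).toCircle : ℂ) • ContinuousLinearMap.proj j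

lemma rotL_apply (x : Tor n) (z : Fin n → ℂ) : rotL x z = rot x z := by
  ext j; simp [rotL, rot]

lemma norm_rot_apply (x : Tor n) (z : Fin n → ℂ) (j : Fin n) : ‖rot x z j‖ = ‖z j‖ := by
  simp only [rot]
  rw [norm_mul, Circle.norm_coe, one_mul]

lemma norm_rot (x : Tor n) (z : Fin n → ℂ) : ‖rot x z‖ = ‖z‖ := by
  simp only [Pi.norm_def]
  congr 2
  funext j
  exact NNReal.eq (norm_rot_apply x z j)

lemma rot_sub (x : Tor n) (z w : Fin n → ℂ) : rot x z - rot x w = rot x (z - w) := by
  ext j; simp [rot, mul_sub]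

lemma rot_add' (x y : Tor n) (z : Fin n → ℂ) : rot x (rot y z) = rot (x + y) z := by
  ext j; simp [rot, AddCircle.toCircle_add, mul_assoc]

lemma rot_zero (z : Fin n → ℂ) : rot 0 z = z := by
  ext j; simp [rot, AddCircle.toCircle_zero]

lemma dist_rot (x : Tor n) (z w : Fin n → ℂ) : dist (rot x z) (rot x w) = dist z w := by
  rw [dist_eq_norm, rot_sub, norm_rot, dist_eq_norm]

lemma continuous_rot : Continuous fun p : Tor n × (Fin n → ℂ) => rot p.1 p.2 := by
  apply continuous_pi
  intro j
  simp only [rot]
  have h1 : Continuous fun p : Tor n × (Fin n → ℂ) => ((p.1 j).toCircle : ℂ) := by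
    have := AddCircle.continuous_toCircle (T := 1)
    fun_prop
  fun_prop

lemma rot_apply_ne {x : Tor n} {z : Fin n → ℂ} {j : Fin n} (h : z j ≠ 0) : rot x z j ≠ 0 := by
  rw [← norm_ne_zero_iff, norm_rot_apply, norm_ne_zero_iff]; exact h

/-- monomials with integer exponents -/
noncomputable def mon (γ : Fin n → ℤ) (z : Fin n → ℂ) : ℂ := ∏ j, z j ^ γ j

lemma mon_rot (γ : Fin n → ℤ) (x : Tor n) (z : Fin n → ℂ) :
    mon γ (rot x z) = mFourier γ x * mon γ z := by
  simp only [mon, rot, mFourier, ContinuousMap.coe_mk, ← Finset.prod_mul_distrib, mul_zpow]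
  apply Finset.prod_congr rfl
  intro j _
  congr 1
  rw [fourier_apply, AddCircle.toCircle_zsmul]
  simp

lemma mon_add {γ δ : Fin n → ℤ} {z : Fin n → ℂ} (hz : ∀ j, z j ≠ 0) :
    mon (γ + δ) z = mon γ z * mon δ z := by
  simp only [mon, ← Finset.prod_mul_distrib]
  exact Finset.prod_congr rfl fun j _ => zpow_add₀ (hz j) _ _

lemma mon_ne_zero {γ : Fin n → ℤ} {z : Fin n → ℂ} (hz : ∀ j, z j ≠ 0) : mon γ z ≠ 0 :=
  Finset.prod_ne_zero_iff.2 fun j _ => zpow_ne_zero _ (hz j)

lemma mon_differentiableAt {γ : Fin n → ℤ} {z : Fin n → ℂ} (hz : ∀ j, z j ≠ 0 ∨ 0 ≤ γ j) :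
    DifferentiableAt ℂ (mon γ) z := by
  unfold mon
  have key : ∀ s : Finset (Fin n), DifferentiableAt ℂ (fun z : Fin n → ℂ => ∏ j ∈ s, z j ^ γ j) z := by
    intro s
    induction s using Finset.cons_induction with
    | empty => simp
    | cons j s hj ih =>
      simp only [Finset.prod_cons]
      have h1 : DifferentiableAt ℂ (fun z : Fin n → ℂ => z j) z := by fun_prop
      exact ((differentiableAt_zpow.2 (hz j)).comp z h1).mul ih
  exact key _

/-- torus average with weight `γ` -/
noncomputable def avg (g : (Fin n → ℂ) → ℂ) (γ : Fin n → ℤ) (z : Fin n → ℂ) : ℂ :=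
  ∫ x, mFourier (-γ) x * g (rot x z) ∂(tau n)

lemma avg_rot (g : (Fin n → ℂ) → ℂ) (γ : Fin n → ℤ) (y : Tor n) (z : Fin n → ℂ) :
    avg g γ (rot y z) = mFourier γ y * avg g γ z := by
  unfold avg
  rw [← integral_const_mul]
  rw [← integral_add_right_eq_self (fun x => mFourier γ y * (mFourier (-γ) x * g (rot x z))) y]
  apply integral_congr_ae
  filter_upwards with x
  rw [rot_add', ← mul_assoc]
  congr 1
  have h : mFourier (-γ) (x + y) = mFourier (-γ) x * mFourier (-γ) y := by
    simp only [mFourier, ContinuousMap.coe_mk, Pi.add_apply, fourier_apply, smul_add,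
      AddCircle.toCircle_add, Circle.coe_mul, Finset.prod_mul_distrib]
  rw [h]
  have h2 : mFourier γ y * mFourier (-γ) y = 1 := by
    rw [← mFourier_add, add_neg_cancel, mFourier_zero]; rfl
  linear_combination (-mFourier (-γ) x) * h2

/-- `Ω` is invariant under the torus -/
def Inv (Ω : Set (Fin n → ℂ)) : Prop := ∀ z ∈ Ω, ∀ x : Tor n, rot x z ∈ Ω

lemma Inv.ball {Ω : Set (Fin n → ℂ)} (hI : Inv Ω) {z : Fin n → ℂ} {r : ℝ} (h : ball z r ⊆ Ω)
    (x : Tor n) : Metric.ball (rot x z) r ⊆ Ω := by
  intro w hw
  have h1 : rot x (rot (-x) w) = w := by rw [rot_add', add_neg_cancel, rot_zero]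
  rw [← h1]
  apply hI
  apply h
  rw [mem_ball] at hw ⊢
  rw [← dist_rot x, h1]
  exact hw

lemma mFourier_norm_apply (γ : Fin n → ℤ) (x : Tor n) : ‖mFourier γ x‖ = 1 := by
  simp only [mFourier, ContinuousMap.coe_mk, norm_prod, fourier_apply, Circle.norm_coe,
    Finset.prod_const_one]

open Pool.Agent.Helper853.Bk in
/-- torus averages of holomorphic functions are holomorphic -/
lemma avg_differentiableOn {Ω : Set (Fin n → ℂ)} (hΩ : IsOpen Ω) (hI : Inv Ω)
    {g : (Fin n → ℂ) → ℂ} (hg : DifferentiableOn ℂ g Ω) (γ : Fin n → ℤ) :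
    DifferentiableOn ℂ (avg g γ) Ω := by
  intro z hz
  obtain ⟨r, hr, hball⟩ := Metric.isOpen_iff.1 hΩ z hz
  have hcb : closedBall z (r / 2) ⊆ Ω := (closedBall_subset_ball (half_lt_self hr)).trans hball
  have hgc : ContinuousOn g Ω := hg.continuousOn
  -- bound
  obtain ⟨M, hM⟩ : ∃ M, ∀ x : Tor n, ∀ w ∈ closedBall z (r / 2), ‖g (rot x w)‖ ≤ M := by
    have hK : IsCompact ((univ : Set (Tor n)) ×ˢ closedBall z (r / 2)) :=
      isCompact_univ.prod (isCompact_closedBall _ _)
    have hcont : ContinuousOn (fun p : Tor n × (Fin n → ℂ) => g (rot p.1 p.2))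
        ((univ : Set (Tor n)) ×ˢ closedBall z (r / 2)) :=
      hgc.comp continuous_rot.continuousOn fun p hp => hI _ (hcb hp.2) _
    obtain ⟨M, hM⟩ := hK.exists_bound_of_continuousOn hcont
    exact ⟨M, fun x w hw => hM (x, w) ⟨mem_univ _, hw⟩⟩
  have hder : ∀ x : Tor n, ∀ w ∈ ball z (r / 4), HasFDerivAt
      (fun w => mFourier (-γ) x * g (rot x w))
      (mFourier (-γ) x • (fderiv ℂ g (rot x w)).comp (rotL x)) w := by
    intro x w hw
    have hwΩ : w ∈ Ω := hball (ball_subset_ball (by linarith) hw)
    have h1 : HasFDerivAt (fun w => rot x w) (rotL x) w := by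
      have : (fun w => rot x w) = rotL x := funext fun w => (rotL_apply x w).symm
      rw [this]
      exact (rotL x).hasFDerivAt
    have h2 : HasFDerivAt g (fderiv ℂ g (rot x w)) (rot x w) :=
      (hg.differentiableAt (hΩ.mem_nhds (hI _ hwΩ x))).hasFDerivAt
    exact (h2.comp w h1).const_mul _
  have hfc : ContinuousOn (fderiv ℂ g) Ω :=
    (contDiffOn_of_differentiableOn hΩ hg).continuousOn_fderiv_of_isOpen hΩ (by simp)
  have hbd : ∀ x : Tor n, ∀ w ∈ ball z (r / 4),
      ‖mFourier (-γ) x • (fderiv ℂ g (rot x w)).comp (rotL x)‖ ≤ 2 * M / (r / 4) := by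
    intro x w hw
    rw [norm_smul, mFourier_norm_apply, one_mul]
    have hM0 : 0 ≤ M := (norm_nonneg _).trans (hM x z (mem_closedBall_self (by positivity)))
    apply ContinuousLinearMap.opNorm_le_bound _ (by positivity)
    intro v
    have hsub : ball w (r / 4) ⊆ closedBall z (r / 2) := by
      intro u hu
      rw [mem_ball] at hu hw
      rw [mem_closedBall]
      have := dist_triangle u w z
      linarith
    have h1 := fderiv_apply_bound (G := g) (z := rot x w) (r := r / 4) (M := M) (by positivity)
      (hg.mono (Inv.ball hI (hsub.trans hcb) x)) (by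
        intro u hu
        have h1 : rot x (rot (-x) u) = u := by rw [rot_add', add_neg_cancel, rot_zero]
        rw [← h1]
        apply hM
        apply hsub
        rw [mem_ball, ← dist_rot x, h1]
        exact hu) (rot x v)
    rw [norm_rot] at h1
    have h2 : (fderiv ℂ g (rot x w)).comp (rotL x) v = fderiv ℂ g (rot x w) (rot x v) := by
      rw [ContinuousLinearMap.comp_apply, rotL_apply]
    rw [h2]
    exact h1
  have hcx : ∀ w ∈ Ω, Continuous fun x : Tor n => mFourier (-γ) x * g (rot x w) := by
    intro w hw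
    have h1 : Continuous fun x : Tor n => rot x w :=
      continuous_rot.comp (continuous_id.prodMk continuous_const)
    have h2 : Continuous fun x : Tor n => g (rot x w) :=
      hgc.comp_continuous h1 fun x => hI _ hw x
    exact (mFourier (-γ)).continuous.mul h2
  have := hasFDerivAt_integral_of_dominated_of_fderiv_le (𝕜 := ℂ) (μ := tau n)
    (F := fun w x => mFourier (-γ) x * g (rot x w))
    (F' := fun w x => mFourier (-γ) x • (fderiv ℂ g (rot x w)).comp (rotL x))
    (x₀ := z) (s := ball z (r / 4)) (bound := fun _ => 2 * M / (r / 4))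
    (ball_mem_nhds _ (by positivity))
    (by
      filter_upwards [hΩ.mem_nhds hz] with w hw
      exact (hcx w hw).aestronglyMeasurable)
    ((hcx z hz).integrable_of_hasCompactSupport (HasCompactSupport.of_compactSpace _))
    (by
      apply Continuous.aestronglyMeasurable
      apply (mFourier (-γ)).continuous.smul
      have h1 : Continuous fun x : Tor n => fderiv ℂ g (rot x z) :=
        hfc.comp_continuous (continuous_rot.comp (continuous_id.prodMk continuous_const))
          fun x => hI _ hz x
      have h2 : Continuous fun x : Tor n => rotL x := by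
        have h3 : Continuous fun x : Tor n => (fun j => ((x j).toCircle : ℂ)) := by
          have := AddCircle.continuous_toCircle (T := 1)
          fun_prop
        rw [continuous_clm_apply]
        intro v
        simp_rw [rotL_apply]
        exact continuous_rot.comp (continuous_id.prodMk continuous_const)
      exact h1.clm_comp h2)
    (Eventually.of_forall fun x w hw => hbd x w hw) (integrable_const _)
    (Eventually.of_forall fun x w hw => hder x w hw)
  exact this.differentiableAt.differentiableWithinAt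

end Pool.Agent.H33R3.HS
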