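import Mathlib
import Pool.Agent.H33R3.Torus

set_option autoImplicit false

/-!
# Laurent components on Reinhardt domains
-/

namespace Pool.Agent.H33R3.HS

open MeasureTheory Filter Metric Set Topology UnitAddTorus
open scoped ComplexConjugate

variable {n : ℕ}

/-- identity theorem in several variables -/
lemma identity_thm {E : Type*} [NormedAddCommGroup E] [NormedSpace ℂ E] {Ω : Set E}
    (hΩ : IsOpen Ω) (hc : IsPreconnected Ω)
    {g : E → ℂ} (hg : DifferentiableOn ℂ g Ω) {z₀ : E} (hz₀ : z₀ ∈ Ω)
    (hev : ∀ᶠ z in 𝓝 z₀, g z = 0) : ∀ z ∈ Ω, g z = 0 := by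
  set u : Set E := {z | ∀ᶠ w in 𝓝 z, g w = 0} with hu
  have huo : IsOpen u := isOpen_setOfPred_eventually_nhds
  have hsub : Ω ⊆ u := by
    apply hc.subset_of_closure_inter_subset huo ⟨z₀, hz₀, hev⟩
    rintro z ⟨hz, hzΩ⟩
    obtain ⟨r, hr, hball⟩ := Metric.isOpen_iff.1 hΩ z hzΩ
    obtain ⟨z₁, hz₁u, hz₁⟩ := Metric.mem_closure_iff.1 hz (r / 2) (by positivity)
    rw [dist_comm] at hz₁
    have : ball z (r / 2) ∈ 𝓝 z := ball_mem_nhds _ (by positivity)
    filter_upwards [this] with w hw
    set φ : ℂ → E := fun t => z₁ + t • (w - z₁) with hφ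
    have hφd : Differentiable ℂ φ := by
      intro t
      simp only [hφ]
      exact ((differentiableAt_id).smul_const _).const_add _
    set S : Set ℂ := φ ⁻¹' ball z r with hS
    have hSo : IsOpen S := isOpen_ball.preimage hφd.continuous
    have hSc : Convex ℝ S := by
      intro a ha b hb s t hs ht hst
      simp only [hS, mem_preimage] at ha hb ⊢
      have e : φ (s • a + t • b) = s • φ a + t • φ b := by
        simp only [hφ, smul_add, add_smul, smul_assoc]
        have : z₁ = s • z₁ + t • z₁ := by rw [← add_smul, hst, one_smul]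
        nth_rewrite 1 [this]
        abel
      rw [e]
      exact (convex_ball z r) ha hb hs ht hst
    have h0 : (0 : ℂ) ∈ S := by
      simp only [hS, mem_preimage, hφ, zero_smul, add_zero, mem_ball]
      linarith
    have h1 : (1 : ℂ) ∈ S := by
      simp only [hS, mem_preimage, hφ, one_smul, mem_ball]
      rw [mem_ball] at hw
      have : z₁ + (w - z₁) = w := by abel
      rw [this]
      linarith
    have hgd : DifferentiableOn ℂ (fun t => g (φ t)) S := by
      apply hg.comp hφd.differentiableOn
      intro t ht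
      exact hball ht
    have hga : AnalyticOnNhd ℂ (fun t => g (φ t)) S := hgd.analyticOnNhd hSo
    have hev0 : ∀ᶠ t in 𝓝 (0 : ℂ), g (φ t) = 0 := by
      have h2 : Tendsto φ (𝓝 0) (𝓝 z₁) := by
        have := hφd.continuous.tendsto 0
        simpa [hφ] using this
      exact h2.eventually hz₁u
    have h3 := hga.eqOn_of_preconnected_of_eventuallyEq (g := fun _ => (0 : ℂ))
      (fun _ _ => analyticAt_const) hSc.isPreconnected h0 hev0 h1
    simpa [hφ] using h3
  exact fun z hz => (hsub hz).self_of_nhds

/-- a torus invariant holomorphic function is locally constant off the coordinate hyperplanes -/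
lemma fderiv_zero_of_inv {φ : (Fin n → ℂ) → ℂ} {z : Fin n → ℂ} (hz : ∀ j, z j ≠ 0)
    (hd : DifferentiableAt ℂ φ z) (hinv : ∀ x : Tor n, φ (rot x z) = φ z) :
    fderiv ℂ φ z = 0 := by
  have key : ∀ j, fderiv ℂ φ z (Pi.single j 1) = 0 := by
    intro j
    -- curve
    set c : ℝ → (Fin n → ℂ) := fun t => Function.update z j (Complex.exp (t * Complex.I) * z j)
      with hc
    have hcz : c 0 = z := by simp [hc]
    have hcd : HasDerivAt c ((Complex.I * z j) • Pi.single j 1) 0 := by
      rw [hasDerivAt_pi]
      intro i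
      by_cases hij : i = j
      · subst hij
        have h1 : HasDerivAt (fun t : ℝ => Complex.exp (t * Complex.I) * z i)
            (Complex.exp ((0 : ℝ) * Complex.I) * (1 * Complex.I) * z i) 0 := by
          have h2 : HasDerivAt (fun t : ℝ => (t : ℂ) * Complex.I) (1 * Complex.I) 0 :=
            (Complex.ofRealCLM.hasDerivAt (x := (0 : ℝ))).mul_const Complex.I
          exact (h2.cexp).mul_const (z i)
        convert! h1 using 1
        · funext t; simp [hc]
        · simp
      · have : (fun t => c t i) = fun _ => z i := by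
          funext t; simp [hc, hij]
        rw [this]
        convert! hasDerivAt_const (0 : ℝ) (z i) using 1
        simp [hij]
    have hconst : ∀ t, φ (c t) = φ z := by
      intro t
      have : c t = rot (Function.update 0 j ((t / (2 * Real.pi) : ℝ) : UnitAddCircle)) z := by
        funext i
        by_cases hij : i = j
        · subst hij
          simp only [hc, rot, Function.update_self]
          congr 1
          rw [AddCircle.toCircle_apply_mk, Circle.coe_exp]
          congr 1
          push_cast
          have : (Real.pi : ℂ) ≠ 0 := by exact_mod_cast Real.pi_ne_zero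
          field_simp
        · simp [hc, rot, hij, AddCircle.toCircle_zero]
      rw [this]
      exact hinv _
    have h1 : HasFDerivAt φ ((fderiv ℂ φ z).restrictScalars ℝ) (c 0) := by
      rw [hcz]; exact hd.hasFDerivAt.restrictScalars ℝ
    have h2 := h1.comp_hasDerivAt (0 : ℝ) hcd
    have h3 : HasDerivAt (φ ∘ c) 0 (0 : ℝ) := by
      have : φ ∘ c = fun _ => φ z := funext hconst
      rw [this]; exact hasDerivAt_const _ _
    have h4 := h2.unique h3
    rw [ContinuousLinearMap.coe_restrictScalars', map_smul, smul_eq_mul] at h4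
    rcases mul_eq_zero.1 h4 with h | h
    · exact absurd h (mul_ne_zero Complex.I_ne_zero (hz j))
    · exact h
  ext v
  conv_lhs => rw [← Finset.univ_sum_single v]
  rw [map_sum, zero_apply]
  apply Finset.sum_eq_zero
  intro j _
  have : (Pi.single j (v j) : Fin n → ℂ) = v j • Pi.single j 1 := by
    rw [← Pi.single_smul, smul_eq_mul, mul_one]
  rw [this, map_smul, key, smul_zero]

/-- open dense part of `Ω` -/
lemma isOpen_star {Ω : Set (Fin n → ℂ)} (hΩ : IsOpen Ω) :
    IsOpen (Ω ∩ {z : Fin n → ℂ | ∀ j, z j ≠ 0}) := by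
  apply hΩ.inter
  rw [show {z : Fin n → ℂ | ∀ j, z j ≠ 0} = ⋂ j, {z : Fin n → ℂ | z j ≠ 0} by ext; simp]
  exact isOpen_iInter_of_finite fun j => isOpen_ne_fun (continuous_apply j) continuous_const

lemma volume_hyper (j : Fin n) : (volume : Measure (Fin n → ℂ)) {z | z j = 0} = 0 :=
  Measure.pi_hyperplane _ j 0

lemma ae_ne : ∀ᵐ z : Fin n → ℂ, ∀ j, z j ≠ 0 := by
  rw [ae_all_iff]
  intro j
  rw [ae_iff]
  simpa using volume_hyper j

lemma star_nonempty {Ω : Set (Fin n → ℂ)} (hΩ : IsOpen Ω) (hne : Ω.Nonempty) :
    ∃ z ∈ Ω, ∀ j, z j ≠ 0 := by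
  have h1 : (volume : Measure (Fin n → ℂ)) Ω ≠ 0 := (hΩ.measure_pos _ hne).ne'
  by_contra hcon
  push Not at hcon
  apply h1
  apply measure_mono_null _ (ae_iff.1 (ae_ne (n := n)))
  intro z hz
  obtain ⟨j, hj⟩ := hcon z hz
  simp only [mem_ofPred_eq]
  push Not
  exact ⟨j, hj⟩

/-- locally constant near a point -/
lemma eventually_const {φ : (Fin n → ℂ) → ℂ} {U : Set (Fin n → ℂ)} (hU : IsOpen U)
    (hd : ∀ z ∈ U, DifferentiableAt ℂ φ z) (h0 : ∀ z ∈ U, fderiv ℂ φ z = 0) {z₀ : Fin n → ℂ}
    (hz₀ : z₀ ∈ U) : ∀ᶠ z in 𝓝 z₀, φ z = φ z₀ := by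
  obtain ⟨r, hr, hball⟩ := Metric.isOpen_iff.1 hU z₀ hz₀
  filter_upwards [ball_mem_nhds z₀ hr] with z hz
  exact (isOpen_ball.is_const_of_fderiv_eq_zero (𝕜 := ℂ) (convex_ball z₀ r).isPreconnected
    (fun w hw => (hd w (hball hw)).differentiableWithinAt) (fun w hw => h0 w (hball hw)) hz
    (mem_ball_self hr))

/-- **Laurent components**: the torus average with weight `γ` is a multiple of the monomial. -/
lemma avg_eq {Ω : Set (Fin n → ℂ)} (hΩ : IsOpen Ω) (hne : Ω.Nonempty) (hc : IsPreconnected Ω)
    (hI : Inv Ω) {g : (Fin n → ℂ) → ℂ} (hg : DifferentiableOn ℂ g Ω) (γ : Fin n → ℤ) :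
    ∃ c : ℂ, ∀ z ∈ Ω, (∀ j, z j ≠ 0) → avg g γ z = c * mon γ z := by
  obtain ⟨z₀, hz₀, hz₀'⟩ := star_nonempty hΩ hne
  set U : Set (Fin n → ℂ) := Ω ∩ {z : Fin n → ℂ | ∀ j, z j ≠ 0} with hU
  have hUo : IsOpen U := isOpen_star hΩ
  have hA := avg_differentiableOn hΩ hI hg γ
  set φ : (Fin n → ℂ) → ℂ := fun z => avg g γ z * mon (-γ) z with hφ
  have hφd : ∀ z ∈ U, DifferentiableAt ℂ φ z := fun z hz =>
    (hA.differentiableAt (hΩ.mem_nhds hz.1)).mul (mon_differentiableAt fun j => Or.inl (hz.2 j))
  have hφi : ∀ z ∈ U, ∀ x : Tor n, φ (rot x z) = φ z := by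
    intro z hz x
    simp only [hφ]
    rw [avg_rot, mon_rot]
    have h2 : mFourier γ x * mFourier (-γ) x = 1 := by
      rw [← mFourier_add, add_neg_cancel, mFourier_zero]; rfl
    linear_combination (avg g γ z * mon (-γ) z) * h2
  have hev := eventually_const hUo hφd
    (fun z hz => fderiv_zero_of_inv hz.2 (hφd z hz) (hφi z hz)) ⟨hz₀, hz₀'⟩
  set c := φ z₀ with hcdef
  -- positive and negative parts
  set p : Fin n → ℤ := fun j => max (γ j) 0 with hp
  set m : Fin n → ℤ := fun j => max (-γ j) 0 with hm
  have hpm : p - m = γ := by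
    funext j
    simp only [hp, hm, Pi.sub_apply]
    rcases le_total (γ j) 0 with h | h
    · rw [max_eq_right h, max_eq_left (by linarith)]; ring
    · rw [max_eq_left h, max_eq_right (by linarith)]; ring
  have hpd : Differentiable ℂ (mon p) := fun z => mon_differentiableAt fun j =>
    Or.inr (le_max_right _ _)
  have hmd : Differentiable ℂ (mon m) := fun z => mon_differentiableAt fun j =>
    Or.inr (le_max_right _ _)
  set G : (Fin n → ℂ) → ℂ := fun z => mon m z * avg g γ z - c * mon p z with hG
  have hGd : DifferentiableOn ℂ G Ω :=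
    (hmd.differentiableOn.mul hA).sub (hpd.differentiableOn.const_mul c)
  have hrel : ∀ z : Fin n → ℂ, (∀ j, z j ≠ 0) → φ z = c → G z = 0 := by
    intro z hz h
    simp only [hG]
    have h1 : mon p z = mon γ z * mon m z := by
      rw [← mon_add hz, ← hpm]; congr 1; abel
    have h2 : mon γ z * mon (-γ) z = 1 := by
      rw [← mon_add hz, add_neg_cancel]; simp [mon]
    simp only [hφ] at h
    rw [h1, ← h]
    linear_combination (-(mon m z) * avg g γ z) * h2
  have hG0 : ∀ᶠ z in 𝓝 z₀, G z = 0 := by
    filter_upwards [hev, hUo.mem_nhds ⟨hz₀, hz₀'⟩] with z h1 h2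
    exact hrel z h2.2 h1
  have hG1 := identity_thm hΩ hc hGd hz₀ hG0
  refine ⟨c, fun z hz hz' => ?_⟩
  have h1 := hG1 z hz
  simp only [hG] at h1
  have h2 : mon p z = mon γ z * mon m z := by
    rw [← mon_add hz', ← hpm]; congr 1; abel
  rw [h2] at h1
  have h3 : mon m z ≠ 0 := mon_ne_zero hz'
  have h4 : mon m z * (avg g γ z - c * mon γ z) = 0 := by linear_combination h1
  exact sub_eq_zero.1 ((mul_eq_zero.1 h4).resolve_left h3)

/-- Fourier uniqueness on the torus -/
lemma fourier_unique {F : Tor n → ℂ} (hF : Continuous F)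
    (h : ∀ γ : Fin n → ℤ, ∫ x, mFourier γ x * F x ∂(tau n) = 0) : ∀ x, F x = 0 := by
  set Fc : C(Tor n, ℂ) := ⟨F, hF⟩ with hFc
  -- the functional
  have hcont : Continuous fun G : C(Tor n, ℂ) => ∫ x, G x * F x ∂(tau n) := by
    obtain ⟨M, hM⟩ := (isCompact_univ (X := Tor n)).exists_bound_of_continuousOn hF.continuousOn
    have hM0 : 0 ≤ M := (norm_nonneg _).trans (hM 0 (mem_univ _))
    have hint : ∀ G : C(Tor n, ℂ), Integrable (fun x => G x * F x) (tau n) := fun G =>
      (G.continuous.mul hF).integrable_of_hasCompactSupport (HasCompactSupport.of_compactSpace _)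
    apply LipschitzWith.continuous (K := ⟨M, hM0⟩)
    apply LipschitzWith.of_dist_le_mul
    intro G G'
    rw [dist_eq_norm, ← integral_sub (hint G) (hint G')]
    calc ‖∫ x, (G x * F x - G' x * F x) ∂(tau n)‖
        ≤ (M * dist G G') * (tau n).real univ := by
          apply norm_integral_le_of_norm_le_const
          filter_upwards with x
          rw [← sub_mul, norm_mul]
          calc ‖G x - G' x‖ * ‖F x‖ ≤ dist G G' * M := by
                gcongr
                · rw [← dist_eq_norm]; exact ContinuousMap.dist_apply_le_dist x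
                · exact hM x (mem_univ _)
            _ = M * dist G G' := mul_comm _ _
      _ = M * dist G G' := by simp
  have hall : ∀ G : C(Tor n, ℂ), ∫ x, G x * F x ∂(tau n) = 0 := by
    intro G
    have hspan : G ∈ (Submodule.span ℂ (range <| mFourier (d := Fin n))).topologicalClosure := by
      rw [span_mFourier_closure_eq_top]; trivial
    have hint : ∀ G : C(Tor n, ℂ), Integrable (fun x => G x * F x) (tau n) := fun G =>
      (G.continuous.mul hF).integrable_of_hasCompactSupport (HasCompactSupport.of_compactSpace _)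
    have hclosed : IsClosed {G : C(Tor n, ℂ) | ∫ x, G x * F x ∂(tau n) = 0} :=
      isClosed_eq hcont continuous_const
    have hsub : (Submodule.span ℂ (range <| mFourier (d := Fin n)) : Set C(Tor n, ℂ)) ⊆
        {G : C(Tor n, ℂ) | ∫ x, G x * F x ∂(tau n) = 0} := by
      intro G hG
      induction hG using Submodule.span_induction with
      | mem G hG => obtain ⟨γ, rfl⟩ := hG; exact h γ
      | zero => simp
      | add G G' _ _ h1 h2 =>
        simp only [mem_ofPred_eq] at h1 h2 ⊢
        simp only [ContinuousMap.add_apply, add_mul]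
        rw [integral_add (hint G) (hint G'), h1, h2, add_zero]
      | smul a G _ h1 =>
        simp only [mem_ofPred_eq] at h1 ⊢
        simp only [ContinuousMap.smul_apply, smul_eq_mul, mul_assoc]
        rw [integral_const_mul, h1, mul_zero]
    exact closure_minimal hsub hclosed hspan
  have hstar := hall (star Fc)
  have h1 : ∫ x, ‖F x‖ ^ 2 ∂(tau n) = 0 := by
    have e : ∀ x, (star Fc) x * F x = ((‖F x‖ ^ 2 : ℝ) : ℂ) := by
      intro x
      change conj (F x) * F x = _
      rw [Complex.conj_mul']
      push_cast; rfl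
    simp_rw [e] at hstar
    rw [integral_complex_ofReal] at hstar
    exact_mod_cast hstar
  have h2 : Continuous fun x => ‖F x‖ ^ 2 := hF.norm.pow 2
  intro x
  by_contra hx
  have h4 := h2.integral_pos_of_hasCompactSupport_nonneg_nonzero (μ := tau n)
    (HasCompactSupport.of_compactSpace _) (fun x => by positivity) (x := x)
    (pow_ne_zero 2 (norm_ne_zero_iff.2 hx))
  linarith

/-- either `g` is constant or it has a nonzero Laurent component with nonzero weight. -/
lemma const_or_component {Ω : Set (Fin n → ℂ)} (hΩ : IsOpen Ω) (hne : Ω.Nonempty)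
    (hc : IsPreconnected Ω) (hI : Inv Ω) {g : (Fin n → ℂ) → ℂ} (hg : DifferentiableOn ℂ g Ω) :
    (∃ c, ∀ z ∈ Ω, g z = c) ∨ ∃ γ : Fin n → ℤ, γ ≠ 0 ∧ ∃ c : ℂ, c ≠ 0 ∧
      ∀ z ∈ Ω, (∀ j, z j ≠ 0) → avg g γ z = c * mon γ z := by
  by_cases hex : ∃ γ : Fin n → ℤ, γ ≠ 0 ∧ ∃ c : ℂ, c ≠ 0 ∧
      ∀ z ∈ Ω, (∀ j, z j ≠ 0) → avg g γ z = c * mon γ z
  · exact Or.inr hex
  · left
    have hz : ∀ γ : Fin n → ℤ, γ ≠ 0 → ∀ z ∈ Ω, (∀ j, z j ≠ 0) → avg g γ z = 0 := by
      intro γ hγ z hz hz'
      obtain ⟨c, hcc⟩ := avg_eq hΩ hne hc hI hg γ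
      by_cases h0 : c = 0
      · rw [hcc z hz hz', h0, zero_mul]
      · exact absurd ⟨γ, hγ, c, h0, hcc⟩ hex
    obtain ⟨z₀, hz₀, hz₀'⟩ := star_nonempty hΩ hne
    have hUo := isOpen_star hΩ
    have hinv : ∀ z ∈ Ω, (∀ j, z j ≠ 0) → ∀ x : Tor n, g (rot x z) = g z := by
      intro z hz1 hz2 x
      have hcx : Continuous fun x : Tor n => g (rot x z) :=
        hg.continuousOn.comp_continuous (continuous_rot.comp (continuous_id.prodMk
          continuous_const)) fun x => hI _ hz1 x
      have hint : Integrable (fun x : Tor n => g (rot x z)) (tau n) :=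
        hcx.integrable_of_hasCompactSupport (HasCompactSupport.of_compactSpace _)
      set a : ℂ := avg g 0 z with ha
      have hu := fourier_unique (F := fun x => g (rot x z) - a) (hcx.sub continuous_const) (by
        intro γ
        have hi2 : Integrable (fun x : Tor n => mFourier γ x * g (rot x z)) (tau n) :=
          ((mFourier γ).continuous.mul hcx).integrable_of_hasCompactSupport
            (HasCompactSupport.of_compactSpace _)
        have hi3 : Integrable (fun x : Tor n => mFourier γ x * a) (tau n) :=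
          ((mFourier γ).continuous.mul continuous_const).integrable_of_hasCompactSupport
            (HasCompactSupport.of_compactSpace _)
        simp_rw [mul_sub]
        rw [integral_sub hi2 hi3, integral_mul_const]
        by_cases hγ : γ = 0
        · subst hγ
          have e1 : ∫ x, mFourier (0 : Fin n → ℤ) x * g (rot x z) ∂(tau n) = a := by
            rw [ha, avg, neg_zero]
          have e2 : ∫ x, mFourier (0 : Fin n → ℤ) x ∂(tau n) = 1 := by
            rw [mFourier_zero]; simp
          rw [e1, e2]; ring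
        · have e1 : ∫ x, mFourier γ x * g (rot x z) ∂(tau n) = 0 := by
            have := hz (-γ) (neg_ne_zero.2 hγ) z hz1 hz2
            rwa [avg, neg_neg] at this
          have e2 : ∫ x, mFourier γ x ∂(tau n) = 0 := by
            -- shift by a point where the character is not one
            obtain ⟨y, hy⟩ : ∃ y : Tor n, mFourier γ y ≠ 1 := by
              obtain ⟨i, hi⟩ := Function.ne_iff.1 hγ
              simp only [Pi.zero_apply] at hi
              refine ⟨Function.update 0 i ((1 / (2 * (γ i : ℝ)) : ℝ) : UnitAddCircle), ?_⟩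
              have : mFourier γ (Function.update 0 i ((1 / (2 * (γ i : ℝ)) : ℝ) : UnitAddCircle)) =
                  fourier (γ i) (((1 / (2 * (γ i : ℝ)) : ℝ) : UnitAddCircle)) := by
                simp only [mFourier, ContinuousMap.coe_mk]
                rw [Finset.prod_eq_single i]
                · rw [Function.update_self]
                · intro j _ hj
                  rw [Function.update_of_ne hj]
                  simp
                · simp
              rw [this, fourier_coe_apply]
              have hγi : (γ i : ℂ) ≠ 0 := by exact_mod_cast hi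
              have e3 : 2 * (Real.pi : ℂ) * Complex.I * (γ i : ℂ) *
                  (((1 / (2 * (γ i : ℝ)) : ℝ)) : ℂ) / ((1 : ℝ) : ℂ) = Real.pi * Complex.I := by
                push_cast
                field_simp
              rw [e3, Complex.exp_pi_mul_I]
              norm_num
            have h5 := integral_add_right_eq_self (μ := tau n) (fun x => mFourier γ x) y
            have h6 : ∀ x : Tor n, mFourier γ (x + y) = mFourier γ y * mFourier γ x := by
              intro x
              simp only [mFourier, ContinuousMap.coe_mk, Pi.add_apply, fourier_apply, smul_add,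
                AddCircle.toCircle_add, Circle.coe_mul, Finset.prod_mul_distrib]
              ring
            simp_rw [h6] at h5
            rw [integral_const_mul] at h5
            have h7 : (mFourier γ y - 1) * ∫ x, mFourier γ x ∂(tau n) = 0 := by
              linear_combination h5
            exact (mul_eq_zero.1 h7).resolve_left (sub_ne_zero.2 hy)
          rw [e1, e2]; ring)
      have h1 := hu x
      have h2 := hu 0
      simp only [rot_zero] at h1 h2
      linear_combination h1 - h2
    refine ⟨g z₀, ?_⟩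
    have hev := eventually_const hUo (φ := g)
      (fun z hz => hg.differentiableAt (hΩ.mem_nhds hz.1))
      (fun z hz => fderiv_zero_of_inv hz.2 (hg.differentiableAt (hΩ.mem_nhds hz.1))
        (hinv z hz.1 hz.2)) (show z₀ ∈ Ω ∩ {z : Fin n → ℂ | ∀ j, z j ≠ 0} from ⟨hz₀, hz₀'⟩)
    intro z hz1
    have := identity_thm hΩ hc (hg.sub_const (g z₀)) hz₀ (by
      filter_upwards [hev] with w hw
      rw [hw, sub_self]) z hz1
    exact sub_eq_zero.1 this

end Pool.Agent.H33R3.HS
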