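import Mathlib
import Pool.Agent.H33R3.HSDefs
import Pool.Agent.H33R3.HSHilbert
import Pool.Agent.H33R3.Torus2

set_option autoImplicit false

/-!
# The basic inequality for Hankel operators on Reinhardt domains
-/

namespace Pool.Agent.H33R3.HS

open MeasureTheory Filter Metric Set Topology UnitAddTorus
open scoped ComplexConjugate ENNReal

variable {n : ℕ}

lemma IsReinhardtDomain.inv {Ω : Set (Fin n → ℂ)} (h : IsReinhardtDomain Ω) : Inv Ω := by
  intro z hz x
  -- choose representatives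
  have hex : ∀ j, ∃ t : ℝ, (t : UnitAddCircle) = x j := fun j => QuotientAddGroup.mk_surjective _
  choose t ht using hex
  have := h.rot_mem z hz (fun j => 2 * Real.pi * t j)
  convert! this using 1
  funext j
  simp only [rot]
  rw [← ht j, AddCircle.toCircle_apply_mk, Circle.coe_exp]
  simp

/-- rotations preserve Lebesgue measure -/
lemma measurePreserving_rot (x : Tor n) :
    MeasurePreserving (rot x) (volume : Measure (Fin n → ℂ)) volume := by
  have h1 : ∀ j, MeasurePreserving (fun z : ℂ => ((x j).toCircle : ℂ) * z) volume volume := by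
    intro j
    have := (rotation ((x j).toCircle)).measurePreserving
    exact this
  exact volume_preserving_pi h1

lemma continuous_rot_right (x : Tor n) : Continuous (rot x) :=
  continuous_rot.comp (continuous_const.prodMk continuous_id)

/-- compact torus invariant exhaustion of the part of `Ω` off the coordinate hyperplanes -/
def kk (Ω : Set (Fin n → ℂ)) (N : ℕ) : Set (Fin n → ℂ) :=
  {z | 1 / ((N : ℝ) + 1) ≤ infDist z Ωᶜ ∧ ∀ j, 1 / ((N : ℝ) + 1) ≤ ‖z j‖}

lemma kk_isClosed (Ω : Set (Fin n → ℂ)) (N : ℕ) : IsClosed (kk Ω N) := by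
  have h1 : IsClosed {z : Fin n → ℂ | 1 / ((N : ℝ) + 1) ≤ infDist z Ωᶜ} :=
    isClosed_le continuous_const (continuous_infDist_pt _)
  have h2 : IsClosed {z : Fin n → ℂ | ∀ j, 1 / ((N : ℝ) + 1) ≤ ‖z j‖} := by
    rw [show {z : Fin n → ℂ | ∀ j, 1 / ((N : ℝ) + 1) ≤ ‖z j‖} =
      ⋂ j, {z : Fin n → ℂ | 1 / ((N : ℝ) + 1) ≤ ‖z j‖} by ext; simp]
    exact isClosed_iInter fun j => isClosed_le continuous_const (by fun_prop)
  exact h1.inter h2

lemma kk_sub {Ω : Set (Fin n → ℂ)} {N : ℕ} {z : Fin n → ℂ} (hz : z ∈ kk Ω N) : z ∈ Ω := by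
  by_contra h
  have h1 : infDist z Ωᶜ = 0 := infDist_zero_of_mem h
  have h2 := hz.1
  rw [h1] at h2
  have : (0 : ℝ) < 1 / ((N : ℝ) + 1) := by positivity
  linarith

lemma kk_ne {Ω : Set (Fin n → ℂ)} {N : ℕ} {z : Fin n → ℂ} (hz : z ∈ kk Ω N) (j : Fin n) :
    z j ≠ 0 := by
  have h2 := hz.2 j
  have : (0 : ℝ) < 1 / ((N : ℝ) + 1) := by positivity
  rw [← norm_pos_iff]
  linarith

lemma kk_isCompact {Ω : Set (Fin n → ℂ)} (hb : Bornology.IsBounded Ω) (N : ℕ) :
    IsCompact (kk Ω N) :=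
  Metric.isCompact_of_isClosed_isBounded (kk_isClosed Ω N) (hb.subset fun _ hz => kk_sub hz)

lemma infDist_rot_le {Ω : Set (Fin n → ℂ)} (hI : Inv Ω) (x : Tor n) (z : Fin n → ℂ) :
    infDist (rot x z) Ωᶜ ≤ infDist z Ωᶜ := by
  rcases (Ωᶜ).eq_empty_or_nonempty with h | h
  · rw [h]; simp
  · apply (le_infDist h).2
    intro w hw
    have hw' : rot x w ∈ Ωᶜ := by
      intro h1
      have h2 := hI _ h1 (-x)
      rw [rot_add', neg_add_cancel, rot_zero] at h2
      exact hw h2
    calc infDist (rot x z) Ωᶜ ≤ dist (rot x z) (rot x w) := infDist_le_dist_of_mem hw'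
      _ = dist z w := dist_rot x z w

lemma kk_rot {Ω : Set (Fin n → ℂ)} (hI : Inv Ω) {N : ℕ} (x : Tor n) {z : Fin n → ℂ} :
    rot x z ∈ kk Ω N ↔ z ∈ kk Ω N := by
  have h1 : infDist (rot x z) Ωᶜ = infDist z Ωᶜ := by
    apply le_antisymm (infDist_rot_le hI x z)
    have := infDist_rot_le hI (-x) (rot x z)
    rwa [rot_add', neg_add_cancel, rot_zero] at this
  simp only [kk, mem_ofPred_eq, h1, norm_rot_apply]

lemma kk_cover {Ω : Set (Fin n → ℂ)} (hΩ : IsOpen Ω) (hne : (Ωᶜ).Nonempty) {z : Fin n → ℂ}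
    (hz : z ∈ Ω) (hz' : ∀ j, z j ≠ 0) : ∀ᶠ N in atTop, z ∈ kk Ω N := by
  have h1 : 0 < infDist z Ωᶜ := by
    rw [← (hΩ.isClosed_compl).notMem_iff_infDist_pos hne]
    exact fun h => h hz
  have h2 : ∀ j, 0 < ‖z j‖ := fun j => norm_pos_iff.2 (hz' j)
  have h3 := tendsto_one_div_add_atTop_nhds_zero_nat (𝕜 := ℝ)
  have h4 : ∀ᶠ N : ℕ in atTop, 1 / ((N : ℝ) + 1) ≤ infDist z Ωᶜ :=
    (h3.eventually (gt_mem_nhds h1)).mono fun _ h => le_of_lt h
  have h5 : ∀ᶠ N : ℕ in atTop, ∀ j, 1 / ((N : ℝ) + 1) ≤ ‖z j‖ := by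
    rw [eventually_all]
    exact fun j => (h3.eventually (gt_mem_nhds (h2 j))).mono fun _ h => le_of_lt h
  filter_upwards [h4, h5] with N h6 h7
  exact ⟨h6, h7⟩

lemma kk_aecover {Ω : Set (Fin n → ℂ)} (hΩ : IsOpen Ω) (hne : (Ωᶜ).Nonempty) :
    AECover (volume.restrict Ω) atTop (kk Ω) where
  ae_eventually_mem := by
    filter_upwards [ae_restrict_mem hΩ.measurableSet, ae_restrict_of_ae (ae_ne (n := n))]
      with z h1 h2
    exact kk_cover hΩ hne h1 h2
  measurableSet N := (kk_isClosed Ω N).measurableSet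

/-- the basic averaging identity -/
lemma avg_identity {Ω : Set (Fin n → ℂ)} (hb : Bornology.IsBounded Ω)
    (hI : Inv Ω) {g : (Fin n → ℂ) → ℂ} (hg : DifferentiableOn ℂ g Ω) {γ : Fin n → ℤ} {c : ℂ}
    (hc : ∀ z ∈ Ω, (∀ j, z j ≠ 0) → avg g γ z = c * mon γ z) (N : ℕ) {χ : (Fin n → ℂ) → ℂ}
    (hχc : ContinuousOn χ (kk Ω N)) (hχi : ∀ z ∈ kk Ω N, ∀ x : Tor n, χ (rot x z) = χ z) :
    ∫ z in kk Ω N, χ z * (conj (mon γ z) * g z) = c * ∫ z in kk Ω N, χ z * (‖mon γ z‖ ^ 2 : ℝ) := by
  set K := kk Ω N with hK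
  have hKc : IsCompact K := kk_isCompact hb N
  have hKm : MeasurableSet K := (kk_isClosed Ω N).measurableSet
  set Φ : (Fin n → ℂ) → ℂ := fun z => χ z * (conj (mon γ z) * g z) with hΦ
  have hmonc : ContinuousOn (mon γ) K := fun z hz =>
    (mon_differentiableAt fun j => Or.inl (kk_ne hz j)).continuousAt.continuousWithinAt
  have hΦc : ContinuousOn Φ K :=
    hχc.mul ((Complex.continuous_conj.comp_continuousOn hmonc).mul
      (hg.continuousOn.mono fun z hz => kk_sub hz))
  have hΦi : IntegrableOn Φ K := hΦc.integrableOn_compact hKc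
  set Ψ : (Fin n → ℂ) → ℂ := K.indicator Φ with hΨ
  have hΨi : Integrable Ψ := (integrable_indicator_iff hKm).2 hΦi
  have hΨrot : ∀ x : Tor n, ∀ z, Ψ (rot x z) = K.indicator (fun z => Φ (rot x z)) z := by
    intro x z
    by_cases hz : z ∈ K
    · rw [hΨ, indicator_of_mem ((kk_rot hI x).2 hz), indicator_of_mem hz]
    · rw [hΨ, indicator_of_notMem (fun h => hz ((kk_rot hI x).1 h)), indicator_of_notMem hz]
  have h1 : ∀ x : Tor n, ∫ z, Ψ (rot x z) = ∫ z, Ψ z := by
    intro x
    have hmp := measurePreserving_rot x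
    have hemb : MeasurableEmbedding (rot x) := by
      apply (continuous_rot_right x).measurableEmbedding
      intro a b hab
      have := congrArg (rot (-x)) hab
      simpa [rot_add', rot_zero] using this
    exact hmp.integral_comp hemb Ψ
  have h2 : ∫ z, Ψ z = ∫ x, ∫ z, Ψ (rot x z) ∂volume ∂(tau n) := by
    simp_rw [h1]; simp
  have hskew : MeasurePreserving (fun p : Tor n × (Fin n → ℂ) => (p.1, rot p.1 p.2))
      ((tau n).prod volume) ((tau n).prod volume) := by
    apply (MeasurePreserving.id (tau n)).skew_product (g := fun x z => rot x z)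
    · exact continuous_rot.measurable
    · exact Eventually.of_forall fun x => (measurePreserving_rot x).map_eq
  have hint : Integrable (fun p : Tor n × (Fin n → ℂ) => Ψ (rot p.1 p.2))
      ((tau n).prod volume) := by
    have h3 : Integrable (fun p : Tor n × (Fin n → ℂ) => Ψ p.2) ((tau n).prod volume) :=
      hΨi.comp_snd (tau n)
    exact hskew.integrable_comp_of_integrable h3
  rw [integral_integral_swap hint] at h2
  have h3 : ∫ z, Ψ z = ∫ z in K, Φ z := integral_indicator hKm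
  rw [← h3, h2]
  have h4 : ∀ z, ∫ x, Ψ (rot x z) ∂(tau n) =
      K.indicator (fun z => c * (χ z * (‖mon γ z‖ ^ 2 : ℝ))) z := by
    intro z
    by_cases hz : z ∈ K
    · rw [indicator_of_mem hz]
      have e1 : ∀ x : Tor n, Ψ (rot x z) =
          (χ z * conj (mon γ z)) * (mFourier (-γ) x * g (rot x z)) := by
        intro x
        rw [hΨrot, indicator_of_mem hz]
        simp only [hΦ]
        rw [hχi z hz x, mon_rot, map_mul, ← mFourier_neg]
        ring
      simp_rw [e1]
      rw [integral_const_mul]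
      have e2 := hc z (kk_sub hz) (kk_ne hz)
      rw [avg] at e2
      rw [e2]
      have e3 : conj (mon γ z) * mon γ z = ((‖mon γ z‖ ^ 2 : ℝ) : ℂ) := by
        rw [Complex.conj_mul']; push_cast; rfl
      rw [← e3]
      ring
    · rw [indicator_of_notMem hz]
      have : ∀ x : Tor n, Ψ (rot x z) = 0 := by
        intro x; rw [hΨrot, indicator_of_notMem hz]
      simp_rw [this]
      simp
  simp_rw [h4]
  rw [integral_indicator hKm, integral_const_mul]

end Pool.Agent.H33R3.HS
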