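import Mathlib
import Pool.Agent.H33R3.HSCore

set_option autoImplicit false

/-!
# The basic inequality for Hankel operators on Reinhardt domains, part 2
-/

namespace Pool.Agent.H33R3.HS

open MeasureTheory Filter Metric Set Topology UnitAddTorus
open scoped ComplexConjugate ENNReal

variable {n : ℕ}

/-- the monomial `z^α` belongs to the Bergman space -/
def Good (Ω : Set (Fin n → ℂ)) (α : Fin n → ℤ) : Prop :=
  MemLp (mon α) 2 (volume.restrict Ω) ∧
    ∃ h : (Fin n → ℂ) → ℂ, DifferentiableOn ℂ h Ω ∧ ∀ z ∈ Ω, (∀ j, z j ≠ 0) → mon α z = h z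

/-- squared norm of the monomial -/
noncomputable def CC (Ω : Set (Fin n → ℂ)) (α : Fin n → ℤ) : ℝ := ∫ z in Ω, ‖mon α z‖ ^ 2

lemma ae_star {Ω : Set (Fin n → ℂ)} (hΩ : IsOpen Ω) :
    ∀ᵐ z ∂(volume.restrict Ω), z ∈ Ω ∧ ∀ j, z j ≠ 0 := by
  filter_upwards [ae_restrict_mem hΩ.measurableSet, ae_restrict_of_ae (ae_ne (n := n))]
    with z h1 h2 using ⟨h1, h2⟩

/-- the class of a monomial in the Bergman space -/
noncomputable def eL {Ω : Set (Fin n → ℂ)} (hΩ : IsOpen Ω) {α : Fin n → ℤ} (h : Good Ω α) :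
    bergman Ω :=
  ⟨h.1.toLp _, h.2.choose, h.2.choose_spec.1, h.1.coeFn_toLp.trans (by
    filter_upwards [ae_star hΩ] with z hz using h.2.choose_spec.2 z hz.1 hz.2)⟩

lemma eL_coe {Ω : Set (Fin n → ℂ)} (hΩ : IsOpen Ω) {α : Fin n → ℤ} (h : Good Ω α) :
    ((eL hΩ h : bergman Ω) : L2 Ω) =ᵐ[volume.restrict Ω] mon α := h.1.coeFn_toLp

lemma L2_norm_sq {Ω : Set (Fin n → ℂ)} (U : L2 Ω) {u : (Fin n → ℂ) → ℂ}
    (hU : U =ᵐ[volume.restrict Ω] u) : ‖U‖ ^ 2 = ∫ w in Ω, ‖u w‖ ^ 2 := by
  have := L2.inner_def (𝕜 := ℂ) U U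
  rw [inner_self_eq_norm_sq_to_K] at this
  have h4 : ∀ w, inner ℂ (U w) (U w) = ((‖U w‖ ^ 2 : ℝ) : ℂ) := by
    intro w; rw [inner_self_eq_norm_sq_to_K]; simp
  simp_rw [h4] at this
  rw [integral_complex_ofReal] at this
  have h5 : ((‖U‖ ^ 2 : ℝ) : ℂ) = ((∫ w in Ω, ‖U w‖ ^ 2 : ℝ) : ℂ) := by
    rw [← this]; simp
  have h6 : ‖U‖ ^ 2 = ∫ w in Ω, ‖U w‖ ^ 2 := by exact_mod_cast h5
  rw [h6]
  apply integral_congr_ae
  filter_upwards [hU] with w hw
  rw [hw]

lemma L2_inner {Ω : Set (Fin n → ℂ)} (U V : L2 Ω) {u v : (Fin n → ℂ) → ℂ}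
    (hU : U =ᵐ[volume.restrict Ω] u) (hV : V =ᵐ[volume.restrict Ω] v) :
    inner ℂ U V = ∫ w in Ω, conj (u w) * v w := by
  rw [L2.inner_def]
  apply integral_congr_ae
  filter_upwards [hU, hV] with w h1 h2
  rw [h1, h2]
  simp [mul_comm]

section

variable {Ω : Set (Fin n → ℂ)} (hb : Bornology.IsBounded Ω)
include hb

lemma finite_restrict : IsFiniteMeasure (volume.restrict Ω) :=
  ⟨by rw [Measure.restrict_apply_univ]; exact hb.measure_lt_top⟩

lemma memLp_ind {N : ℕ} {h₀ : (Fin n → ℂ) → ℂ} (hc : ContinuousOn h₀ (kk Ω N)) :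
    MemLp ((kk Ω N).indicator h₀) 2 (volume.restrict Ω) := by
  have := finite_restrict hb
  obtain ⟨C, hC⟩ := (kk_isCompact hb N).exists_bound_of_continuousOn hc
  have hm : AEStronglyMeasurable ((kk Ω N).indicator h₀) (volume.restrict Ω) := by
    rw [aestronglyMeasurable_indicator_iff (kk_isClosed Ω N).measurableSet]
    have h1 : AEStronglyMeasurable h₀ (volume.restrict (kk Ω N)) :=
      hc.aestronglyMeasurable (kk_isClosed Ω N).measurableSet
    apply h1.mono_measure
    rw [Measure.restrict_restrict (kk_isClosed Ω N).measurableSet]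
    exact Measure.restrict_mono inter_subset_left le_rfl
  apply MemLp.of_bound hm (max C 0)
  filter_upwards with z
  by_cases hz : z ∈ kk Ω N
  · rw [indicator_of_mem hz]; exact (hC z hz).trans (le_max_left _ _)
  · rw [indicator_of_notMem hz, norm_zero]; exact le_max_right _ _

omit hb in
lemma setInt_ind {N : ℕ} {E : Type*} [NormedAddCommGroup E] [NormedSpace ℝ E]
    (F : (Fin n → ℂ) → E) :
    ∫ w in Ω, (kk Ω N).indicator F w = ∫ w in kk Ω N, F w := by
  rw [integral_indicator (kk_isClosed Ω N).measurableSet,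
    Measure.restrict_restrict (kk_isClosed Ω N).measurableSet]
  congr 2
  exact inter_eq_left.2 fun z hz => kk_sub hz

omit hb in
lemma mon_contOn (γ : Fin n → ℤ) (N : ℕ) : ContinuousOn (mon γ) (kk Ω N) := fun z hz =>
  (mon_differentiableAt fun j => Or.inl (kk_ne hz j)).continuousAt.continuousWithinAt

/-- a nonzero Laurent component of an element of the Bergman space gives a monomial in it -/
lemma good_of_component (hR : IsReinhardtDomain Ω) (hne : (Ωᶜ).Nonempty) {U : L2 Ω}
    {g : (Fin n → ℂ) → ℂ} (hg : DifferentiableOn ℂ g Ω) (hU : U =ᵐ[volume.restrict Ω] g)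
    {γ : Fin n → ℤ} {c : ℂ} (hc0 : c ≠ 0)
    (hc : ∀ z ∈ Ω, (∀ j, z j ≠ 0) → avg g γ z = c * mon γ z) : Good Ω γ := by
  have hI := hR.inv
  have hΩ := hR.isOpen
  have hcn : 0 < ‖c‖ := norm_pos_iff.2 hc0
  have hbound : ∀ N, ∫ z in kk Ω N, ‖mon γ z‖ ^ 2 ≤ ‖U‖ ^ 2 / ‖c‖ ^ 2 := by
    intro N
    have h1 := avg_identity hb hI hg hc N (χ := fun _ => 1) continuousOn_const
      (fun _ _ _ => rfl)
    simp only [one_mul] at h1
    rw [integral_complex_ofReal] at h1
    set A := ∫ z in kk Ω N, ‖mon γ z‖ ^ 2 with hA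
    have hA0 : 0 ≤ A := integral_nonneg fun _ => by positivity
    have hm := memLp_ind hb (N := N) (mon_contOn (Ω := Ω) γ N)
    have h2 : inner ℂ (hm.toLp _) U = ∫ z in kk Ω N, conj (mon γ z) * g z := by
      rw [L2_inner _ _ hm.coeFn_toLp hU, ← setInt_ind]
      apply integral_congr_ae
      filter_upwards with z
      by_cases hz : z ∈ kk Ω N
      · rw [indicator_of_mem hz, indicator_of_mem hz]
      · rw [indicator_of_notMem hz, indicator_of_notMem hz]; simp
    have h3 : ‖hm.toLp _‖ ^ 2 = A := by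
      rw [L2_norm_sq _ hm.coeFn_toLp, hA, ← setInt_ind]
      apply integral_congr_ae
      filter_upwards with z
      by_cases hz : z ∈ kk Ω N
      · rw [indicator_of_mem hz, indicator_of_mem hz]
      · rw [indicator_of_notMem hz, indicator_of_notMem hz]; simp
    have h4 := norm_inner_le_norm (𝕜 := ℂ) (hm.toLp _) U
    rw [h2, h1, norm_mul, Complex.norm_real, Real.norm_of_nonneg hA0] at h4
    set x := ‖hm.toLp _‖ with hx
    have hx0 : 0 ≤ x := norm_nonneg _
    rw [← h3] at h4 ⊢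
    rw [le_div_iff₀ (by positivity)]
    rcases eq_or_lt_of_le hx0 with h0 | h0
    · rw [← h0]; simp
    · have h5 : ‖c‖ * x ≤ ‖U‖ := by
        have : (‖c‖ * x) * x ≤ ‖U‖ * x := by nlinarith
        exact le_of_mul_le_mul_right this h0
      calc x ^ 2 * ‖c‖ ^ 2 = (‖c‖ * x) ^ 2 := by ring
        _ ≤ ‖U‖ ^ 2 := by gcongr
  have hint : Integrable (fun z => ‖mon γ z‖ ^ 2) (volume.restrict Ω) := by
    apply (kk_aecover hΩ hne).integrable_of_integral_norm_bounded (‖U‖ ^ 2 / ‖c‖ ^ 2)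
    · intro N
      have h1 : IntegrableOn (fun z => ‖mon γ z‖ ^ 2) (kk Ω N) :=
        ((mon_contOn (Ω := Ω) γ N).norm.pow 2).integrableOn_compact (kk_isCompact hb N)
      rw [IntegrableOn, Measure.restrict_restrict (kk_isClosed Ω N).measurableSet,
        inter_eq_left.2 fun z hz => kk_sub hz]
      exact h1
    · filter_upwards with N
      rw [Measure.restrict_restrict (kk_isClosed Ω N).measurableSet,
        inter_eq_left.2 fun z hz => kk_sub hz]
      refine le_trans (le_of_eq ?_) (hbound N)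
      apply integral_congr_ae
      filter_upwards with z
      simp
  refine ⟨?_, ?_⟩
  · rw [memLp_two_iff_integrable_sq_norm]
    · exact hint
    · apply (kk_aecover hΩ hne).aestronglyMeasurable
      intro N
      rw [Measure.restrict_restrict (kk_isClosed Ω N).measurableSet,
        inter_eq_left.2 fun z hz => kk_sub hz]
      exact (mon_contOn (Ω := Ω) γ N).aestronglyMeasurable (kk_isClosed Ω N).measurableSet
  · refine ⟨fun z => c⁻¹ * avg g γ z, (avg_differentiableOn hΩ hI hg γ).const_mul _, ?_⟩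
    intro z hz hz'
    change mon γ z = c⁻¹ * avg g γ z
    rw [hc z hz hz']
    field_simp

/-- test functions orthogonal to the Bergman space -/
lemma perp (hR : IsReinhardtDomain Ω) (hne : (Ωᶜ).Nonempty) {N : ℕ} {γ : Fin n → ℤ}
    {χ : (Fin n → ℂ) → ℝ} (hχc : ContinuousOn χ (kk Ω N))
    (hχi : ∀ z ∈ kk Ω N, ∀ x : Tor n, χ (rot x z) = χ z)
    (hm : MemLp ((kk Ω N).indicator fun z => (χ z : ℂ) * mon γ z) 2 (volume.restrict Ω))
    (h0 : (∫ z in kk Ω N, χ z * ‖mon γ z‖ ^ 2 = 0) ∨ ¬ Good Ω γ) :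
    hm.toLp _ ∈ (bergman Ω)ᗮ := by
  rw [Submodule.mem_orthogonal]
  rintro U ⟨g, hg, hU⟩
  obtain ⟨c, hc⟩ := avg_eq hR.isOpen hR.isConnected.nonempty hR.isConnected.isPreconnected
    hR.inv hg γ
  have h1 := avg_identity hb hR.inv hg hc N (χ := fun z => (χ z : ℂ))
    (Complex.continuous_ofReal.comp_continuousOn hχc) (fun z hz x => by rw [hχi z hz x])
  have h2 : inner ℂ U (hm.toLp _) = conj (∫ z in kk Ω N, (χ z : ℂ) * (conj (mon γ z) * g z)) := by
    rw [L2_inner _ _ hU hm.coeFn_toLp, ← integral_conj, ← setInt_ind]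
    apply integral_congr_ae
    filter_upwards with z
    by_cases hz : z ∈ kk Ω N
    · rw [indicator_of_mem hz, indicator_of_mem hz]
      simp only [map_mul, Complex.conj_conj, Complex.conj_ofReal]
      ring
    · rw [indicator_of_notMem hz, indicator_of_notMem hz]; simp
  rw [h2, h1]
  by_cases hc0 : c = 0
  · rw [hc0]; simp
  · have hgood := good_of_component hb hR hne hg hU hc0 hc
    have h3 : ∫ z in kk Ω N, χ z * ‖mon γ z‖ ^ 2 = 0 := h0.resolve_right fun h => h hgood
    have h4 : ∫ z in kk Ω N, (χ z : ℂ) * (‖mon γ z‖ ^ 2 : ℝ) = 0 := by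
      have : ∀ z, (χ z : ℂ) * ((‖mon γ z‖ ^ 2 : ℝ) : ℂ) = ((χ z * ‖mon γ z‖ ^ 2 : ℝ) : ℂ) := by
        intro z; push_cast; ring
      simp_rw [this]
      rw [integral_complex_ofReal, h3]; simp
    rw [h4]; simp

/-- local description of the extended Hankel operator, tested against compactly supported
functions orthogonal to the Bergman space -/
lemma core_inner {f : (Fin n → ℂ) → ℂ} (hf : DifferentiableOn ℂ f Ω)
    (hdense : Dense (hankelDomain Ω f)) {T : bergman Ω →L[ℂ] L2 Ω}
    (hT : ∀ g ∈ hankelDomain Ω f, T g = hankel Ω f g) {N : ℕ} {h₀ : (Fin n → ℂ) → ℂ}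
    (hc : ContinuousOn h₀ (kk Ω N))
    (hm : MemLp ((kk Ω N).indicator h₀) 2 (volume.restrict Ω))
    (hperp : hm.toLp _ ∈ (bergman Ω)ᗮ) (g : bergman Ω) {g₀ : (Fin n → ℂ) → ℂ}
    (hg₀ : (g : L2 Ω) =ᵐ[volume.restrict Ω] g₀) :
    inner ℂ (hm.toLp _) (T g) = ∫ z in kk Ω N, conj (h₀ z) * (conj (f z) * g₀ z) := by
  have hfc : ContinuousOn (fun z => f z * h₀ z) (kk Ω N) :=
    (hf.continuousOn.mono fun z hz => kk_sub hz).mul hc
  have hm2 := memLp_ind hb (N := N) hfc
  -- both sides as continuous functions of `g`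
  have hall : ∀ g : bergman Ω, inner ℂ (hm.toLp _) (T g) = inner ℂ (hm2.toLp _) (g : L2 Ω) := by
    have hc1 : Continuous fun g : bergman Ω => inner ℂ (hm.toLp _) (T g) :=
      continuous_const.inner T.continuous
    have hc2 : Continuous fun g : bergman Ω => inner ℂ (hm2.toLp _) (g : L2 Ω) :=
      continuous_const.inner continuous_subtype_val
    have heq := Continuous.ext_on hdense hc1 hc2 (by
      intro g hg
      have hg' : MemLp (fun z => conj (f z) * (g : L2 Ω) z) 2 (volume.restrict Ω) := hg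
      simp only
      rw [hT g hg, hankel, dif_pos hg']
      have h1 := Submodule.starProjection_inner_eq_zero (K := (bergman Ω)ᗮ)
        (hg'.toLp _) _ hperp
      have h2 : inner ℂ (hm.toLp _) ((bergman Ω)ᗮ.starProjection (hg'.toLp _))
          = inner ℂ (hm.toLp _) (hg'.toLp _) := by
        rw [inner_sub_left, sub_eq_zero] at h1
        have h3 := congrArg conj h1
        rw [inner_conj_symm, inner_conj_symm] at h3
        exact h3.symm
      rw [h2, L2_inner _ _ hm.coeFn_toLp (MemLp.coeFn_toLp _),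
        L2_inner _ _ hm2.coeFn_toLp (Filter.EventuallyEq.refl _ _)]
      apply integral_congr_ae
      filter_upwards with z
      by_cases hz : z ∈ kk Ω N
      · rw [indicator_of_mem hz, indicator_of_mem hz]
        simp only [map_mul]
        ring
      · rw [indicator_of_notMem hz, indicator_of_notMem hz]; simp)
    exact fun g => congrFun heq g
  rw [hall, L2_inner _ _ hm2.coeFn_toLp hg₀, ← setInt_ind]
  apply integral_congr_ae
  filter_upwards with z
  by_cases hz : z ∈ kk Ω N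
  · rw [indicator_of_mem hz, indicator_of_mem hz]
    simp only [map_mul]
    ring
  · rw [indicator_of_notMem hz, indicator_of_notMem hz]; simp

end

end Pool.Agent.H33R3.HS
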