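import Mathlib
import Pool.Agent.H33R3.HSCore2

set_option autoImplicit false

/-!
# The main inequality
-/

namespace Pool.Agent.H33R3.HS

open MeasureTheory Filter Metric Set Topology UnitAddTorus
open scoped ComplexConjugate ENNReal

variable {n : ℕ} {Ω : Set (Fin n → ℂ)}

/-- partial integrals -/
noncomputable def IK (Ω : Set (Fin n → ℂ)) (N : ℕ) (α : Fin n → ℤ) : ℝ :=
  ∫ z in kk Ω N, ‖mon α z‖ ^ 2

lemma IK_integrable (hb : Bornology.IsBounded Ω) (N : ℕ) (α : Fin n → ℤ) :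
    IntegrableOn (fun z => ‖mon α z‖ ^ 2) (kk Ω N) :=
  ((mon_contOn (Ω := Ω) α N).norm.pow 2).integrableOn_compact (kk_isCompact hb N)

lemma IK_nonneg (N : ℕ) (α : Fin n → ℤ) : 0 ≤ IK Ω N α := integral_nonneg fun _ => by positivity

lemma good_integrable {α : Fin n → ℤ} (h : Good Ω α) :
    IntegrableOn (fun z => ‖mon α z‖ ^ 2) Ω :=
  (memLp_two_iff_integrable_sq_norm h.1.1).1 h.1

lemma IK_le (h0 : ∀ N, kk Ω N ⊆ Ω) {α : Fin n → ℤ} (h : Good Ω α) (N : ℕ) :
    IK Ω N α ≤ CC Ω α := by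
  apply setIntegral_mono_set (good_integrable h)
  · filter_upwards with z; positivity
  · exact (h0 N).eventuallyLE

lemma IK_tendsto (hΩ : IsOpen Ω) (hne : (Ωᶜ).Nonempty) {α : Fin n → ℤ} (h : Good Ω α) :
    Tendsto (fun N => IK Ω N α) atTop (𝓝 (CC Ω α)) := by
  have := (kk_aecover hΩ hne).integral_tendsto_of_countably_generated (good_integrable h)
  refine this.congr fun N => ?_
  rw [Measure.restrict_restrict (kk_isClosed Ω N).measurableSet,
    inter_eq_left.2 fun z hz => kk_sub hz]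
  rfl

lemma CC_pos (hR : IsReinhardtDomain Ω) {α : Fin n → ℤ} (h : Good Ω α) : 0 < CC Ω α := by
  unfold CC
  rw [integral_pos_iff_support_of_nonneg (fun _ => by positivity) (good_integrable h)]
  have h1 : 0 < (volume.restrict Ω) univ := by
    rw [Measure.restrict_apply_univ]
    exact hR.isOpen.measure_pos _ hR.isConnected.nonempty
  refine lt_of_lt_of_le h1 (measure_mono_ae ?_)
  filter_upwards [ae_star hR.isOpen] with z hz _
  have : mon α z ≠ 0 := mon_ne_zero hz.2
  change ‖mon α z‖ ^ 2 ≠ 0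
  positivity

lemma IK_zero_of_zero (hb : Bornology.IsBounded Ω) {N : ℕ} {γ : Fin n → ℤ}
    (h : IK Ω N γ = 0) (α : Fin n → ℤ) :
    IK Ω N α = 0 := by
  have h1 : ∀ᵐ z ∂(volume.restrict (kk Ω N)), False := by
    have h2 := (integral_eq_zero_iff_of_nonneg (fun _ => by positivity)
      (IK_integrable hb N γ)).1 h
    filter_upwards [h2, ae_restrict_mem (kk_isClosed Ω N).measurableSet] with z hz1 hz2
    have : mon γ z ≠ 0 := mon_ne_zero (kk_ne hz2)
    simp only [Pi.zero_apply] at hz1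
    have h3 : ‖mon γ z‖ ^ 2 ≠ 0 := by positivity
    exact h3 hz1
  unfold IK
  rw [integral_eq_zero_of_ae]
  filter_upwards [h1] with z hz using hz.elim

section main

variable (hb : Bornology.IsBounded Ω) (hR : IsReinhardtDomain Ω) (hne : (Ωᶜ).Nonempty)
  {f : (Fin n → ℂ) → ℂ} (hf : DifferentiableOn ℂ f Ω)
  (hdense : Dense (hankelDomain Ω f)) {T : bergman Ω →L[ℂ] L2 Ω}
  (hT : ∀ g ∈ hankelDomain Ω f, T g = hankel Ω f g)
  {β : Fin n → ℤ} {c : ℂ} (hc0 : c ≠ 0)
  (hc : ∀ z ∈ Ω, (∀ j, z j ≠ 0) → avg f β z = c * mon β z)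
include hb hR hne hf hdense hT hc0 hc

open scoped Classical in
/-- inequality on the compact exhaustion -/
lemma ineq_K {α : Fin n → ℤ} (hα : Good Ω α) (N : ℕ) :
    ‖c‖ ^ 2 * (IK Ω N (α + β) - if Good Ω (α - β) then IK Ω N α ^ 2 / IK Ω N (α - β) else 0) ≤
      ‖T (eL hR.isOpen hα)‖ ^ 2 := by
  set γ := α - β with hγ
  set K := kk Ω N with hK
  set W := IK Ω N γ with hW
  set B := IK Ω N α with hB
  set A := IK Ω N (α + β) with hA
  set m : ℝ := if Good Ω γ then B / W else 0 with hm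
  have hmA : (if Good Ω γ then B ^ 2 / W else 0) = m * B := by
    rw [hm]; split_ifs <;> ring
  rw [hmA]
  have hmon1 : ∀ z ∈ K, ‖mon α z‖ ^ 2 = ‖mon β z‖ ^ 2 * ‖mon γ z‖ ^ 2 := by
    intro z hz
    have : mon α z = mon β z * mon γ z := by
      rw [← mon_add (kk_ne hz), hγ]; congr 1; abel
    rw [this, norm_mul, mul_pow]
  have hmon2 : ∀ z ∈ K, ‖mon (α + β) z‖ ^ 2 = ‖mon β z‖ ^ 2 * (‖mon β z‖ ^ 2 * ‖mon γ z‖ ^ 2) := by
    intro z hz
    rw [mon_add (kk_ne hz), norm_mul, mul_pow, hmon1 z hz]; ring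
  have hKm : MeasurableSet K := (kk_isClosed Ω N).measurableSet
  set χ : (Fin n → ℂ) → ℝ := fun z => ‖mon β z‖ ^ 2 - m with hχ
  have hχc : ContinuousOn χ K := ((mon_contOn (Ω := Ω) β N).norm.pow 2).sub continuousOn_const
  have hχi : ∀ z ∈ K, ∀ x : Tor n, χ (rot x z) = χ z := by
    intro z _ x
    simp only [hχ]
    rw [mon_rot, norm_mul, mFourier_norm_apply, one_mul]
  have iW := IK_integrable hb N γ
  have iB := IK_integrable hb N α
  have iA := IK_integrable hb N (α + β)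
  have e1 : ∫ z in K, χ z * ‖mon γ z‖ ^ 2 = B - m * W := by
    have : ∫ z in K, χ z * ‖mon γ z‖ ^ 2 = ∫ z in K, (‖mon α z‖ ^ 2 - m * ‖mon γ z‖ ^ 2) := by
      apply setIntegral_congr_fun hKm
      intro z hz
      simp only [hχ]
      rw [hmon1 z hz]; ring
    rw [this, integral_sub iB (iW.const_mul m), integral_const_mul]
    rfl
  have e2 : ∫ z in K, χ z * ‖mon α z‖ ^ 2 = A - m * B := by
    have : ∫ z in K, χ z * ‖mon α z‖ ^ 2 = ∫ z in K, (‖mon (α + β) z‖ ^ 2 - m * ‖mon α z‖ ^ 2) := by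
      apply setIntegral_congr_fun hKm
      intro z hz
      simp only [hχ]
      rw [hmon2 z hz, hmon1 z hz]; ring
    rw [this, integral_sub iA (iB.const_mul m), integral_const_mul]
    rfl
  have e3 : ∫ z in K, χ z ^ 2 * ‖mon γ z‖ ^ 2 = A - m * B - m * (B - m * W) := by
    have : ∫ z in K, χ z ^ 2 * ‖mon γ z‖ ^ 2 = ∫ z in K, ((‖mon (α + β) z‖ ^ 2 -
        m * ‖mon α z‖ ^ 2) - m * (‖mon α z‖ ^ 2 - m * ‖mon γ z‖ ^ 2)) := by
      apply setIntegral_congr_fun hKm
      intro z hz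
      simp only [hχ]
      rw [hmon2 z hz, hmon1 z hz]; ring
    have i1 : IntegrableOn (fun z => ‖mon (α + β) z‖ ^ 2 - m * ‖mon α z‖ ^ 2) K :=
      iA.sub (iB.const_mul m)
    have i2 : IntegrableOn (fun z => ‖mon α z‖ ^ 2 - m * ‖mon γ z‖ ^ 2) K :=
      iB.sub (iW.const_mul m)
    rw [this, integral_sub i1 (i2.const_mul m), integral_const_mul,
      integral_sub iA (iB.const_mul m), integral_sub iB (iW.const_mul m),
      integral_const_mul, integral_const_mul]
    rfl
  have hmW : m * (B - m * W) = 0 := by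
    rw [hm]
    split_ifs with h
    · by_cases hW0 : W = 0
      · rw [hW0]; simp
      · field_simp; try ring
    · simp
  have h0 : (∫ z in K, χ z * ‖mon γ z‖ ^ 2 = 0) ∨ ¬ Good Ω γ := by
    by_cases hg : Good Ω γ
    · left
      rw [e1, hm, if_pos hg]
      by_cases hW0 : W = 0
      · have hB0 : B = 0 := IK_zero_of_zero hb (hW ▸ hW0) α
        rw [hW0, hB0]; simp
      · field_simp; ring
    · exact Or.inr hg
  have hc1 : ContinuousOn (fun z => (χ z : ℂ) * mon γ z) K :=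
    (Complex.continuous_ofReal.comp_continuousOn hχc).mul (mon_contOn (Ω := Ω) γ N)
  have hm1 := memLp_ind hb hc1
  have hperp := perp hb hR hne hχc hχi hm1 h0
  have h1 := core_inner hb hf hdense hT hc1 hm1 hperp (eL hR.isOpen hα) (eL_coe hR.isOpen hα)
  have h2 := avg_identity hb hR.inv hf hc N (χ := fun z => ((χ z * ‖mon γ z‖ ^ 2 : ℝ) : ℂ))
    (Complex.continuous_ofReal.comp_continuousOn (hχc.mul ((mon_contOn (Ω := Ω) γ N).norm.pow 2)))
    (fun z hz x => by
      rw [hχi z hz, mon_rot, norm_mul, mFourier_norm_apply, one_mul])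
  have h3 : ∫ z in K, conj ((χ z : ℂ) * mon γ z) * (conj (f z) * mon α z) =
      conj (∫ z in K, ((χ z * ‖mon γ z‖ ^ 2 : ℝ) : ℂ) * (conj (mon β z) * f z)) := by
    rw [← integral_conj]
    apply setIntegral_congr_fun hKm
    intro z hz
    have e4 : mon α z = mon β z * mon γ z := by
      rw [← mon_add (kk_ne hz), hγ]; congr 1; abel
    have e5 : ((‖mon γ z‖ ^ 2 : ℝ) : ℂ) = conj (mon γ z) * mon γ z := by
      rw [Complex.conj_mul']; push_cast; rfl
    simp only [map_mul, Complex.conj_conj, Complex.conj_ofReal]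
    rw [e4, Complex.ofReal_mul, e5]
    ring
  have h4 : ∫ z in K, ((χ z * ‖mon γ z‖ ^ 2 : ℝ) : ℂ) * ((‖mon β z‖ ^ 2 : ℝ) : ℂ) =
      ((A - m * B : ℝ) : ℂ) := by
    rw [← e2, ← integral_complex_ofReal]
    apply setIntegral_congr_fun hKm
    intro z hz
    simp only
    rw [hmon1 z hz]; push_cast; ring
  rw [h3, h2, h4] at h1
  have h5 : ‖hm1.toLp _‖ ^ 2 = A - m * B := by
    rw [L2_norm_sq _ hm1.coeFn_toLp]
    have : ∫ z in K, χ z ^ 2 * ‖mon γ z‖ ^ 2 = A - m * B := by rw [e3, hmW, sub_zero]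
    rw [← this, ← setInt_ind]
    apply integral_congr_ae
    filter_upwards with z
    by_cases hz : z ∈ kk Ω N
    · rw [indicator_of_mem hz, indicator_of_mem hz, norm_mul, mul_pow, Complex.norm_real,
        Real.norm_eq_abs, sq_abs]
    · rw [indicator_of_notMem hz, indicator_of_notMem hz]; simp
  have h6 := norm_inner_le_norm (𝕜 := ℂ) (hm1.toLp _) (T (eL hR.isOpen hα))
  set x := ‖hm1.toLp _‖ with hx
  have hx0 : 0 ≤ x := norm_nonneg _
  rw [h1, RCLike.norm_conj, norm_mul, Complex.norm_real, ← h5,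
    Real.norm_of_nonneg (by positivity)] at h6
  rw [← h5]
  rcases eq_or_lt_of_le hx0 with h7 | h7
  · rw [← h7]; simp
  · have h8 : ‖c‖ * x ≤ ‖T (eL hR.isOpen hα)‖ := by
      have : (‖c‖ * x) * x ≤ ‖T (eL hR.isOpen hα)‖ * x := by nlinarith
      exact le_of_mul_le_mul_right this h7
    calc ‖c‖ ^ 2 * x ^ 2 = (‖c‖ * x) ^ 2 := by ring
      _ ≤ _ := by gcongr

/-- the index set is invariant under addition of `β` -/
lemma good_add {α : Fin n → ℤ} (hα : Good Ω α) : Good Ω (α + β) := by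
  classical
  have hΩ := hR.isOpen
  have hcn : 0 < ‖c‖ := norm_pos_iff.2 hc0
  set S := ‖T (eL hR.isOpen hα)‖ ^ 2 with hS
  -- bound for the subtracted terms
  obtain ⟨D, hD⟩ : ∃ D : ℝ, ∀ᶠ N in atTop,
      (if Good Ω (α - β) then IK Ω N α ^ 2 / IK Ω N (α - β) else 0) ≤ D := by
    by_cases hg : Good Ω (α - β)
    · refine ⟨CC Ω α ^ 2 / (CC Ω (α - β) / 2), ?_⟩
      have hpos := CC_pos hR hg
      have h1 := (IK_tendsto hΩ hne hg).eventually (lt_mem_nhds (half_lt_self hpos))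
      filter_upwards [h1] with N hN
      rw [if_pos hg]
      have h2 := IK_le (fun N z hz => kk_sub hz) hα N
      have h3 := IK_nonneg (Ω := Ω) N α
      gcongr
    · refine ⟨0, Eventually.of_forall fun N => ?_⟩
      rw [if_neg hg]
  have hbound : ∀ᶠ N in atTop, IK Ω N (α + β) ≤ S / ‖c‖ ^ 2 + D := by
    filter_upwards [hD] with N hN
    have h1 := ineq_K hb hR hne hf hdense hT hc0 hc hα N
    have h2 : IK Ω N (α + β) -
        (if Good Ω (α - β) then IK Ω N α ^ 2 / IK Ω N (α - β) else 0) ≤ S / ‖c‖ ^ 2 := by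
      rw [le_div_iff₀ (by positivity), mul_comm]; exact h1
    linarith
  have hint : Integrable (fun z => ‖mon (α + β) z‖ ^ 2) (volume.restrict Ω) := by
    apply (kk_aecover hΩ hne).integrable_of_integral_norm_bounded (S / ‖c‖ ^ 2 + D)
    · intro N
      rw [IntegrableOn, Measure.restrict_restrict (kk_isClosed Ω N).measurableSet,
        inter_eq_left.2 fun z hz => kk_sub hz]
      exact IK_integrable hb N (α + β)
    · filter_upwards [hbound] with N hN
      rw [Measure.restrict_restrict (kk_isClosed Ω N).measurableSet,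
        inter_eq_left.2 fun z hz => kk_sub hz]
      refine le_trans (le_of_eq ?_) hN
      apply integral_congr_ae
      filter_upwards with z
      simp
  refine ⟨?_, ?_⟩
  · rw [memLp_two_iff_integrable_sq_norm]
    · exact hint
    · apply (kk_aecover hΩ hne).aestronglyMeasurable
      intro N
      rw [Measure.restrict_restrict (kk_isClosed Ω N).measurableSet,
        inter_eq_left.2 fun z hz => kk_sub hz]
      exact (mon_contOn (Ω := Ω) (α + β) N).aestronglyMeasurable (kk_isClosed Ω N).measurableSet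
  · obtain ⟨h, hh, hh2⟩ := hα.2
    refine ⟨fun z => h z * (c⁻¹ * avg f β z), hh.mul
      ((avg_differentiableOn hΩ hR.inv hf β).const_mul _), ?_⟩
    intro z hz hz'
    change mon (α + β) z = h z * (c⁻¹ * avg f β z)
    rw [hc z hz hz', ← hh2 z hz hz', mon_add hz']
    field_simp

open scoped Classical in
/-- **main inequality** -/
lemma main_ineq {α : Fin n → ℤ} (hα : Good Ω α) :
    ‖c‖ ^ 2 * (CC Ω (α + β) - if Good Ω (α - β) then CC Ω α ^ 2 / CC Ω (α - β) else 0) ≤
      ‖T (eL hR.isOpen hα)‖ ^ 2 := by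
  have hΩ := hR.isOpen
  have hgood := good_add hb hR hne hf hdense hT hc0 hc hα
  have hlim : Tendsto (fun N => ‖c‖ ^ 2 * (IK Ω N (α + β) -
      if Good Ω (α - β) then IK Ω N α ^ 2 / IK Ω N (α - β) else 0)) atTop
      (𝓝 (‖c‖ ^ 2 * (CC Ω (α + β) -
        if Good Ω (α - β) then CC Ω α ^ 2 / CC Ω (α - β) else 0))) := by
    apply Tendsto.const_mul
    apply (IK_tendsto hΩ hne hgood).sub
    by_cases hg : Good Ω (α - β)
    · simp only [if_pos hg]
      exact ((IK_tendsto hΩ hne hα).pow 2).div (IK_tendsto hΩ hne hg) (CC_pos hR hg).ne'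
    · simp only [if_neg hg]
      exact tendsto_const_nhds
  exact le_of_tendsto hlim (Eventually.of_forall fun N =>
    ineq_K hb hR hne hf hdense hT hc0 hc hα N)

end main

end Pool.Agent.H33R3.HS
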