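import Mathlib
import Pool.Agent.H33R3.HSCore3
import Pool.Agent.H33R3.HSHilbert

set_option autoImplicit false

/-!
# Conclusion: no nonzero Hilbert-Schmidt Hankel operators
-/

namespace Pool.Agent.H33R3.HS

open MeasureTheory Filter Metric Set Topology UnitAddTorus
open scoped ComplexConjugate ENNReal

variable {n : ℕ} {Ω : Set (Fin n → ℂ)}

/-- nonnegative exponents -/
lemma good_nonneg (hb : Bornology.IsBounded Ω) (hΩ : IsOpen Ω) {α : Fin n → ℤ}
    (h : ∀ j, 0 ≤ α j) : Good Ω α := by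
  have hd : ∀ z, DifferentiableAt ℂ (mon α) z := fun z => mon_differentiableAt fun j => Or.inr (h j)
  have := finite_restrict hb
  refine ⟨?_, mon α, fun z _ => (hd z).differentiableWithinAt, fun _ _ _ => rfl⟩
  have hc : Continuous (mon α) := continuous_iff_continuousAt.2 fun z => (hd z).continuousAt
  obtain ⟨R, hR⟩ := hb.subset_closedBall 0
  obtain ⟨C, hC⟩ := (isCompact_closedBall (0 : Fin n → ℂ) R).exists_bound_of_continuousOn
    hc.continuousOn
  apply MemLp.of_bound hc.aestronglyMeasurable C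
  filter_upwards [ae_restrict_mem hΩ.measurableSet] with z hz using hC z (hR hz)

/-- some torus element has nontrivial character value -/
lemma exists_mFourier_ne {δ : Fin n → ℤ} (h : δ ≠ 0) : ∃ x : Tor n, mFourier δ x ≠ 1 := by
  obtain ⟨j, hj⟩ : ∃ j, δ j ≠ 0 := by
    by_contra hcon
    push Not at hcon
    exact h (funext hcon)
  by_contra hcon
  push Not at hcon
  have h1 := hcon (Pi.single j (((1 / (2 * (δ j : ℝ)) : ℝ)) : UnitAddCircle))
  simp only [mFourier, ContinuousMap.coe_mk] at h1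
  rw [Finset.prod_eq_single j] at h1
  · rw [Pi.single_eq_same, fourier_coe_apply] at h1
    have h2 : (2 * (Real.pi : ℂ) * Complex.I * (δ j : ℂ) * ((1 / (2 * (δ j : ℝ)) : ℝ) : ℂ) /
        ((1 : ℝ) : ℂ)) = Real.pi * Complex.I := by
      have : (δ j : ℂ) ≠ 0 := by exact_mod_cast hj
      push_cast
      field_simp
    rw [h2, Complex.exp_pi_mul_I] at h1
    norm_num at h1
  · intro k _ hk
    rw [Pi.single_eq_of_ne hk]
    simp
  · simp

lemma eL_orth (hR : IsReinhardtDomain Ω) {α α' : Fin n → ℤ} (h : Good Ω α) (h' : Good Ω α')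
    (hne : α ≠ α') : inner ℂ (eL hR.isOpen h) (eL hR.isOpen h') = 0 := by
  have h0 : inner ℂ (eL hR.isOpen h) (eL hR.isOpen h') =
      inner ℂ ((eL hR.isOpen h : bergman Ω) : L2 Ω) ((eL hR.isOpen h' : bergman Ω) : L2 Ω) := rfl
  rw [h0, L2_inner _ _ (eL_coe hR.isOpen h) (eL_coe hR.isOpen h')]
  set F : (Fin n → ℂ) → ℂ := fun w => conj (mon α w) * mon α' w with hF
  have hI := hR.inv
  have hm := hR.isOpen.measurableSet
  have hrot : ∀ (x : Tor n) z, F (rot x z) = mFourier (α' - α) x * F z := by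
    intro x z
    simp only [hF]
    rw [mon_rot, mon_rot, map_mul, ← mFourier_neg, sub_eq_add_neg, mFourier_add]
    ring
  have hinv : ∀ x : Tor n, ∫ z in Ω, F (rot x z) = ∫ z in Ω, F z := by
    intro x
    have hmp := measurePreserving_rot x
    have hemb : MeasurableEmbedding (rot x) := by
      apply (continuous_rot_right x).measurableEmbedding
      intro a b hab
      have := congrArg (rot (-x)) hab
      simpa [rot_add', rot_zero] using this
    have h1 := hmp.setIntegral_preimage_emb hemb F Ω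
    have h2 : rot x ⁻¹' Ω = Ω := by
      ext z
      constructor
      · intro hz
        have := hI _ hz (-x)
        rwa [rot_add', neg_add_cancel, rot_zero] at this
      · intro hz
        exact hI z hz x
    rw [h2] at h1
    exact h1
  obtain ⟨x, hx⟩ := exists_mFourier_ne (δ := α' - α) (sub_ne_zero.2 hne.symm)
  have h3 := hinv x
  simp_rw [hrot] at h3
  rw [integral_const_mul] at h3
  have h4 : (mFourier (α' - α) x - 1) * ∫ z in Ω, F z = 0 := by rw [sub_mul, h3]; ring
  exact (mul_eq_zero.1 h4).resolve_left (sub_ne_zero.2 hx)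

lemma eL_norm_sq (hΩ : IsOpen Ω) {α : Fin n → ℤ} (h : Good Ω α) :
    ‖eL hΩ h‖ ^ 2 = CC Ω α := by
  have h0 : ‖eL hΩ h‖ = ‖((eL hΩ h : bergman Ω) : L2 Ω)‖ := rfl
  rw [h0, L2_norm_sq _ (eL_coe hΩ h)]
  rfl

/-- growth of the norms along a direction -/
lemma growth (hR : IsReinhardtDomain Ω) {a δ : Fin n → ℤ} (hg : ∀ k : ℕ, Good Ω (a + k • δ))
    {s s' : ℝ} (hs : 0 < s) (hss : s < s') {z₀ : Fin n → ℂ} (hz₀ : z₀ ∈ Ω)
    (hz₀' : ∀ j, z₀ j ≠ 0) (hq : s' < ‖mon δ z₀‖ ^ 2) :
    ∃ k : ℕ, s * CC Ω (a + k • δ) < CC Ω (a + (k + 1) • δ) := by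
  by_contra hcon
  push Not at hcon
  have hup : ∀ k : ℕ, CC Ω (a + k • δ) ≤ s ^ k * CC Ω a := by
    intro k
    induction k with
    | zero => simp
    | succ k ih =>
      calc CC Ω (a + (k + 1) • δ) ≤ s * CC Ω (a + k • δ) := hcon k
        _ ≤ s * (s ^ k * CC Ω a) := by gcongr
        _ = s ^ (k + 1) * CC Ω a := by ring
  set V : Set (Fin n → ℂ) := {z | (z ∈ Ω ∧ ∀ j, z j ≠ 0) ∧ s' < ‖mon δ z‖ ^ 2} with hV
  have hVo : IsOpen V := by
    have hc : ContinuousOn (fun z => ‖mon δ z‖ ^ 2) (Ω ∩ {z : Fin n → ℂ | ∀ j, z j ≠ 0}) :=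
      ContinuousOn.pow (ContinuousOn.norm fun z hz =>
        (mon_differentiableAt fun j => Or.inl (hz.2 j)).continuousAt.continuousWithinAt) 2
    exact hc.isOpen_inter_preimage (isOpen_star hR.isOpen) isOpen_Ioi
  have hga : Good Ω a := by simpa using hg 0
  have hia : IntegrableOn (fun z => ‖mon a z‖ ^ 2) Ω := good_integrable hga
  have hVΩ : V ⊆ Ω := fun z hz => hz.1.1
  set mV : ℝ := ∫ z in V, ‖mon a z‖ ^ 2 with hmV
  have hmVpos : 0 < mV := by
    rw [hmV, integral_pos_iff_support_of_nonneg (fun _ => by positivity) (hia.mono_set hVΩ)]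
    have h1 : 0 < (volume.restrict V) univ := by
      rw [Measure.restrict_apply_univ]
      exact hVo.measure_pos _ ⟨z₀, ⟨hz₀, hz₀'⟩, hq⟩
    refine lt_of_lt_of_le h1 (measure_mono_ae ?_)
    filter_upwards [ae_restrict_mem hVo.measurableSet] with z hz _
    have : mon a z ≠ 0 := mon_ne_zero hz.1.2
    change ‖mon a z‖ ^ 2 ≠ 0
    positivity
  have hmonk : ∀ (k : ℕ) (z : Fin n → ℂ), (∀ j, z j ≠ 0) →
      ‖mon (a + k • δ) z‖ ^ 2 = (‖mon δ z‖ ^ 2) ^ k * ‖mon a z‖ ^ 2 := by
    intro k z hz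
    induction k with
    | zero => simp
    | succ k ih =>
      rw [succ_nsmul, ← add_assoc, mon_add hz, norm_mul, mul_pow, ih]; ring
  have hlow : ∀ k : ℕ, s' ^ k * mV ≤ CC Ω (a + k • δ) := by
    intro k
    have hs' : 0 < s' := hs.trans hss
    calc s' ^ k * mV = ∫ z in V, s' ^ k * ‖mon a z‖ ^ 2 := by rw [integral_const_mul]
      _ ≤ ∫ z in V, ‖mon (a + k • δ) z‖ ^ 2 := by
          apply setIntegral_mono_on ((hia.mono_set hVΩ).const_mul _)
            ((good_integrable (hg k)).mono_set hVΩ) hVo.measurableSet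
          intro z hz
          rw [hmonk k z hz.1.2]
          have := hz.2.le
          gcongr
      _ ≤ CC Ω (a + k • δ) := by
          apply setIntegral_mono_set (good_integrable (hg k))
          · filter_upwards with z; positivity
          · exact hVΩ.eventuallyLE
  have hC : 0 < CC Ω a := CC_pos hR hga
  have h1 : 1 < s' / s := (one_lt_div hs).2 hss
  obtain ⟨k, hk⟩ := pow_unbounded_of_one_lt (CC Ω a / mV) h1
  have h2 := (hlow k).trans (hup k)
  rw [div_pow, div_lt_div_iff₀ hmVpos (by positivity)] at hk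
  nlinarith

/-- values of the modulus of a nonconstant monomial -/
lemma two_values (hR : IsReinhardtDomain Ω) {β : Fin n → ℤ} (hβ : β ≠ 0) :
    ∃ z₁ ∈ Ω, ∃ z₂ ∈ Ω, (∀ j, z₁ j ≠ 0) ∧ (∀ j, z₂ j ≠ 0) ∧ ‖mon β z₁‖ ^ 2 < ‖mon β z₂‖ ^ 2 := by
  obtain ⟨i, hi⟩ : ∃ i, β i ≠ 0 := by
    by_contra hcon
    push Not at hcon
    exact hβ (funext hcon)
  obtain ⟨z₀, hz₀, hz₀'⟩ := star_nonempty hR.isOpen hR.isConnected.nonempty
  set p : ℝ → (Fin n → ℂ) := fun t => Function.update z₀ i ((t : ℂ) * z₀ i) with hp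
  have hpc : Continuous p := by
    apply continuous_const.update
    fun_prop
  have hp1 : p 1 = z₀ := by simp [hp]
  have hev : ∀ᶠ t in 𝓝 (1 : ℝ), p t ∈ Ω := by
    apply hpc.continuousAt.eventually
    rw [hp1]
    exact hR.isOpen.mem_nhds hz₀
  obtain ⟨ε, hε, hball⟩ := Metric.eventually_nhds_iff.1 hev
  set t : ℝ := 1 + ε / 2 with ht
  have htΩ : p t ∈ Ω := hball (by
    rw [ht, Real.dist_eq, add_sub_cancel_left, abs_of_pos (half_pos hε)]; linarith)
  have ht1 : 1 < t := by linarith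
  have ht0 : 0 < t := by linarith
  have hpt : ∀ j, p t j ≠ 0 := by
    intro j
    by_cases hj : j = i
    · subst hj
      simp only [hp, Function.update_self]
      exact mul_ne_zero (by exact_mod_cast ht0.ne') (hz₀' j)
    · simp only [hp, Function.update_of_ne hj]
      exact hz₀' j
  have hmon : ‖mon β (p t)‖ = t ^ β i * ‖mon β z₀‖ := by
    have h1 : mon β (p t) = (t : ℂ) ^ β i * mon β z₀ := by
      simp only [mon, hp]
      rw [← Finset.mul_prod_erase Finset.univ _ (Finset.mem_univ i),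
        ← Finset.mul_prod_erase Finset.univ (fun j => z₀ j ^ β j) (Finset.mem_univ i),
        Function.update_self, mul_zpow, mul_assoc]
      congr 2
      apply Finset.prod_congr rfl
      intro j hj
      rw [Function.update_of_ne (Finset.ne_of_mem_erase hj)]
    rw [h1, norm_mul, norm_zpow, Complex.norm_real, Real.norm_of_nonneg ht0.le]
  have hpos : 0 < ‖mon β z₀‖ := norm_pos_iff.2 (mon_ne_zero hz₀')
  have hne : ‖mon β (p t)‖ ≠ ‖mon β z₀‖ := by
    rw [hmon]
    intro h
    have h2 : t ^ β i = 1 := by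
      have : t ^ β i * ‖mon β z₀‖ = 1 * ‖mon β z₀‖ := by rw [h, one_mul]
      exact mul_right_cancel₀ hpos.ne' this
    rcases lt_or_gt_of_ne hi with h3 | h3
    · have := zpow_lt_one_of_neg₀ ht1 h3
      linarith
    · have := one_lt_zpow₀ ht1 h3
      linarith
  rcases lt_or_gt_of_ne hne with h | h
  · exact ⟨p t, htΩ, z₀, hz₀, hpt, hz₀', by gcongr⟩
  · exact ⟨z₀, hz₀, p t, htΩ, hz₀', hpt, by gcongr⟩

open scoped Classical in
/-- ratio of consecutive squared norms -/
noncomputable def rho (Ω : Set (Fin n → ℂ)) (β α : Fin n → ℤ) : ℝ :=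
  if Good Ω (α - β) then CC Ω α / CC Ω (α - β) else 0

open scoped Classical in
/-- normalized monomials -/
noncomputable def vv (hΩ : IsOpen Ω) (α : Fin n → ℤ) : bergman Ω :=
  if h : Good Ω α then ((‖eL hΩ h‖⁻¹ : ℝ) : ℂ) • eL hΩ h else 0

lemma eL_norm_pos (hR : IsReinhardtDomain Ω) {α : Fin n → ℤ} (h : Good Ω α) :
    0 < ‖eL hR.isOpen h‖ := by
  have h1 := eL_norm_sq hR.isOpen h
  have h2 := CC_pos hR h
  have h3 : ‖eL hR.isOpen h‖ ≠ 0 := by
    intro h4
    rw [h4] at h1
    simp at h1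
    linarith
  exact lt_of_le_of_ne (norm_nonneg _) h3.symm

lemma vv_norm (hR : IsReinhardtDomain Ω) {α : Fin n → ℤ} (h : Good Ω α) :
    ‖vv hR.isOpen α‖ = 1 := by
  rw [vv, dif_pos h, norm_smul, Complex.norm_real, Real.norm_of_nonneg (by positivity)]
  exact inv_mul_cancel₀ (eL_norm_pos hR h).ne'

lemma vv_orth (hR : IsReinhardtDomain Ω) {α α' : Fin n → ℤ} (hne : α ≠ α') :
    inner ℂ (vv hR.isOpen α) (vv hR.isOpen α') = 0 := by
  unfold vv
  split_ifs with h h'
  · have h1 : ∀ (a b : ℂ) (x y : bergman Ω), inner ℂ x y = 0 → inner ℂ (a • x) (b • y) = 0 := by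
      intro a b x y hxy
      have e1 : inner ℂ (a • x) (b • y) = conj a * inner ℂ x (b • y) :=
        inner_smul_left (𝕜 := ℂ) x (b • y) a
      have e2 : inner ℂ x (b • y) = b * inner ℂ x y := inner_smul_right (𝕜 := ℂ) x y b
      rw [e1, e2, hxy]; simp
    exact h1 _ _ _ _ (eL_orth hR h h' hne)
  · simp
  · simp
  · simp

section fin

variable (hb : Bornology.IsBounded Ω) (hR : IsReinhardtDomain Ω) (hne : (Ωᶜ).Nonempty)
  {f : (Fin n → ℂ) → ℂ} (hf : DifferentiableOn ℂ f Ω)
  (hdense : Dense (hankelDomain Ω f)) {T : bergman Ω →L[ℂ] L2 Ω}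
  (hT : ∀ g ∈ hankelDomain Ω f, T g = hankel Ω f g)
  {β : Fin n → ℤ} {c : ℂ} (hc0 : c ≠ 0)
  (hc : ∀ z ∈ Ω, (∀ j, z j ≠ 0) → avg f β z = c * mon β z)
include hb hR hne hf hdense hT hc0 hc

lemma vv_ineq {α : Fin n → ℤ} (hα : Good Ω α) :
    ‖c‖ ^ 2 * (rho Ω β (α + β) - rho Ω β α) ≤ ‖T (vv hR.isOpen α)‖ ^ 2 := by
  classical
  have h1 := main_ineq hb hR hne hf hdense hT hc0 hc hα
  have h2 := CC_pos hR hα
  have h3 := eL_norm_pos hR hα
  have h4 : ‖T (vv hR.isOpen α)‖ ^ 2 = ‖T (eL hR.isOpen hα)‖ ^ 2 / CC Ω α := by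
    rw [vv, dif_pos hα, map_smul, norm_smul, Complex.norm_real,
      Real.norm_of_nonneg (by positivity), mul_pow, inv_pow, eL_norm_sq, div_eq_inv_mul]
  rw [h4, le_div_iff₀ h2]
  refine le_trans (le_of_eq ?_) h1
  have h5 : rho Ω β (α + β) = CC Ω (α + β) / CC Ω α := by
    unfold rho
    rw [add_sub_cancel_right, if_pos hα]
  rw [h5, rho]
  split_ifs with h6
  · have := CC_pos hR h6
    field_simp
  · field_simp
    ring

lemma good_add_nsmul {α : Fin n → ℤ} (hα : Good Ω α) (k : ℕ) : Good Ω (α + k • β) := by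
  induction k with
  | zero => simpa using hα
  | succ k ih =>
    rw [succ_nsmul, ← add_assoc]
    exact good_add hb hR hne hf hdense hT hc0 hc ih

/-- telescoping along a line -/
lemma line_sum {α : Fin n → ℤ} (hα : Good Ω α) (N : ℕ) :
    ‖c‖ ^ 2 * (rho Ω β (α + N • β) - rho Ω β α) ≤
      ∑ k ∈ Finset.range N, ‖T (vv hR.isOpen (α + k • β))‖ ^ 2 := by
  induction N with
  | zero => simp
  | succ N ih =>
    rw [Finset.sum_range_succ]
    have := vv_ineq hb hR hne hf hdense hT hc0 hc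
      (good_add_nsmul hb hR hne hf hdense hT hc0 hc hα N)
    have h2 : α + (N + 1) • β = α + N • β + β := by rw [succ_nsmul, ← add_assoc]
    rw [h2]
    linarith

/-- every line contains a segment carrying a fixed amount of mass -/
lemma exists_segment {a : Fin n → ℤ} (ha : Good Ω a) {s t : ℝ} (hs : 0 < s) (ht : 0 < t)
    {z₁ z₂ : Fin n → ℂ} (hz₁ : z₁ ∈ Ω) (hz₂ : z₂ ∈ Ω) (hz₁' : ∀ j, z₁ j ≠ 0)
    (hz₂' : ∀ j, z₂ j ≠ 0) (h1 : ‖mon β z₁‖ ^ 2 < s) (h2 : t < ‖mon β z₂‖ ^ 2) :
    ∃ (p : ℕ) (N : ℕ), Good Ω (a - p • β) ∧ rho Ω β (a - p • β) < s ∧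
      t < rho Ω β (a - p • β + N • β) := by
  classical
  -- upper end
  obtain ⟨t', ht1, ht2⟩ := exists_between h2
  obtain ⟨k, hk⟩ := growth hR (a := a) (δ := β)
    (good_add_nsmul hb hR hne hf hdense hT hc0 hc ha) ht ht1 hz₂ hz₂' ht2
  have hgk := good_add_nsmul hb hR hne hf hdense hT hc0 hc ha k
  have hup : t < rho Ω β (a + (k + 1) • β) := by
    have e1 : a + (k + 1) • β - β = a + k • β := by rw [succ_nsmul]; abel
    unfold rho
    rw [e1, if_pos hgk, lt_div_iff₀ (CC_pos hR hgk)]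
    exact hk
  -- lower end
  have hlow : ∃ p : ℕ, Good Ω (a - p • β) ∧ rho Ω β (a - p • β) < s := by
    by_cases hall : ∀ p : ℕ, Good Ω (a - p • β)
    · have hall' : ∀ p : ℕ, Good Ω (a + p • (-β)) := by
        intro p
        have := hall p
        rwa [sub_eq_add_neg, ← smul_neg] at this
      have hpos : 0 < ‖mon β z₁‖ ^ 2 := by
        have := norm_pos_iff.2 (mon_ne_zero (γ := β) hz₁')
        positivity
      have hneg : ‖mon (-β) z₁‖ ^ 2 = (‖mon β z₁‖ ^ 2)⁻¹ := by
        have : mon (-β) z₁ * mon β z₁ = 1 := by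
          rw [← mon_add hz₁']
          simp [mon]
        apply eq_inv_of_mul_eq_one_left
        rw [← mul_pow, ← norm_mul, this]
        simp
      have h3 : s⁻¹ < (‖mon β z₁‖ ^ 2)⁻¹ := by
        rw [inv_lt_inv₀ hs hpos]; exact h1
      obtain ⟨s', hs1, hs2⟩ := exists_between h3
      obtain ⟨p, hp⟩ := growth hR (a := a) (δ := -β) hall' (inv_pos.2 hs) hs1 hz₁ hz₁'
        (hneg ▸ hs2)
      refine ⟨p, hall p, ?_⟩
      have e1 : a - p • β - β = a + (p + 1) • (-β) := by rw [succ_nsmul, smul_neg]; abel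
      have e2 : a - p • β = a + p • (-β) := by rw [smul_neg]; abel
      have e3 : Good Ω (a + (p + 1) • (-β)) := hall' (p + 1)
      unfold rho
      rw [e1, if_pos e3, e2, div_lt_iff₀ (CC_pos hR e3)]
      rw [inv_mul_lt_iff₀ hs] at hp
      exact hp
    · push Not at hall
      have hfind := Nat.find_spec hall
      set m := Nat.find hall with hm
      have hm0 : m ≠ 0 := by
        intro h0
        rw [h0] at hfind
        simp at hfind
        exact hfind ha
      obtain ⟨q, hq⟩ := Nat.exists_eq_succ_of_ne_zero hm0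
      have hq2 : Good Ω (a - q • β) := by
        by_contra h5
        have : m ≤ q := Nat.find_min' hall h5
        omega
      refine ⟨q, hq2, ?_⟩
      have e1 : a - q • β - β = a - m • β := by rw [hq, Nat.succ_eq_add_one, succ_nsmul]; abel
      unfold rho
      rw [e1, if_neg hfind]
      exact hs
  obtain ⟨p, hp1, hp2⟩ := hlow
  refine ⟨p, p + (k + 1), hp1, hp2, ?_⟩
  have e1 : a - p • β + (p + (k + 1)) • β = a + (k + 1) • β := by
    rw [add_smul]; abel
  rw [e1]
  exact hup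

/-- the Hilbert-Schmidt sum diverges -/
lemma not_hs (hn : 2 ≤ n) (hβ : β ≠ 0) {ι : Type} (e : HilbertBasis ι ℂ (bergman Ω))
    (hs : Summable fun i => ‖T (e i)‖ ^ 2) : False := by
  classical
  obtain ⟨i, hi⟩ : ∃ i, β i ≠ 0 := by
    by_contra hcon
    push Not at hcon
    exact hβ (funext hcon)
  have : Nontrivial (Fin n) := Fin.nontrivial_iff_two_le.2 hn
  obtain ⟨j, hji⟩ := exists_ne i
  obtain ⟨z₁, hz₁, z₂, hz₂, hz₁', hz₂', hlt⟩ := two_values hR hβ
  obtain ⟨s, hs1, hs2⟩ := exists_between hlt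
  obtain ⟨t, ht1, ht2⟩ := exists_between hs2
  have hs0 : 0 < s := lt_of_le_of_lt (by positivity) hs1
  have ht0 : 0 < t := hs0.trans ht1
  set a : ℕ → Fin n → ℤ := fun m => Pi.single j (m : ℤ) with ha
  have hga : ∀ m, Good Ω (a m) := by
    intro m
    apply good_nonneg hb hR.isOpen
    intro l
    simp only [ha]
    by_cases hl : l = j
    · subst hl; simp
    · rw [Pi.single_eq_of_ne hl]
  have hseg := fun m => exists_segment hb hR hne hf hdense hT hc0 hc (hga m) hs0 ht0 hz₁ hz₂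
    hz₁' hz₂' hs1 ht2
  choose p N hp1 hp2 hp3 using hseg
  set ε : ℝ := ‖c‖ ^ 2 * (t - s) with hε
  have hεpos : 0 < ε := by
    have := norm_pos_iff.2 hc0
    have : 0 < t - s := by linarith
    positivity
  set w : (Σ _ : ℕ, ℕ) → (Fin n → ℤ) := fun q => a q.1 - p q.1 • β + q.2 • β with hw
  have hwinj : Function.Injective w := by
    rintro ⟨m, k⟩ ⟨m', k'⟩ h
    simp only [hw] at h
    have h1 := congrFun h i
    simp only [ha, Pi.add_apply, Pi.sub_apply, Pi.smul_apply, Pi.single_eq_of_ne hji.symm] at h1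
    have h2 := congrFun h j
    simp only [ha, Pi.add_apply, Pi.sub_apply, Pi.smul_apply, Pi.single_eq_same] at h2
    simp only [nsmul_eq_mul] at h1 h2
    have h3 : ((k : ℤ) - p m - (k' - p m')) * β i = 0 := by linarith
    have h4 : (k : ℤ) - p m = k' - p m' := by
      have := (mul_eq_zero.1 h3).resolve_right hi
      linarith
    have h5 : (m : ℤ) = m' := by
      have h6 : ((k : ℤ) - p m) * β j = (k' - p m') * β j := by rw [h4]
      linarith
    have h7 : m = m' := by exact_mod_cast h5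
    subst h7
    have h8 : k = k' := by
      have : (k : ℤ) = k' := by linarith
      exact_mod_cast this
    subst h8
    rfl
  have hbound : ∀ M : ℕ, M * ε ≤ ∑' i, ‖T (e i)‖ ^ 2 := by
    intro M
    set S : Finset (Σ _ : ℕ, ℕ) := (Finset.range M).sigma fun m => Finset.range (N m) with hS
    have hgoodw : ∀ q : Σ _ : ℕ, ℕ, Good Ω (w q) := fun q =>
      good_add_nsmul hb hR hne hf hdense hT hc0 hc (hp1 q.1) q.2
    have h1 := hs_bound T e hs S (fun q => vv hR.isOpen (w q))
      (fun q _ => vv_norm hR (hgoodw q))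
      (fun q _ q' _ hqq => vv_orth hR fun h => hqq (hwinj h))
    rw [hS, Finset.sum_sigma] at h1
    refine le_trans ?_ h1
    have h2 : (M : ℝ) * ε = ∑ _m ∈ Finset.range M, ε := by simp
    rw [h2]
    apply Finset.sum_le_sum
    intro m _
    have h3 := line_sum hb hR hne hf hdense hT hc0 hc (hp1 m) (N m)
    refine le_trans ?_ h3
    have h4 : t - s ≤ rho Ω β (a m - p m • β + N m • β) - rho Ω β (a m - p m • β) := by
      have := hp2 m
      have := hp3 m
      linarith
    rw [hε]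
    gcongr
  obtain ⟨M, hM⟩ := exists_nat_gt ((∑' i, ‖T (e i)‖ ^ 2) / ε)
  rw [div_lt_iff₀ hεpos] at hM
  exact absurd (hbound M) (not_le.2 hM)

end fin

/-- if `f` is constant on `Ω` then the Hankel operator vanishes -/
lemma hankel_const (hΩ : IsOpen Ω) {f : (Fin n → ℂ) → ℂ} {c : ℂ} (hc : ∀ z ∈ Ω, f z = c)
    (g : bergman Ω) : hankel Ω f g = 0 := by
  unfold hankel
  split_ifs with h
  · have h1 : h.toLp _ ∈ bergman Ω := by
      have h2 : h.toLp _ = (conj c : ℂ) • (g : L2 Ω) := by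
        apply Lp.ext
        filter_upwards [h.coeFn_toLp, Lp.coeFn_smul (conj c : ℂ) (g : L2 Ω),
          ae_restrict_mem hΩ.measurableSet] with z h3 h4 h5
        rw [h3, h4, hc z h5]
        rfl
      rw [h2]
      exact (bergman Ω).smul_mem _ g.2
    rw [Submodule.starProjection_apply_eq_zero_iff]
    exact (bergman Ω).le_orthogonal_orthogonal h1
  · rfl

end Pool.Agent.H33R3.HS
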