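import Mathlib
import Pool.Agent.H33R3.HSDefs

set_option autoImplicit false

/-!
# Bergman spaces and Hankel operators with conjugate holomorphic symbols

The definitions used in the final statement (the same as in `HSDefs`, over named spaces).
-/

namespace Pool.Agent.H33R3.HSL

open MeasureTheory Set
open scoped ComplexConjugate ENNReal

variable {n : ℕ}

/-- Lebesgue measure on `Ω ⊆ ℂⁿ`. -/
noncomputable def leb (Ω : Set (Fin n → ℂ)) : Measure (Fin n → ℂ) := volume.restrict Ω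

/-- The space `L²(Ω)` of (classes of) square integrable functions `Ω → ℂ`. -/
def L2 (Ω : Set (Fin n → ℂ)) : Type := Lp ℂ 2 (leb Ω)

/-- the norm of `L²(Ω)` -/
noncomputable instance instNormL2 (Ω : Set (Fin n → ℂ)) : NormedAddCommGroup (L2 Ω) :=
  Lp.instNormedAddCommGroup

/-- the inner product of `L²(Ω)` -/
noncomputable instance instInnerL2 (Ω : Set (Fin n → ℂ)) : InnerProductSpace ℂ (L2 Ω) :=
  MeasureTheory.L2.innerProductSpace

instance instCompleteL2 (Ω : Set (Fin n → ℂ)) : CompleteSpace (L2 Ω) :=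
  inferInstanceAs (CompleteSpace (Lp ℂ 2 (leb Ω)))

/-- a representative (a function on `ℂⁿ`) of a class in `L²(Ω)` -/
noncomputable def rep {Ω : Set (Fin n → ℂ)} (u : L2 Ω) : (Fin n → ℂ) → ℂ :=
  AEEqFun.cast (Subtype.val u)

/-- the class in `L²(Ω)` of a square integrable function -/
noncomputable def cls {Ω : Set (Fin n → ℂ)} {u : (Fin n → ℂ) → ℂ} (h : MemLp u 2 (leb Ω)) : L2 Ω :=
  h.toLp u

/-- `u ∈ L²(Ω)` is (almost everywhere on `Ω` equal to) a function holomorphic on `Ω`. -/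
def IsHol {Ω : Set (Fin n → ℂ)} (u : L2 Ω) : Prop :=
  ∃ h : (Fin n → ℂ) → ℂ, DifferentiableOn ℂ h Ω ∧ rep u =ᵐ[leb Ω] h

theorem isHol_zero (Ω : Set (Fin n → ℂ)) : IsHol (0 : L2 Ω) := (HS.bergman Ω).zero_mem

theorem isHol_add {Ω : Set (Fin n → ℂ)} {a b : L2 Ω} (ha : IsHol a) (hb : IsHol b) :
    IsHol (a + b) := (HS.bergman Ω).add_mem ha hb

theorem isHol_smul {Ω : Set (Fin n → ℂ)} (c : ℂ) {a : L2 Ω} (ha : IsHol a) :
    IsHol (c • a) := (HS.bergman Ω).smul_mem c ha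

/-- The Bergman space `A²(Ω)`: the holomorphic elements of `L²(Ω)`. -/
def bergman (Ω : Set (Fin n → ℂ)) : Submodule ℂ (L2 Ω) where
  carrier := {u | IsHol u}
  zero_mem' := isHol_zero Ω
  add_mem' := isHol_add
  smul_mem' := isHol_smul

/-- The Bergman space `A²(Ω)` as a type. -/
def A2 (Ω : Set (Fin n → ℂ)) : Type := bergman Ω

/-- the norm of `A²(Ω)`, inherited from `L²(Ω)` -/
noncomputable instance instNormA2 (Ω : Set (Fin n → ℂ)) : NormedAddCommGroup (A2 Ω) :=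
  (bergman Ω).normedAddCommGroup

/-- the inner product of `A²(Ω)`, inherited from `L²(Ω)` -/
noncomputable instance instInnerA2 (Ω : Set (Fin n → ℂ)) : InnerProductSpace ℂ (A2 Ω) :=
  (bergman Ω).innerProductSpace

/-- a function representing an element of `A²(Ω)` -/
noncomputable def fn {Ω : Set (Fin n → ℂ)} (g : A2 Ω) : (Fin n → ℂ) → ℂ :=
  rep (Subtype.val g)

/-- the function `f̄ g` -/
noncomputable def mulConj {Ω : Set (Fin n → ℂ)} (f : (Fin n → ℂ) → ℂ) (g : A2 Ω) :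
    (Fin n → ℂ) → ℂ := fun z => conj (f z) * fn g z

/-- The domain `{g ∈ A²(Ω) : f̄ g ∈ L²(Ω)}` of the Hankel operator `H_{f̄}`. -/
def dom (Ω : Set (Fin n → ℂ)) (f : (Fin n → ℂ) → ℂ) : Set (A2 Ω) :=
  {g | MemLp (mulConj f g) 2 (leb Ω)}

/-- The operator `I - P` on `L²(Ω)`, where `P` is the orthogonal projection onto `A²(Ω)`: the
orthogonal projection onto the orthogonal complement of `A²(Ω)`. -/
noncomputable def compl (Ω : Set (Fin n → ℂ)) : L2 Ω → L2 Ω := (bergman Ω)ᗮ.starProjection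

open scoped Classical in
/-- The Hankel operator `H_{f̄} g = (I - P)(f̄ g)` on its domain (and `0` off it). -/
noncomputable def hankel (Ω : Set (Fin n → ℂ)) (f : (Fin n → ℂ) → ℂ) (g : A2 Ω) : L2 Ω :=
  if h : MemLp (mulConj f g) 2 (leb Ω) then compl Ω (cls h) else 0

/-- `T` is Hilbert-Schmidt: `∑ ‖T e_k‖² < ∞` for an orthonormal basis `(e_k)` of `A²(Ω)`. -/
def IsHS {Ω : Set (Fin n → ℂ)} (T : A2 Ω →L[ℂ] L2 Ω) : Prop :=
  ∃ (ι : Type) (e : HilbertBasis ι ℂ (A2 Ω)), Summable fun i => ‖T (e i)‖ ^ 2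

/-- `H_{f̄}` is Hilbert-Schmidt: its domain is dense in `A²(Ω)`, and it extends to a
Hilbert-Schmidt operator `A²(Ω) → L²(Ω)`. -/
def IsHilbertSchmidtHankel (Ω : Set (Fin n → ℂ)) (f : (Fin n → ℂ) → ℂ) : Prop :=
  Dense (dom Ω f) ∧ ∃ T : A2 Ω →L[ℂ] L2 Ω, (∀ g ∈ dom Ω f, T g = hankel Ω f g) ∧ IsHS T

end Pool.Agent.H33R3.HSL
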