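import Mathlib

set_option autoImplicit false

/-!
# Local normal form of a nonconstant holomorphic function, maximum principle on plane curves
-/

namespace Pool.Agent.H33R3

open Metric Set Filter Topology

/-- Local normal form: near a point `p`, a nonconstant entire function is `f p + u ^ k` in a
suitable holomorphic coordinate. -/
lemma exists_normalForm {f : ℂ → ℂ} (hf : Differentiable ℂ f) (hn : ∃ a b : ℂ, f a ≠ f b)
    (p : ℂ) :
    ∃ k : ℕ, k ≠ 0 ∧ ∃ χ : ℂ → ℂ, χ 0 = p ∧ (∀ᶠ u in 𝓝 (0 : ℂ), DifferentiableAt ℂ χ u) ∧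
      ∀ᶠ u in 𝓝 (0 : ℂ), f (χ u) = f p + u ^ k := by
  have hfa : AnalyticAt ℂ (fun z => f z - f p) p := (hf.sub_const (f p)).analyticAt p
  have hnot : ¬ ∀ᶠ z in 𝓝 p, f z - f p = 0 := by
    intro h
    obtain ⟨a, b, hab⟩ := hn
    have h1 : AnalyticOnNhd ℂ (fun z => f z - f p) univ := fun z _ =>
      (hf.sub_const (f p)).analyticAt z
    have h2 := h1.eqOn_of_preconnected_of_eventuallyEq (g := fun _ => (0 : ℂ))
      (fun z _ => analyticAt_const) isPreconnected_univ (mem_univ p) h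
    have ha := h2 (mem_univ a)
    have hb := h2 (mem_univ b)
    simp only at ha hb
    apply hab
    rw [sub_eq_zero.1 ha, sub_eq_zero.1 hb]
  obtain ⟨k, h, hh, hh0, hev⟩ := hfa.exists_eventuallyEq_pow_smul_nonzero_iff.2 hnot
  have hk : k ≠ 0 := by
    rintro rfl
    have := hev.self_of_nhds
    simp at this
    exact hh0 this.symm
  -- `k`-th root of `h`
  obtain ⟨η, hη⟩ := IsAlgClosed.exists_pow_nat_eq (h p) (Nat.pos_of_ne_zero hk)
  have hη0 : η ≠ 0 := by
    rintro rfl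
    rw [zero_pow hk] at hη
    exact hh0 hη.symm
  set κ : ℂ → ℂ := fun z => η * (h z / h p) ^ ((1 : ℂ) / k) with hκ
  have hκa : AnalyticAt ℂ κ p := by
    refine analyticAt_const.mul (AnalyticAt.cpow (hh.div analyticAt_const hh0) analyticAt_const ?_)
    rw [div_self hh0]
    exact Complex.one_mem_slitPlane
  have hκp : κ p = η := by simp [hκ, div_self hh0]
  have hκk : ∀ z, κ z ^ k = h z := by
    intro z
    simp only [hκ]
    rw [mul_pow, hη, ← Complex.cpow_nat_mul, mul_one_div_cancel (by exact_mod_cast hk),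
      Complex.cpow_one, mul_div_cancel₀ _ hh0]
  set α : ℂ → ℂ := fun z => (z - p) * κ z with hα
  have hαa : AnalyticAt ℂ α p := (analyticAt_id.sub analyticAt_const).mul hκa
  have hαd : HasDerivAt α η p := by
    have := ((hasDerivAt_id p).sub_const p).mul hκa.differentiableAt.hasDerivAt
    simp only [id_eq, sub_self, zero_mul, add_zero, one_mul, hκp] at this
    exact this
  have hα0 : α p = 0 := by simp [hα]
  have hcd : ContDiffAt ℂ 1 α p := hαa.contDiffAt
  have hfd : HasFDerivAt α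
      ((ContinuousLinearEquiv.unitsEquivAut ℂ (Units.mk0 η hη0) : ℂ ≃L[ℂ] ℂ) : ℂ →L[ℂ] ℂ) p := by
    have := hαd.hasFDerivAt
    convert! this using 1
  set χ := hcd.localInverse hfd one_ne_zero with hχ
  have hχc := hcd.to_localInverse hfd one_ne_zero
  have hχp : χ (α p) = p := hcd.localInverse_apply_image hfd one_ne_zero
  rw [hα0] at hχp hχc
  have hχdiff : ∀ᶠ u in 𝓝 (0 : ℂ), DifferentiableAt ℂ χ u := by
    filter_upwards [hχc.eventually (by simp)] with u hu
    exact hu.differentiableAt one_ne_zero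
  have hright : ∀ᶠ u in 𝓝 (0 : ℂ), α (χ u) = u := by
    have := (hcd.hasStrictFDerivAt' hfd one_ne_zero).eventually_right_inverse
    rw [hα0] at this
    exact this
  have hχt : Tendsto χ (𝓝 0) (𝓝 p) := by
    have h1 : ContinuousAt χ 0 := hχc.continuousAt
    rw [ContinuousAt, hχp] at h1
    exact h1
  refine ⟨k, hk, χ, hχp, hχdiff, ?_⟩
  filter_upwards [hright, hχt.eventually hev] with u h1 h2
  have h3 : α (χ u) ^ k = f (χ u) - f p := by
    simp only [hα]
    rw [mul_pow, hκk, h2, smul_eq_mul]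
  rw [h1] at h3
  rw [h3]; ring

/-- Through every point of the plane curve `f x + g y = c` there is a nonconstant holomorphic
parametrised piece of the curve. -/
lemma exists_param {f g : ℂ → ℂ} (hf : Differentiable ℂ f) (hnf : ∃ a b : ℂ, f a ≠ f b)
    (hg : Differentiable ℂ g) (hng : ∃ a b : ℂ, g a ≠ g b) (p q : ℂ) :
    ∃ γ₁ γ₂ : ℂ → ℂ, γ₁ 0 = p ∧ γ₂ 0 = q ∧ (∀ᶠ u in 𝓝 (0 : ℂ), DifferentiableAt ℂ γ₁ u) ∧
      (∀ᶠ u in 𝓝 (0 : ℂ), DifferentiableAt ℂ γ₂ u) ∧
      (∀ᶠ u in 𝓝 (0 : ℂ), f (γ₁ u) + g (γ₂ u) = f p + g q) ∧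
      ¬ (∀ᶠ u in 𝓝 (0 : ℂ), γ₁ u = p) := by
  obtain ⟨k, hk, χ₁, h10, h1d, h1f⟩ := exists_normalForm hf hnf p
  obtain ⟨l, hl, χ₂, h20, h2d, h2f⟩ := exists_normalForm hg hng q
  obtain ⟨ω, hω⟩ := IsAlgClosed.exists_pow_nat_eq (-1 : ℂ) (Nat.pos_of_ne_zero hl)
  have t1 : Tendsto (fun u : ℂ => u ^ l) (𝓝 0) (𝓝 0) := by
    have : Tendsto (fun u : ℂ => u ^ l) (𝓝 0) (𝓝 (0 ^ l)) := (continuous_pow l).tendsto 0
    rwa [zero_pow hl] at this
  have t2 : Tendsto (fun u : ℂ => ω * u ^ k) (𝓝 0) (𝓝 0) := by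
    have : Tendsto (fun u : ℂ => ω * u ^ k) (𝓝 0) (𝓝 (ω * 0 ^ k)) := by
      apply Continuous.tendsto
      fun_prop
    rwa [zero_pow hk, mul_zero] at this
  refine ⟨fun u => χ₁ (u ^ l), fun u => χ₂ (ω * u ^ k), ?_, ?_, ?_, ?_, ?_, ?_⟩
  · simp [zero_pow hl, h10]
  · simp [zero_pow hk, h20]
  · filter_upwards [t1.eventually h1d] with u hu
    exact hu.comp u (differentiableAt_pow l)
  · filter_upwards [t2.eventually h2d] with u hu
    exact hu.comp u ((differentiableAt_pow k).const_mul ω)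
  · filter_upwards [t1.eventually h1f, t2.eventually h2f] with u hu1 hu2
    rw [hu1, hu2, mul_pow, ← pow_mul, ← pow_mul, hω, mul_comm l k]
    ring
  · intro h
    have h3 : ∀ᶠ u in 𝓝 (0 : ℂ), u ^ (l * k) = 0 := by
      filter_upwards [t1.eventually h1f, h] with u hu1 hu2
      rw [hu2] at hu1
      have : (u ^ l) ^ k = 0 := by
        have := hu1
        linear_combination -this
      rw [pow_mul]
      exact this
    have h4 : ∀ᶠ u in 𝓝[≠] (0 : ℂ), u ^ (l * k) = 0 := h3.filter_mono nhdsWithin_le_nhds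
    obtain ⟨u, hu1, hu2⟩ := (h4.and self_mem_nhdsWithin).exists
    exact hu2 (pow_eq_zero_iff (by positivity) |>.1 hu1)

/-- Maximum principle on the plane curve `f x + g y = c`: smallness over a disc in the `x`-plane
and over a disc in the `y`-plane propagates to the whole curve. -/
lemma curve_max {f g : ℂ → ℂ} (hf : Differentiable ℂ f) (hnf : ∃ a b : ℂ, f a ≠ f b)
    (hg : Differentiable ℂ g) (hng : ∃ a b : ℂ, g a ≠ g b) {c : ℂ} {D : ℂ × ℂ → ℂ}
    (hD : Differentiable ℂ D) {M ε r : ℝ} (hε : 0 < ε) (hr : 0 < r) (a b : ℂ)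
    (hM : ∀ x y, f x + g y = c → ‖D (x, y)‖ ≤ M)
    (h1 : ∀ x y, f x + g y = c → dist x a ≤ r → ‖D (x, y)‖ ≤ ε)
    (h2 : ∀ x y, f x + g y = c → dist y b ≤ r → ‖D (x, y)‖ ≤ ε) :
    ∀ x y, f x + g y = c → ‖D (x, y)‖ ≤ ε := by
  intro x₀ y₀ h₀
  by_contra hcon
  push Not at hcon
  have hxa : r < dist x₀ a := by
    by_contra h
    exact absurd (h1 _ _ h₀ (not_lt.1 h)) (not_le.2 hcon)
  have hyb : r < dist y₀ b := by
    by_contra h
    exact absurd (h2 _ _ h₀ (not_lt.1 h)) (not_le.2 hcon)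
  -- choose the exponent
  obtain ⟨N, hN⟩ : ∃ N : ℕ, dist x₀ a * dist y₀ b / (r * r) < (‖D (x₀, y₀)‖ / ε) ^ N := by
    have : 1 < ‖D (x₀, y₀)‖ / ε := by rwa [one_lt_div hε]
    exact pow_unbounded_of_one_lt _ this
  have hN0 : 0 < N := by
    rcases Nat.eq_zero_or_pos N with h | h
    · subst h
      rw [pow_zero, div_lt_one (by positivity)] at hN
      have := mul_lt_mul'' hxa hyb hr.le hr.le
      linarith
    · exact h
  set Q : ℂ × ℂ → ℝ := fun z => ‖D z‖ ^ N / (dist z.1 a * dist z.2 b) with hQ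
  have hQ0 : ε ^ N / (r * r) < Q (x₀, y₀) := by
    simp only [hQ]
    have hx0 : 0 < dist x₀ a := hr.trans hxa
    have hy0 : 0 < dist y₀ b := hr.trans hyb
    rw [div_pow, lt_div_iff₀ (by positivity)] at hN
    rw [div_lt_div_iff₀ (by positivity) (by positivity)]
    rw [div_mul_eq_mul_div, div_lt_iff₀ (by positivity)] at hN
    linarith
  have hQpos : 0 < Q (x₀, y₀) := lt_trans (by positivity) hQ0
  -- the closed region
  set A : Set (ℂ × ℂ) := {z | f z.1 + g z.2 = c ∧ r ≤ dist z.1 a ∧ r ≤ dist z.2 b} with hA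
  have hAclosed : IsClosed A := by
    have c1 : Continuous fun z : ℂ × ℂ => f z.1 + g z.2 := by
      have := hf.continuous
      have := hg.continuous
      fun_prop
    have c2 : IsClosed {z : ℂ × ℂ | r ≤ dist z.1 a} := isClosed_le continuous_const (by fun_prop)
    have c3 : IsClosed {z : ℂ × ℂ | r ≤ dist z.2 b} := isClosed_le continuous_const (by fun_prop)
    exact (isClosed_eq c1 continuous_const).inter (c2.inter c3)
  have hM0 : 0 ≤ M := (norm_nonneg _).trans (hM _ _ h₀)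
  set B : ℝ := M ^ N / (r * Q (x₀, y₀)) + r + 1 with hB
  set K : Set (ℂ × ℂ) := A ∩ (closedBall a B ×ˢ closedBall b B) with hK
  have hKc : IsCompact K :=
    ((isCompact_closedBall a B).prod (isCompact_closedBall b B)).inter_left hAclosed
  have hout : ∀ z ∈ A, z ∉ K → Q z < Q (x₀, y₀) := by
    intro z hz hzK
    obtain ⟨hz1, hz2, hz3⟩ := hz
    have hMz : ‖D z‖ ^ N ≤ M ^ N := pow_le_pow_left₀ (norm_nonneg _) (hM z.1 z.2 hz1) N
    have hz0 : 0 < dist z.1 a := lt_of_lt_of_le hr hz2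
    have hz0' : 0 < dist z.2 b := lt_of_lt_of_le hr hz3
    have hbig : r * B < dist z.1 a * dist z.2 b ∨ False := by
      left
      by_cases hzB : dist z.1 a ≤ B
      · have hzB' : B < dist z.2 b := by
          by_contra h
          exact hzK ⟨⟨hz1, hz2, hz3⟩, hzB, not_lt.1 h⟩
        have hBpos : 0 < B := by positivity
        calc r * B < r * dist z.2 b := by gcongr
          _ ≤ dist z.1 a * dist z.2 b := by gcongr
      · push Not at hzB
        have hBpos : 0 < B := by positivity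
        calc r * B < r * dist z.1 a := by gcongr
          _ = dist z.1 a * r := mul_comm _ _
          _ ≤ dist z.1 a * dist z.2 b := by gcongr
    rcases hbig with hbig | h
    · simp only [hQ]
      rw [div_lt_iff₀ (by positivity)]
      have e1 : Q (x₀, y₀) * (r * B) = M ^ N + Q (x₀, y₀) * r * (r + 1) := by
        rw [hB]; field_simp; ring
      calc ‖D z‖ ^ N ≤ M ^ N := hMz
        _ < Q (x₀, y₀) * (r * B) := by rw [e1]; have := mul_pos (mul_pos hQpos hr) (by linarith : 0 < r + 1); linarith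
        _ ≤ Q (x₀, y₀) * (dist z.1 a * dist z.2 b) := by gcongr
    · exact h.elim
  have hz0A : (x₀, y₀) ∈ A := ⟨h₀, hxa.le, hyb.le⟩
  have hz0K : (x₀, y₀) ∈ K := by
    by_contra h
    exact lt_irrefl _ (hout _ hz0A h)
  have hQcont : ContinuousOn Q A := by
    intro z hz
    have h1 : dist z.1 a * dist z.2 b ≠ 0 :=
      (mul_pos (lt_of_lt_of_le hr hz.2.1) (lt_of_lt_of_le hr hz.2.2)).ne'
    apply ContinuousAt.continuousWithinAt
    simp only [hQ]
    have h3 : ContinuousAt (fun z : ℂ × ℂ => dist z.1 a * dist z.2 b) z := by fun_prop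
    exact ContinuousAt.div (hD.continuous.norm.pow N).continuousAt h3 h1
  obtain ⟨zm, hzmK, hzm⟩ := hKc.exists_isMaxOn ⟨_, hz0K⟩ (hQcont.mono inter_subset_left)
  have hglob : ∀ z ∈ A, Q z ≤ Q zm := by
    intro z hz
    by_cases h : z ∈ K
    · exact hzm h
    · exact (hout z hz h).le.trans (hzm hz0K)
  -- the set of maximum points
  set S : Set (ℂ × ℂ) := {z ∈ K | Q z = Q zm} with hS
  have hSc : IsCompact S := by
    have : S = K ∩ (Q ⁻¹' {Q zm}) := rfl
    rw [this]
    have hcl := (hQcont.mono (inter_subset_left : K ⊆ A)).preimage_isClosed_of_isClosed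
      hKc.isClosed (isClosed_singleton (x := Q zm))
    exact hKc.of_isClosed_subset hcl inter_subset_left
  obtain ⟨P, hPS, hP⟩ := hSc.exists_isMaxOn ⟨zm, hzmK, rfl⟩
    (f := fun z : ℂ × ℂ => dist z.1 a) (by fun_prop)
  obtain ⟨⟨⟨hP1, hP2, hP3⟩, -⟩, hPQ⟩ := hPS
  have hPbig : ε ^ N / (r * r) < Q P := by
    rw [hPQ]; exact hQ0.trans_le (hzm hz0K)
  -- `P` is an interior point of `A`
  have hP2' : r < dist P.1 a := by
    rcases eq_or_lt_of_le hP2 with h | h
    · exfalso
      have h3 := h1 P.1 P.2 hP1 h.symm.le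
      have : Q P ≤ ε ^ N / (r * r) := by
        simp only [hQ]
        gcongr
      linarith
    · exact h
  have hP3' : r < dist P.2 b := by
    rcases eq_or_lt_of_le hP3 with h | h
    · exfalso
      have h3 := h2 P.1 P.2 hP1 h.symm.le
      have : Q P ≤ ε ^ N / (r * r) := by
        simp only [hQ]
        gcongr
      linarith
    · exact h
  obtain ⟨γ₁, γ₂, e1, e2, d1, d2, hcurve, hnc⟩ := exists_param hf hnf hg hng P.1 P.2
  have hc1 : ContinuousAt γ₁ 0 := d1.self_of_nhds.continuousAt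
  have hc2 : ContinuousAt γ₂ 0 := d2.self_of_nhds.continuousAt
  have ev1 : ∀ᶠ u in 𝓝 (0 : ℂ), r < dist (γ₁ u) a := by
    have : ContinuousAt (fun u => dist (γ₁ u) a) 0 := hc1.dist continuousAt_const
    apply this.eventually (lt_mem_nhds _)
    simp only [e1]; exact hP2'
  have ev2 : ∀ᶠ u in 𝓝 (0 : ℂ), r < dist (γ₂ u) b := by
    have : ContinuousAt (fun u => dist (γ₂ u) b) 0 := hc2.dist continuousAt_const
    apply this.eventually (lt_mem_nhds _)
    simp only [e2]; exact hP3'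
  set H : ℂ → ℂ := fun u => D (γ₁ u, γ₂ u) ^ N / ((γ₁ u - a) * (γ₂ u - b)) with hH
  have hHQ : ∀ u, ‖H u‖ = Q (γ₁ u, γ₂ u) := by
    intro u
    simp only [hH, hQ]
    rw [norm_div, norm_pow, norm_mul, dist_eq_norm, dist_eq_norm]
  have evA : ∀ᶠ u in 𝓝 (0 : ℂ), (γ₁ u, γ₂ u) ∈ A := by
    filter_upwards [ev1, ev2, hcurve] with u h1 h2 h3
    exact ⟨by rw [h3, hP1], h1.le, h2.le⟩
  have hlm : IsLocalMax (norm ∘ H) 0 := by
    filter_upwards [evA] with u hu
    simp only [Function.comp_apply]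
    rw [hHQ, hHQ, e1, e2]
    have : Q (P.1, P.2) = Q zm := hPQ
    rw [this]
    exact hglob _ hu
  have hHd : ∀ᶠ u in 𝓝 (0 : ℂ), DifferentiableAt ℂ H u := by
    filter_upwards [d1, d2, ev1, ev2] with u h1 h2 h3 h4
    simp only [hH]
    apply DifferentiableAt.div
    · exact ((hD _).comp u (h1.prodMk h2)).pow N
    · exact (h1.sub_const a).mul (h2.sub_const b)
    · apply mul_ne_zero
      · rw [← norm_ne_zero_iff, ← dist_eq_norm]; linarith
      · rw [← norm_ne_zero_iff, ← dist_eq_norm]; linarith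
  have hHc := Complex.eventually_eq_of_isLocalMax_norm hHd hlm
  have evS : ∀ᶠ u in 𝓝 (0 : ℂ), (γ₁ u, γ₂ u) ∈ S := by
    filter_upwards [evA, hHc] with u h1 h2
    have h3 : Q (γ₁ u, γ₂ u) = Q zm := by
      rw [← hHQ, h2, hHQ, e1, e2]; exact hPQ
    refine ⟨?_, h3⟩
    by_contra h
    have h4 := hout _ h1 h
    rw [h3] at h4
    exact absurd (hzm hz0K) (not_le.2 h4)
  have hlm2 : IsLocalMax (norm ∘ fun u => γ₁ u - a) 0 := by
    filter_upwards [evS] with u hu
    simp only [Function.comp_apply]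
    rw [← dist_eq_norm, ← dist_eq_norm, e1]
    exact hP hu
  have hconst := Complex.eventually_eq_of_isLocalMax_norm
    (d1.mono fun u hu => hu.sub_const a) hlm2
  apply hnc
  filter_upwards [hconst] with u hu
  rw [e1] at hu
  exact sub_left_inj.1 hu

end Pool.Agent.H33R3
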