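import Mathlib

set_option autoImplicit false

/-!
# Large univalent discs of entire functions, local normal forms
-/

namespace Pool.Agent.H33R3

open Metric Set Filter Topology

/-- A nonconstant entire function has a point with nonzero derivative. -/
lemma exists_deriv_ne {f : ℂ → ℂ} (hf : Differentiable ℂ f) (hn : ∃ a b : ℂ, f a ≠ f b) :
    ∃ b, deriv f b ≠ 0 := by
  by_contra h
  push Not at h
  obtain ⟨a, b, hab⟩ := hn
  exact hab (is_const_of_deriv_eq_zero hf h a b)

/-- Bloch: an entire nonconstant function has holomorphic right inverses on arbitrarily large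
discs, which are local left inverses at the centre. -/
lemma exists_schlicht {f : ℂ → ℂ} (hf : Differentiable ℂ f) (hn : ∃ a b : ℂ, f a ≠ f b)
    {R : ℝ} (hR : 0 < R) :
    ∃ a : ℂ, ∃ φ : ℂ → ℂ, DifferentiableOn ℂ φ (ball (f a) R) ∧
      (∀ u ∈ ball (f a) R, f (φ u) = u) ∧ ∃ r > 0, ∀ z ∈ ball a r, φ (f z) = z := by
  obtain ⟨b, hb⟩ := exists_deriv_ne hf hn
  have hb0 : 0 < ‖deriv f b‖ := norm_pos_iff.2 hb
  have hdf : Differentiable ℂ (deriv f) := (hf.contDiff (n := 2)).differentiable_deriv_two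
  set ρ : ℝ := 64 * R / ‖deriv f b‖ + 1 with hρ
  have hρ0 : 0 < ρ := by positivity
  -- maximum point
  obtain ⟨a, ha, hmax⟩ := (isCompact_closedBall b ρ).exists_isMaxOn
    (nonempty_closedBall.2 hρ0.le)
    (f := fun z => (ρ - dist z b) * ‖deriv f z‖)
    (by
      apply Continuous.continuousOn
      have := hdf.continuous
      fun_prop)
  have hmax' : ∀ z ∈ closedBall b ρ, (ρ - dist z b) * ‖deriv f z‖ ≤
      (ρ - dist a b) * ‖deriv f a‖ := fun z hz => hmax hz
  have hb1 := hmax' b (mem_closedBall_self hρ0.le)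
  simp only [dist_self, sub_zero] at hb1
  have ha1 : dist a b ≤ ρ := mem_closedBall.1 ha
  have hpos : 0 < (ρ - dist a b) * ‖deriv f a‖ := lt_of_lt_of_le (by positivity) hb1
  have hta : 0 < ρ - dist a b := by
    rcases eq_or_lt_of_le (sub_nonneg.2 ha1) with h | h
    · rw [← h, zero_mul] at hpos; exact absurd hpos (lt_irrefl _)
    · exact h
  have hfa : 0 < ‖deriv f a‖ := by
    rcases eq_or_lt_of_le (norm_nonneg (deriv f a)) with h | h
    · rw [← h, mul_zero] at hpos; exact absurd hpos (lt_irrefl _)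
    · exact h
  set t : ℝ := (ρ - dist a b) / 2 with ht
  have ht0 : 0 < t := by positivity
  have hD : ∀ z ∈ ball a t, ‖deriv f z‖ ≤ 2 * ‖deriv f a‖ := by
    intro z hz
    have h1 : dist z b ≤ dist z a + dist a b := dist_triangle _ _ _
    have h2 : dist z a < t := mem_ball.1 hz
    have h3 : z ∈ closedBall b ρ := mem_closedBall.2 (by rw [ht] at h2; linarith)
    have h4 := hmax' z h3
    have h5 : t ≤ ρ - dist z b := by rw [ht] at h2 ⊢; linarith
    have h6 : t * ‖deriv f z‖ ≤ (ρ - dist z b) * ‖deriv f z‖ :=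
      mul_le_mul_of_nonneg_right h5 (norm_nonneg _)
    have h7 : t * ‖deriv f z‖ ≤ t * (2 * ‖deriv f a‖) := by
      calc t * ‖deriv f z‖ ≤ (ρ - dist a b) * ‖deriv f a‖ := h6.trans h4
        _ = t * (2 * ‖deriv f a‖) := by rw [ht]; ring
    exact le_of_mul_le_mul_left h7 ht0
  have hD2 : ∀ z ∈ ball a (t / 8), ‖deriv f z - deriv f a‖ ≤ ‖deriv f a‖ / 2 := by
    intro z hz
    have hz' : z ∈ ball a t := ball_subset_ball (by linarith) hz
    have h1 := Complex.dist_le_div_mul_dist_of_mapsTo_ball (f := deriv f) (c := a) (R₁ := t)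
      (R₂ := 4 * ‖deriv f a‖) hdf.differentiableOn (by
        intro w hw
        rw [mem_closedBall, dist_eq_norm]
        have := norm_sub_le (deriv f w) (deriv f a)
        have h2 := hD w hw
        linarith) hz'
    rw [dist_eq_norm] at h1
    have h2 : dist z a ≤ t / 8 := (mem_ball.1 hz).le
    calc ‖deriv f z - deriv f a‖ ≤ 4 * ‖deriv f a‖ / t * dist z a := h1
      _ ≤ 4 * ‖deriv f a‖ / t * (t / 8) := by gcongr
      _ = ‖deriv f a‖ / 2 := by field_simp; ring
  -- linear approximation
  set c : NNReal := ⟨‖deriv f a‖ / 2, by positivity⟩ with hc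
  have hcc : (c : ℝ) = ‖deriv f a‖ / 2 := rfl
  have happ : ∀ x ∈ ball a (t / 8), ∀ y ∈ ball a (t / 8),
      ‖f x - f y - deriv f a * (x - y)‖ ≤ ‖deriv f a‖ / 2 * ‖x - y‖ := by
    intro x hx y hy
    have h1 := Convex.norm_image_sub_le_of_norm_hasDerivWithin_le
      (f := fun z => f z - deriv f a * z) (f' := fun z => deriv f z - deriv f a)
      (s := ball a (t / 8)) (C := ‖deriv f a‖ / 2) (x := y) (y := x)
      (fun z _ => by
        have := (hf z).hasDerivAt.fun_sub ((hasDerivAt_id z).const_mul (deriv f a))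
        simpa using this.hasDerivWithinAt) hD2 (convex_ball _ _) hy hx
    have e : f x - f y - deriv f a * (x - y) = (f x - deriv f a * x) - (f y - deriv f a * y) := by
      ring
    rw [e]
    exact h1
  -- surjectivity via the quantitative inverse function theorem
  have hne : deriv f a ≠ 0 := norm_pos_iff.1 hfa
  set f' : ℂ →L[ℂ] ℂ := (deriv f a) • ContinuousLinearMap.id ℂ ℂ with hf'
  have hlin : ApproximatesLinearOn f f' (ball a (t / 8)) c := by
    intro x hx y hy
    have := happ x hx y hy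
    rw [hcc]
    simpa [hf'] using this
  let rinv : f'.NonlinearRightInverse :=
    { toFun := fun y => (deriv f a)⁻¹ * y
      nnnorm := ⟨‖deriv f a‖⁻¹, by positivity⟩
      bound' := fun y => by
        rw [norm_mul, norm_inv]
        exact le_rfl
      right_inv' := fun y => by
        simp only [hf', ContinuousLinearMap.smul_apply, ContinuousLinearMap.id_apply, smul_eq_mul]
        field_simp }
  have hsurj := hlin.surjOn_closedBall_of_nonlinearRightInverse rinv (ε := t / 16) (b := a)
    (by positivity) (closedBall_subset_ball (by linarith))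
  have hrad : R < (((rinv.nnnorm : NNReal) : ℝ)⁻¹ - c) * (t / 16) := by
    have e1 : ((rinv.nnnorm : NNReal) : ℝ) = ‖deriv f a‖⁻¹ := rfl
    rw [e1, hcc, inv_inv]
    have e2 : (‖deriv f a‖ - ‖deriv f a‖ / 2) * (t / 16) =
        (ρ - dist a b) * ‖deriv f a‖ / 64 := by rw [ht]; ring
    rw [e2, lt_div_iff₀ (by norm_num)]
    calc R * 64 < ρ * ‖deriv f b‖ := by
          rw [hρ, add_mul, div_mul_cancel₀ _ hb0.ne', one_mul]; linarith
      _ ≤ _ := hb1
  have hinj : ∀ x ∈ ball a (t / 8), ∀ y ∈ ball a (t / 8),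
      ‖deriv f a‖ / 2 * ‖x - y‖ ≤ ‖f x - f y‖ := by
    intro x hx y hy
    have h1 := happ x hx y hy
    have h2 : ‖deriv f a * (x - y)‖ ≤ ‖f x - f y‖ + ‖f x - f y - deriv f a * (x - y)‖ := by
      have := norm_sub_le (f x - f y) (f x - f y - deriv f a * (x - y))
      simpa using this
    rw [norm_mul] at h2
    linarith
  -- the inverse
  have hex : ∀ u : ℂ, ∃ z : ℂ, u ∈ ball (f a) R → z ∈ closedBall a (t / 16) ∧ f z = u := by
    intro u
    by_cases hu : u ∈ ball (f a) R
    · obtain ⟨z, hz, hzu⟩ := hsurj (ball_subset_closedBall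
        (ball_subset_ball hrad.le hu) : u ∈ closedBall (f a) _)
      exact ⟨z, fun _ => ⟨hz, hzu⟩⟩
    · exact ⟨0, fun h => absurd h hu⟩
  choose φ hφ using hex
  have hsub : closedBall a (t / 16) ⊆ ball a (t / 8) := closedBall_subset_ball (by linarith)
  have hcont : ∀ u ∈ ball (f a) R, ContinuousAt φ u := by
    intro u hu
    have hev : ∀ᶠ v in 𝓝 u, ‖φ v - φ u‖ ≤ 2 / ‖deriv f a‖ * ‖v - u‖ := by
      filter_upwards [isOpen_ball.mem_nhds hu] with v hv
      have h1 := hinj _ (hsub (hφ v hv).1) _ (hsub (hφ u hu).1)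
      rw [(hφ v hv).2, (hφ u hu).2] at h1
      rw [div_mul_eq_mul_div, le_div_iff₀ hfa]
      linarith
    rw [ContinuousAt, tendsto_iff_norm_sub_tendsto_zero]
    refine squeeze_zero' (Eventually.of_forall fun _ => norm_nonneg _) hev ?_
    have : Tendsto (fun v => 2 / ‖deriv f a‖ * ‖v - u‖) (𝓝 u) (𝓝 (2 / ‖deriv f a‖ * ‖u - u‖)) := by
      apply Continuous.tendsto
      fun_prop
    simpa using this
  refine ⟨a, φ, ?_, fun u hu => (hφ u hu).2, ?_⟩
  · intro u hu
    have hu' := hφ u hu
    have hne' : deriv f (φ u) ≠ 0 := by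
      intro h0
      have := hD2 _ (hsub hu'.1)
      rw [h0, zero_sub, norm_neg] at this
      linarith
    have := HasDerivAt.of_local_left_inverse (hcont u hu) (hf (φ u)).hasDerivAt hne'
      (by filter_upwards [isOpen_ball.mem_nhds hu] with v hv using (hφ v hv).2)
    exact this.differentiableAt.differentiableWithinAt
  · have hc1 : ContinuousAt f a := hf.continuous.continuousAt
    obtain ⟨r, hr, hr2⟩ := Metric.continuousAt_iff.1 hc1 R hR
    refine ⟨min r (t / 8), by positivity, fun z hz => ?_⟩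
    have hz1 : dist z a < r := lt_of_lt_of_le (mem_ball.1 hz) (min_le_left _ _)
    have hz2 : z ∈ ball a (t / 8) := ball_subset_ball (min_le_right _ _) hz
    have h1 : f z ∈ ball (f a) R := mem_ball.2 (hr2 hz1)
    have h2 := hφ _ h1
    have h3 := hinj _ (hsub h2.1) _ hz2
    rw [h2.2, sub_self, norm_zero] at h3
    have h4 : ‖φ (f z) - z‖ = 0 := by
      have h5 := norm_nonneg (φ (f z) - z)
      nlinarith
    exact sub_eq_zero.1 (norm_eq_zero.1 h4)

end Pool.Agent.H33R3
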