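import Mathlib
import Pool.Agent.H33R3.Schlicht
import Pool.Agent.H33R3.NormalForm

set_option autoImplicit false

/-!
# Liouville property of the surface `f x + g y + h z = 0`
-/

namespace Pool.Agent.H33R3

open Metric Set Filter Topology

/-- the data: three nonconstant entire functions, an entire function of three variables bounded on
the surface -/
structure Setup (f g h : ℂ → ℂ) (G : ℂ → ℂ → ℂ → ℂ) (M : ℝ) : Prop where
  hf : Differentiable ℂ f
  hg : Differentiable ℂ g
  hh : Differentiable ℂ h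
  nf : ∃ a b : ℂ, f a ≠ f b
  ng : ∃ a b : ℂ, g a ≠ g b
  nh : ∃ a b : ℂ, h a ≠ h b
  hG : Differentiable ℂ (fun p : ℂ × ℂ × ℂ => G p.1 p.2.1 p.2.2)
  hM : ∀ x y z, f x + g y + h z = 0 → ‖G x y z‖ ≤ M

variable {f g h : ℂ → ℂ} {G : ℂ → ℂ → ℂ → ℂ} {M : ℝ}

lemma Setup.swap12 (S : Setup f g h G M) : Setup g f h (fun x y z => G y x z) M where
  hf := S.hg
  hg := S.hf
  hh := S.hh
  nf := S.ng
  ng := S.nf
  nh := S.nh
  hG := by
    have h1 : Differentiable ℂ (fun p : ℂ × ℂ × ℂ => ((p.2.1, p.1, p.2.2) : ℂ × ℂ × ℂ)) := by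
      fun_prop
    exact S.hG.comp h1
  hM := fun x y z hxyz => S.hM y x z (by rw [← hxyz]; ring)

lemma Setup.swap23 (S : Setup f g h G M) : Setup f h g (fun x y z => G x z y) M where
  hf := S.hf
  hg := S.hh
  hh := S.hg
  nf := S.nf
  ng := S.nh
  nh := S.ng
  hG := by
    have h1 : Differentiable ℂ (fun p : ℂ × ℂ × ℂ => ((p.1, p.2.2, p.2.1) : ℂ × ℂ × ℂ)) := by
      fun_prop
    exact S.hG.comp h1
  hM := fun x y z hxyz => S.hM x z y (by rw [← hxyz]; ring)

/-- the slice estimate: over a suitable disc in the `y`-plane, `G x y z` hardly changes if `x` is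
replaced by another point with the same value of `f`. -/
lemma Setup.slice_small (S : Setup f g h G M) {x₀ w₀ : ℂ} (hxw : f x₀ = f w₀) {ε : ℝ}
    (hε : 0 < ε) :
    ∃ a : ℂ, ∃ r > 0, ∀ y z, dist y a < r → f x₀ + g y + h z = 0 →
      ‖G x₀ y z - G w₀ y z‖ ≤ ε := by
  have hMM : ∃ M' : ℝ, 0 < M' ∧ ∀ x y z, f x + g y + h z = 0 → ‖G x y z‖ ≤ M' :=
    ⟨|M| + 1, by positivity, fun x y z hh => (S.hM x y z hh).trans
      (by linarith [le_abs_self M])⟩
  obtain ⟨M', hM'0, hM'⟩ := hMM
  set ρ : ℝ := 2 * M' * dist w₀ x₀ / ε + dist w₀ x₀ + 1 with hρ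
  have hρ0 : 0 < ρ := by positivity
  obtain ⟨C, hC⟩ := (isCompact_closedBall x₀ ρ).exists_bound_of_continuousOn
    (f := fun ζ => f ζ - f x₀) (S.hf.continuous.sub continuous_const).continuousOn
  set R : ℝ := 2 * |C| + 2 with hR
  have hR0 : 0 < R := by positivity
  obtain ⟨a, φ, hφd, hφr, r₁, hr₁, hφl⟩ := exists_schlicht S.hg S.ng hR0
  obtain ⟨r₂, hr₂, hr₂'⟩ := Metric.continuousAt_iff.1 (S.hg.continuous.continuousAt (x := a))
    (R / 2) (by positivity)
  refine ⟨a, min r₁ r₂, by positivity, fun y z hy hyz => ?_⟩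
  have hy1 : y ∈ ball a r₁ := lt_of_lt_of_le hy (min_le_left _ _)
  have hy2 : dist (g y) (g a) < R / 2 := hr₂' (lt_of_lt_of_le hy (min_le_right _ _))
  have harg : ∀ ζ ∈ ball x₀ ρ, g y - (f ζ - f x₀) ∈ ball (g a) R := by
    intro ζ hζ
    have h1 := hC ζ (ball_subset_closedBall hζ)
    rw [mem_ball, dist_eq_norm]
    rw [dist_eq_norm] at hy2
    calc ‖g y - (f ζ - f x₀) - g a‖ = ‖(g y - g a) - (f ζ - f x₀)‖ := by congr 1; ring
      _ ≤ ‖g y - g a‖ + ‖f ζ - f x₀‖ := norm_sub_le _ _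
      _ < R := by
        have := le_abs_self C
        rw [hR] at hy2 ⊢
        linarith
  set ψ : ℂ → ℂ := fun ζ => φ (g y - (f ζ - f x₀)) with hψ
  have hψd : DifferentiableOn ℂ ψ (ball x₀ ρ) := by
    refine hφd.comp (t := ball (g a) R) ?_ harg
    have := S.hf
    fun_prop
  set H : ℂ → ℂ := fun ζ => G ζ (ψ ζ) z with hH
  have hHd : DifferentiableOn ℂ H (ball x₀ ρ) := by
    have h1 : DifferentiableOn ℂ (fun ζ : ℂ => ((ζ, ψ ζ, z) : ℂ × ℂ × ℂ)) (ball x₀ ρ) :=
      differentiableOn_id.prodMk (hψd.prodMk (differentiableOn_const z))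
    exact S.hG.comp_differentiableOn h1
  have hHM : ∀ ζ ∈ ball x₀ ρ, ‖H ζ‖ ≤ M' := by
    intro ζ hζ
    apply hM'
    have := hφr _ (harg ζ hζ)
    simp only [hψ]
    rw [this, ← hyz]
    ring
  have hψ0 : ∀ ζ, f ζ = f x₀ → ψ ζ = y := by
    intro ζ hζ
    simp only [hψ]
    rw [hζ, sub_self, sub_zero]
    exact hφl y hy1
  have hx0 : x₀ ∈ ball x₀ ρ := mem_ball_self hρ0
  have hw0 : w₀ ∈ ball x₀ ρ := by
    rw [mem_ball, hρ]
    have : 0 ≤ 2 * M' * dist w₀ x₀ / ε := by positivity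
    linarith
  have hsch := Complex.dist_le_div_mul_dist_of_mapsTo_ball (f := H) (c := x₀) (R₁ := ρ)
    (R₂ := 2 * M') hHd (by
      intro w hw
      rw [mem_closedBall, dist_eq_norm]
      have := norm_sub_le (H w) (H x₀)
      have h2 := hHM w hw
      have h3 := hHM x₀ hx0
      linarith) hw0
  have e1 : H w₀ = G w₀ y z := by simp only [hH]; rw [hψ0 w₀ hxw.symm]
  have e2 : H x₀ = G x₀ y z := by simp only [hH]; rw [hψ0 x₀ rfl]
  rw [e1, e2, dist_comm, dist_eq_norm] at hsch
  refine hsch.trans ?_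
  rw [div_mul_eq_mul_div, div_le_iff₀ hρ0, hρ]
  have : ε * (2 * M' * dist w₀ x₀ / ε + dist w₀ x₀ + 1) =
      2 * M' * dist w₀ x₀ + ε * dist w₀ x₀ + ε := by field_simp
  rw [this]
  have : 0 ≤ ε * dist w₀ x₀ := by positivity
  linarith

/-- `G` depends on the first variable only through `f`. -/
lemma Setup.fibre (S : Setup f g h G M) {x₀ w₀ y z : ℂ} (hxw : f x₀ = f w₀)
    (hyz : f x₀ + g y + h z = 0) : G x₀ y z = G w₀ y z := by
  have key : ∀ ε > 0, ‖G x₀ y z - G w₀ y z‖ ≤ ε := by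
    intro ε hε
    obtain ⟨a, r, hr, h1⟩ := S.slice_small hxw hε
    obtain ⟨b, s, hs, h2⟩ := S.swap23.slice_small hxw hε
    have hr' : 0 < min r s / 2 := by positivity
    have hlt1 : min r s / 2 < r := lt_of_lt_of_le (half_lt_self (by positivity)) (min_le_left _ _)
    have hlt2 : min r s / 2 < s := lt_of_lt_of_le (half_lt_self (by positivity)) (min_le_right _ _)
    have := curve_max S.hg S.ng S.hh S.nh (c := -f x₀)
      (D := fun p => G x₀ p.1 p.2 - G w₀ p.1 p.2) (M := M + M) (ε := ε) (r := min r s / 2)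
      (by
        have a1 : Differentiable ℂ (fun p : ℂ × ℂ => ((x₀, p.1, p.2) : ℂ × ℂ × ℂ)) := by fun_prop
        have a2 : Differentiable ℂ (fun p : ℂ × ℂ => ((w₀, p.1, p.2) : ℂ × ℂ × ℂ)) := by fun_prop
        exact (S.hG.comp a1).sub (S.hG.comp a2)) hε hr' a b
      (fun y z hyz => by
        refine (norm_sub_le _ _).trans (add_le_add (S.hM _ _ _ ?_) (S.hM _ _ _ ?_))
        · linear_combination hyz
        · rw [← hxw]; linear_combination hyz)
      (fun y z hyz hy => h1 y z (lt_of_le_of_lt hy hlt1) (by linear_combination hyz))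
      (fun y z hyz hz => h2 z y (lt_of_le_of_lt hz hlt2) (by linear_combination hyz))
    exact this y z (by linear_combination hyz)
  by_contra hne
  have hpos : 0 < ‖G x₀ y z - G w₀ y z‖ := norm_pos_iff.2 (sub_ne_zero.2 hne)
  have := key (‖G x₀ y z - G w₀ y z‖ / 2) (by positivity)
  linarith

/-- one-sided smallness used on slices -/
lemma Setup.near (S : Setup f g h G M) {b₁ b₂ z : ℂ} (hb : f b₁ + g b₂ + h z = 0) {ε : ℝ}
    (hε : 0 < ε) : ∃ r > 0, ∀ x y, f x + g y + h z = 0 → dist x b₁ < r →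
      ‖G x y z - G b₁ b₂ z‖ ≤ ε := by
  have hc : Continuous (fun p : ℂ × ℂ => G p.1 p.2 z) := by
    have a1 : Continuous (fun p : ℂ × ℂ => ((p.1, p.2, z) : ℂ × ℂ × ℂ)) := by fun_prop
    exact S.hG.continuous.comp a1
  obtain ⟨δ, hδ, hδ'⟩ := Metric.continuousAt_iff.1 (hc.continuousAt (x := (b₁, b₂))) ε hε
  -- open mapping for `g` at `b₂`
  have hopen : 𝓝 (g b₂) ≤ map g (𝓝 b₂) := by
    rcases (S.hg.analyticAt b₂).eventually_constant_or_nhds_le_map_nhds with h1 | h1
    · exfalso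
      obtain ⟨a, b, hab⟩ := S.ng
      have h2 : AnalyticOnNhd ℂ g univ := fun z _ => S.hg.analyticAt z
      have h3 := h2.eqOn_of_preconnected_of_eventuallyEq (g := fun _ => g b₂)
        (fun z _ => analyticAt_const) isPreconnected_univ (mem_univ b₂) h1
      exact hab ((h3 (mem_univ a)).trans (h3 (mem_univ b)).symm)
    · exact h1
  have himg : g '' ball b₂ δ ∈ 𝓝 (g b₂) := hopen (image_mem_map (ball_mem_nhds _ hδ))
  obtain ⟨δ', hδ'0, hδ'1⟩ := Metric.mem_nhds_iff.1 himg
  obtain ⟨r, hr, hr'⟩ := Metric.continuousAt_iff.1 (S.hf.continuous.continuousAt (x := b₁)) δ' hδ'0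
  refine ⟨min r δ, by positivity, fun x y hxy hx => ?_⟩
  have hfx : dist (f x) (f b₁) < δ' := hr' (lt_of_lt_of_le hx (min_le_left _ _))
  have hgy : g y ∈ ball (g b₂) δ' := by
    rw [mem_ball, dist_eq_norm]
    rw [dist_eq_norm] at hfx
    have : g y - g b₂ = -(f x - f b₁) := by linear_combination hxy - hb
    rw [this, norm_neg]
    exact hfx
  obtain ⟨y', hy', hgy'⟩ := hδ'1 hgy
  have e : G x y z = G x y' z := by
    have := S.swap12.fibre (x₀ := y) (w₀ := y') (y := x) (z := z) hgy'.symm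
      (by linear_combination hxy)
    exact this
  rw [e, ← dist_eq_norm]
  have hd : dist ((x, y') : ℂ × ℂ) (b₁, b₂) < δ := by
    rw [Prod.dist_eq]
    exact max_lt (lt_of_lt_of_le hx (min_le_right _ _)) hy'
  exact (hδ' hd).le

/-- `G` is constant on each slice `z = const`. -/
lemma Setup.slice (S : Setup f g h G M) {x y x' y' z : ℂ} (h1 : f x + g y + h z = 0)
    (h2 : f x' + g y' + h z = 0) : G x y z = G x' y' z := by
  have key : ∀ ε > 0, ‖G x y z - G x' y' z‖ ≤ ε := by
    intro ε hε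
    obtain ⟨r, hr, hr'⟩ := S.near h2 hε
    obtain ⟨s, hs, hs'⟩ := S.swap12.near (b₁ := y') (b₂ := x') (z := z)
      (by linear_combination h2) hε
    have hr0 : 0 < min r s / 2 := by positivity
    have hlt1 : min r s / 2 < r := lt_of_lt_of_le (half_lt_self (by positivity)) (min_le_left _ _)
    have hlt2 : min r s / 2 < s := lt_of_lt_of_le (half_lt_self (by positivity)) (min_le_right _ _)
    have := curve_max S.hf S.nf S.hg S.ng (c := -h z)
      (D := fun p => G p.1 p.2 z - G x' y' z) (M := M + M) (ε := ε) (r := min r s / 2)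
      (by
        have a1 : Differentiable ℂ (fun p : ℂ × ℂ => ((p.1, p.2, z) : ℂ × ℂ × ℂ)) := by fun_prop
        exact (S.hG.comp a1).sub_const _) hε hr0 x' y'
      (fun a b hab => by
        refine (norm_sub_le _ _).trans (add_le_add (S.hM _ _ _ ?_) (S.hM _ _ _ h2))
        linear_combination hab)
      (fun a b hab ha => hr' a b (by linear_combination hab) (lt_of_le_of_lt ha hlt1))
      (fun a b hab hb => hs' b a (by linear_combination hab) (lt_of_le_of_lt hb hlt2))
    exact this x y (by linear_combination h1)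
  by_contra hne
  have hpos : 0 < ‖G x y z - G x' y' z‖ := norm_pos_iff.2 (sub_ne_zero.2 hne)
  have := key (‖G x y z - G x' y' z‖ / 2) (by positivity)
  linarith

/-- the range of a nonconstant entire function meets every nonempty open set -/
lemma range_dense {f : ℂ → ℂ} (hf : Differentiable ℂ f) (hn : ∃ a b : ℂ, f a ≠ f b) :
    Dense (range f) := by
  rw [Metric.dense_iff]
  intro c r hr
  by_contra hcon
  rw [Set.not_nonempty_iff_eq_empty] at hcon
  have hfar : ∀ z, r ≤ ‖f z - c‖ := by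
    intro z
    by_contra h
    have : f z ∈ ball c r ∩ range f := ⟨by rw [mem_ball, dist_eq_norm]; exact not_le.1 h, z, rfl⟩
    rw [hcon] at this
    exact this
  have hne : ∀ z, f z - c ≠ 0 := fun z => norm_pos_iff.1 (lt_of_lt_of_le hr (hfar z))
  have hd : Differentiable ℂ (fun z => (f z - c)⁻¹) := (hf.sub_const c).inv hne
  have hb : Bornology.IsBounded (range fun z => (f z - c)⁻¹) := by
    rw [isBounded_iff_forall_norm_le]
    refine ⟨r⁻¹, ?_⟩
    rintro _ ⟨z, rfl⟩
    simp only [norm_inv]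
    exact inv_anti₀ hr (hfar z)
  obtain ⟨a, b, hab⟩ := hn
  have := hd.apply_eq_apply_of_bounded hb a b
  exact hab (sub_left_inj.1 (inv_inj.1 this))

lemma isOpenMap_entire {f : ℂ → ℂ} (hf : Differentiable ℂ f) (hn : ∃ a b : ℂ, f a ≠ f b) :
    IsOpenMap f := by
  rw [isOpenMap_iff_nhds_le]
  intro b₂
  rcases (hf.analyticAt b₂).eventually_constant_or_nhds_le_map_nhds with h1 | h1
  · exfalso
    obtain ⟨a, b, hab⟩ := hn
    have h2 : AnalyticOnNhd ℂ f univ := fun z _ => hf.analyticAt z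
    have h3 := h2.eqOn_of_preconnected_of_eventuallyEq (g := fun _ => f b₂)
      (fun z _ => analyticAt_const) isPreconnected_univ (mem_univ b₂) h1
    exact hab ((h3 (mem_univ a)).trans (h3 (mem_univ b)).symm)
  · exact h1

/-- **Liouville property**: `G` is constant on the surface. -/
theorem Setup.const (S : Setup f g h G M) {x y z x' y' z' : ℂ} (h1 : f x + g y + h z = 0)
    (h2 : f x' + g y' + h z' = 0) : G x y z = G x' y' z' := by
  -- find `b` with `-g b - h z` and `-g b - h z'` both in the range of `f`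
  have hfo := isOpenMap_entire S.hf S.nf
  have hgo := isOpenMap_entire S.hg S.ng
  have hrd := range_dense S.hf S.nf
  have hro : IsOpen (range f) := hfo.isOpen_range
  have hD : ∀ c : ℂ, Dense {b : ℂ | -g b - c ∈ range f} ∧ IsOpen {b : ℂ | -g b - c ∈ range f} := by
    intro c
    constructor
    · rw [dense_iff_inter_open]
      intro U hU hUn
      have hV : IsOpen (g '' U) := hgo U hU
      have hV2 : IsOpen ((fun u => -u - c) '' (g '' U)) := by
        have : (fun u : ℂ => -u - c) '' (g '' U) = (fun u : ℂ => -u - c) ⁻¹' (g '' U) := by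
          ext w
          constructor
          · rintro ⟨u, hu, rfl⟩
            simpa using hu
          · intro hw
            exact ⟨-w - c, hw, by ring⟩
        rw [this]
        exact hV.preimage (by fun_prop)
      obtain ⟨w, ⟨hw1, hw2⟩⟩ := hrd.inter_open_nonempty _ hV2 ((hUn.image g).image _)
      obtain ⟨_, ⟨b, hb, rfl⟩, rfl⟩ := hw1
      exact ⟨b, hb, hw2⟩
    · exact hro.preimage (by have := S.hg.continuous; fun_prop)
  obtain ⟨b, ⟨hb1, hb2⟩⟩ := ((hD (h z)).1.inter_of_isOpen_left (hD (h z')).1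
    (hD (h z)).2).nonempty
  obtain ⟨a, ha⟩ := hb1
  obtain ⟨a', ha'⟩ := hb2
  have k1 : f a + g b + h z = 0 := by rw [ha]; ring
  have k2 : f a' + g b + h z' = 0 := by rw [ha']; ring
  rw [S.slice h1 k1, S.slice h2 k2]
  -- slice `y = b`
  exact S.swap23.slice (x := a) (y := z) (x' := a') (y' := z') (z := b)
    (by linear_combination k1) (by linear_combination k2)

end Pool.Agent.H33R3
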