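import Pool.Agent.H590R3.NucStmts

set_option autoImplicit false
set_option linter.unusedSectionVars false

/-! # Tasks 2a and 2b of the nuclear operator project (MP_91e127_an): the space `YY E`. -/

namespace Pool.Agent.H33R3.NucY

open Filter Topology ZeroAtInfty Pool.Agent.H590R3.Nuc

section basic

variable {D : Type} [NormedAddCommGroup D] [NormedSpace ℝ D]

theorem apply_norm_le (v : C₀(ℕ, D)) (n : ℕ) : ‖v n‖ ≤ ‖v‖ := by
  rw [← ZeroAtInftyContinuousMap.norm_toBCF_eq_norm]
  exact v.toBCF.norm_coe_le_norm n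

theorem norm_le_of (v : C₀(ℕ, D)) (c : ℝ) (hc : 0 ≤ c) (h : ∀ n, ‖v n‖ ≤ c) : ‖v‖ ≤ c := by
  rw [← ZeroAtInftyContinuousMap.norm_toBCF_eq_norm]
  exact (BoundedContinuousFunction.norm_le hc).2 h

theorem tendsto_zero (v : C₀(ℕ, D)) : Tendsto (fun n => v n) atTop (𝓝 0) := by
  have h := v.zero_at_infty'
  rw [Filter.cocompact_eq_cofinite, Nat.cofinite_eq_atTop] at h
  exact h

/-- a null sequence as an element of `C₀` -/
def mkC0 (f : ℕ → D) (hf : Tendsto f atTop (𝓝 0)) : C₀(ℕ, D) where
  toFun := f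
  continuous_toFun := continuous_of_discreteTopology
  zero_at_infty' := by
    rw [Filter.cocompact_eq_cofinite, Nat.cofinite_eq_atTop]
    exact hf

@[simp] theorem mkC0_apply (f : ℕ → D) (hf : Tendsto f atTop (𝓝 0)) (n : ℕ) :
    mkC0 f hf n = f n := rfl

/-- evaluation at `n` on `YY E` -/
noncomputable def ev (E : ℕ → Submodule ℝ D) (n : ℕ) : YY E →L[ℝ] D :=
  LinearMap.mkContinuous
    { toFun := fun v => v.1 n
      map_add' := by intro u v; rfl
      map_smul' := by intro c v; rfl } 1 (by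
    intro v
    rw [one_mul]
    exact apply_norm_le v.1 n)

@[simp] theorem ev_apply (E : ℕ → Submodule ℝ D) (n : ℕ) (v : YY E) : ev E n v = v.1 n := rfl

theorem ev_norm_le (E : ℕ → Submodule ℝ D) (n : ℕ) : ‖ev E n‖ ≤ 1 :=
  LinearMap.mkContinuous_norm_le _ zero_le_one _

/-- a sequence which vanishes eventually tends to zero -/
theorem tendsto_of_eventually_zero (f : ℕ → D) (N : ℕ) (h : ∀ n, N ≤ n → f n = 0) :
    Tendsto f atTop (𝓝 0) := by
  apply tendsto_const_nhds.congr'
  filter_upwards [eventually_ge_atTop N] with n hn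
  exact (h n hn).symm

end basic

section complete

variable {D : Type} [NormedAddCommGroup D] [NormedSpace ℝ D]

theorem isClosed_YY (E : ℕ → Submodule ℝ D) (hfin : ∀ n, FiniteDimensional ℝ (E n)) :
    IsClosed (YY E : Set C₀(ℕ, D)) := by
  have hcont : ∀ n : ℕ, Continuous fun v : C₀(ℕ, D) => v n := by
    intro n
    have : LipschitzWith 1 fun v : C₀(ℕ, D) => v n := by
      apply LipschitzWith.of_dist_le_mul
      intro u v
      rw [dist_eq_norm, dist_eq_norm, NNReal.coe_one, one_mul]
      exact apply_norm_le (u - v) n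
    exact this.continuous
  have h : (YY E : Set C₀(ℕ, D)) = ⋂ n, (fun v : C₀(ℕ, D) => v 0 + v (n + 1)) ⁻¹' (E n : Set D) := by
    ext v
    simp only [Set.mem_iInter, Set.mem_preimage, SetLike.mem_coe]
    rfl
  rw [h]
  apply isClosed_iInter
  intro n
  have := hfin n
  exact (Submodule.closed_of_finiteDimensional (E n)).preimage ((hcont 0).add (hcont (n + 1)))

end complete

section coords

variable {D : Type} [NormedAddCommGroup D] [NormedSpace ℝ D]

/-- coordinates on `YY E` -/
noncomputable def ec (e : ℕ → (D →L[ℝ] ℝ)) (E : ℕ → Submodule ℝ D) (j : ℕ) : YY E →L[ℝ] ℝ :=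
  (e (Nat.unpair j).2).comp (ev E (Nat.unpair j).1)

theorem ec_apply (e : ℕ → (D →L[ℝ] ℝ)) (E : ℕ → Submodule ℝ D) (j : ℕ) (v : YY E) :
    ec e E j v = e (Nat.unpair j).2 (v.1 (Nat.unpair j).1) := rfl

theorem isCoord_ec (e : ℕ → (D →L[ℝ] ℝ)) (E : ℕ → Submodule ℝ D) (he : IsCoord e) :
    IsCoord (ec e E) where
  le := by
    intro j v
    rw [ec_apply]
    exact (he.le _ _).trans (apply_norm_le v.1 _)
  norm_le := by
    intro v c hc h
    apply norm_le_of v.1 c hc
    intro n
    apply he.norm_le _ c hc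
    intro t
    have := h (Nat.pair n t)
    rwa [ec_apply, Nat.unpair_pair] at this
  tendsto := by
    intro v
    rw [Metric.tendsto_atTop]
    intro ε hε
    obtain ⟨N, hN⟩ := (Metric.tendsto_atTop.1 (tendsto_zero v.1)) ε hε
    have hT : ∀ᶠ t in atTop, ∀ n ∈ Finset.range N, |e t (v.1 n)| < ε := by
      rw [Filter.eventually_all_finset]
      intro n _
      have := (Metric.tendsto_atTop.1 (he.tendsto (v.1 n))) ε hε
      obtain ⟨T, hT⟩ := this
      filter_upwards [eventually_ge_atTop T] with t ht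
      have := hT t ht
      rwa [Real.dist_eq, sub_zero] at this
    obtain ⟨T, hT⟩ := eventually_atTop.1 hT
    refine ⟨(max N T + 1) ^ 2, ?_⟩
    intro j hj
    rw [Real.dist_eq, sub_zero, ec_apply]
    by_cases h1 : N ≤ (Nat.unpair j).1
    · have := hN _ h1
      rw [dist_eq_norm, sub_zero] at this
      exact lt_of_le_of_lt (he.le _ _) this
    · by_cases h2 : T ≤ (Nat.unpair j).2
      · exact hT _ h2 _ (Finset.mem_range.2 (not_le.1 h1))
      · exfalso
        push Not at h1 h2
        have h3 := Nat.pair_lt_max_add_one_sq (Nat.unpair j).1 (Nat.unpair j).2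
        rw [Nat.pair_unpair] at h3
        have h4 : max (Nat.unpair j).1 (Nat.unpair j).2 ≤ max N T :=
          max_le_max h1.le h2.le
        have h5 : (max (Nat.unpair j).1 (Nat.unpair j).2 + 1) ^ 2 ≤ (max N T + 1) ^ 2 :=
          Nat.pow_le_pow_left (by omega) 2
        omega

end coords

section bap

variable {D : Type} [NormedAddCommGroup D] [NormedSpace ℝ D]

/-- the values of a truncated sequence -/
def gval (E : ℕ → Submodule ℝ D) (m : ℕ) (x : (k : Fin (m + 1)) → E k) : ℕ → D
  | 0 => (x (Fin.last m) : D)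
  | k + 1 => if h : k < m + 1 then (x ⟨k, h⟩ : D) - (x (Fin.last m) : D) else 0

theorem gval_tendsto (E : ℕ → Submodule ℝ D) (m : ℕ) (x : (k : Fin (m + 1)) → E k) :
    Tendsto (gval E m x) atTop (𝓝 0) := by
  apply tendsto_of_eventually_zero _ (m + 2)
  intro n hn
  obtain ⟨k, rfl⟩ : ∃ k, n = k + 1 := ⟨n - 1, by omega⟩
  simp only [gval]
  rw [dif_neg (by omega)]

theorem gval_mem (E : ℕ → Submodule ℝ D) (hE : Monotone E) (m : ℕ)
    (x : (k : Fin (m + 1)) → E k) : mkC0 (gval E m x) (gval_tendsto E m x) ∈ YY E := by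
  intro n
  rw [mkC0_apply, mkC0_apply]
  simp only [gval]
  by_cases h : n < m + 1
  · rw [dif_pos h, add_sub_cancel]
    exact (x ⟨n, h⟩).2
  · rw [dif_neg h, add_zero]
    have h1 : (x (Fin.last m) : D) ∈ E m := (x (Fin.last m)).2
    exact hE (by omega) h1

/-- the linear map from finite sequences to `YY E` -/
def GG (E : ℕ → Submodule ℝ D) (hE : Monotone E) (m : ℕ) :
    ((k : Fin (m + 1)) → E k) →ₗ[ℝ] YY E where
  toFun x := ⟨mkC0 (gval E m x) (gval_tendsto E m x), gval_mem E hE m x⟩
  map_add' := by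
    intro x y
    apply Subtype.ext
    apply ZeroAtInftyContinuousMap.ext
    intro n
    rw [Submodule.coe_add, ZeroAtInftyContinuousMap.add_apply, mkC0_apply, mkC0_apply, mkC0_apply]
    cases n with
    | zero => simp [gval]
    | succ k =>
      simp only [gval]
      split_ifs with h
      · simp only [Pi.add_apply, Submodule.coe_add]
        abel
      · rw [add_zero]
  map_smul' := by
    intro c x
    apply Subtype.ext
    apply ZeroAtInftyContinuousMap.ext
    intro n
    rw [RingHom.id_apply, Submodule.coe_smul, ZeroAtInftyContinuousMap.smul_apply, mkC0_apply,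
      mkC0_apply]
    cases n with
    | zero => simp [gval]
    | succ k =>
      simp only [gval]
      split_ifs with h
      · simp only [Pi.smul_apply, Submodule.coe_smul, smul_sub]
      · rw [smul_zero]

/-- the first `m + 1` entries -/
def PP (E : ℕ → Submodule ℝ D) (m : ℕ) : YY E →ₗ[ℝ] ((k : Fin (m + 1)) → E k) where
  toFun v := fun k => ⟨v.1 0 + v.1 ((k : ℕ) + 1), v.2 k⟩
  map_add' := by
    intro u v
    funext k
    apply Subtype.ext
    simp only [Submodule.coe_add, ZeroAtInftyContinuousMap.add_apply, Pi.add_apply]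
    abel
  map_smul' := by
    intro c v
    funext k
    apply Subtype.ext
    simp only [Submodule.coe_smul, ZeroAtInftyContinuousMap.smul_apply, Pi.smul_apply,
      RingHom.id_apply, smul_add]

theorem GP_zero (E : ℕ → Submodule ℝ D) (hE : Monotone E) (m : ℕ) (v : YY E) :
    (GG E hE m (PP E m v)).1 0 = v.1 0 + v.1 (m + 1) := rfl

theorem GP_succ_le (E : ℕ → Submodule ℝ D) (hE : Monotone E) (m : ℕ) (v : YY E) (k : ℕ)
    (hk : k ≤ m) : (GG E hE m (PP E m v)).1 (k + 1) = v.1 (k + 1) - v.1 (m + 1) := by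
  change gval E m (PP E m v) (k + 1) = _
  simp only [gval]
  rw [dif_pos (by omega)]
  change (v.1 0 + v.1 (k + 1)) - (v.1 0 + v.1 (m + 1)) = _
  abel

theorem GP_succ_gt (E : ℕ → Submodule ℝ D) (hE : Monotone E) (m : ℕ) (v : YY E) (k : ℕ)
    (hk : m < k) : (GG E hE m (PP E m v)).1 (k + 1) = 0 := by
  change gval E m (PP E m v) (k + 1) = _
  simp only [gval]
  rw [dif_neg (by omega)]

theorem GP_norm_le (E : ℕ → Submodule ℝ D) (hE : Monotone E) (m : ℕ) (v : YY E) :
    ‖GG E hE m (PP E m v)‖ ≤ 2 * ‖v‖ := by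
  have hv : ∀ n, ‖v.1 n‖ ≤ ‖v‖ := fun n => apply_norm_le v.1 n
  have h0 : 0 ≤ ‖v‖ := norm_nonneg _
  refine norm_le_of (GG E hE m (PP E m v)).1 _ (by positivity) ?_
  intro n
  cases n with
  | zero =>
    rw [GP_zero]
    calc _ ≤ ‖v.1 0‖ + ‖v.1 (m + 1)‖ := norm_add_le _ _
      _ ≤ 2 * ‖v‖ := by linarith [hv 0, hv (m + 1)]
  | succ k =>
    by_cases hk : k ≤ m
    · rw [GP_succ_le E hE m v k hk]
      calc _ ≤ ‖v.1 (k + 1)‖ + ‖v.1 (m + 1)‖ := norm_sub_le _ _
        _ ≤ 2 * ‖v‖ := by linarith [hv (k + 1), hv (m + 1)]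
    · rw [GP_succ_gt E hE m v k (not_le.1 hk), norm_zero]
      positivity

/-- the approximating operators -/
noncomputable def SS (E : ℕ → Submodule ℝ D) (hE : Monotone E) (m : ℕ) : YY E →L[ℝ] YY E :=
  LinearMap.mkContinuous ((GG E hE m).comp (PP E m)) 2 (by
    intro v
    exact GP_norm_le E hE m v)

theorem isBAP_SS (E : ℕ → Submodule ℝ D) (hE : Monotone E)
    (hfin : ∀ n, FiniteDimensional ℝ (E n)) : IsBAP (SS E hE) where
  norm_le := fun m => LinearMap.mkContinuous_norm_le _ zero_le_two _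
  fin := by
    intro m
    have h1 : LinearMap.range (SS E hE m : YY E →ₗ[ℝ] YY E) ≤ LinearMap.range (GG E hE m) := by
      rintro _ ⟨v, rfl⟩
      exact ⟨PP E m v, rfl⟩
    have : FiniteDimensional ℝ (LinearMap.range (GG E hE m)) := inferInstance
    exact Submodule.finiteDimensional_of_le h1
  tendsto := by
    intro v
    rw [Metric.tendsto_atTop]
    intro ε hε
    obtain ⟨N, hN⟩ := (Metric.tendsto_atTop.1 (tendsto_zero v.1)) (ε / 2) (by linarith)
    refine ⟨N, fun m hm => ?_⟩
    rw [dist_eq_norm]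
    have hsm : ∀ n, N ≤ n → ‖v.1 n‖ ≤ ε / 2 := by
      intro n hn
      have := hN n hn
      rw [dist_eq_norm, sub_zero] at this
      exact this.le
    have key : ‖SS E hE m v - v‖ ≤ ε / 2 := by
      refine norm_le_of (SS E hE m v - v).1 _ (by linarith) ?_
      intro n
      change ‖(GG E hE m (PP E m v)).1 n - v.1 n‖ ≤ _
      cases n with
      | zero =>
        rw [GP_zero, add_sub_cancel_left]
        exact hsm _ (by omega)
      | succ k =>
        by_cases hk : k ≤ m
        · rw [GP_succ_le E hE m v k hk, sub_sub_cancel_left, norm_neg]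
          exact hsm _ (by omega)
        · rw [GP_succ_gt E hE m v k (not_le.1 hk), zero_sub, norm_neg]
          exact hsm _ (by omega)
    linarith

end bap

/-- TASK 2a -/
theorem taskYa : TaskYa := by
  intro D _ _ _ e E he hE hfin
  refine ⟨?_, ⟨ec e E, isCoord_ec e E he⟩, ⟨SS E hE, isBAP_SS E hE hfin⟩⟩
  exact (isClosed_YY E hfin).completeSpace_coe

end Pool.Agent.H33R3.NucY
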