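import Pool.Agent.H33R3.NucYa

set_option autoImplicit false
set_option linter.unusedSectionVars false

/-! # Task 2b of the nuclear operator project (MP_91e127_an): the certificate for `YY E`. -/

namespace Pool.Agent.H33R3.NucY

open Filter Topology ZeroAtInfty Pool.Agent.H590R3.Nuc

section cert

variable {D : Type} [NormedAddCommGroup D] [NormedSpace ℝ D]

/-- the values of the element attached to `w` -/
def cval (k : ℕ) (w : D) : ℕ → D
  | 0 => w
  | j + 1 => if j < k then -w else 0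

theorem cval_tendsto (k : ℕ) (w : D) : Tendsto (cval k w) atTop (𝓝 0) := by
  apply tendsto_of_eventually_zero _ (k + 1)
  intro n hn
  obtain ⟨j, rfl⟩ : ∃ j, n = j + 1 := ⟨n - 1, by omega⟩
  simp only [cval]
  rw [if_neg (by omega)]

theorem cval_mem (E : ℕ → Submodule ℝ D) (hE : Monotone E) (k : ℕ) (w : D) (hw : w ∈ E k) :
    mkC0 (cval k w) (cval_tendsto k w) ∈ YY E := by
  intro n
  rw [mkC0_apply, mkC0_apply]
  simp only [cval]
  by_cases h : n < k
  · rw [if_pos h, add_neg_cancel]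
    exact (E n).zero_mem
  · rw [if_neg h, add_zero]
    exact hE (not_lt.1 h) hw

open Classical in
/-- the element of `YY E` attached to `w ∈ E k` -/
noncomputable def cc (E : ℕ → Submodule ℝ D) (hE : Monotone E) (k : ℕ) (w : D) : YY E :=
  if h : w ∈ E k then ⟨mkC0 (cval k w) (cval_tendsto k w), cval_mem E hE k w h⟩ else 0

theorem cc_norm_le (E : ℕ → Submodule ℝ D) (hE : Monotone E) (k : ℕ) (w : D) :
    ‖cc E hE k w‖ ≤ ‖w‖ := by
  unfold cc
  split_ifs with h
  · refine norm_le_of (mkC0 (cval k w) (cval_tendsto k w)) _ (norm_nonneg _) ?_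
    intro n
    rw [mkC0_apply]
    cases n with
    | zero => simp [cval]
    | succ j =>
      simp only [cval]
      split_ifs
      · rw [norm_neg]
      · rw [norm_zero]
        exact norm_nonneg _
  · rw [norm_zero]
    exact norm_nonneg _

theorem cc_zero_apply (E : ℕ → Submodule ℝ D) (hE : Monotone E) (k : ℕ) (w : D) (hw : w ∈ E k) :
    (cc E hE k w).1 0 = w := by
  unfold cc
  rw [dif_pos hw]
  rfl

theorem cc_add (E : ℕ → Submodule ℝ D) (hE : Monotone E) (k : ℕ) (w z : D) (hw : w ∈ E k)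
    (hz : z ∈ E k) : cc E hE k (w + z) = cc E hE k w + cc E hE k z := by
  unfold cc
  rw [dif_pos hw, dif_pos hz, dif_pos ((E k).add_mem hw hz)]
  apply Subtype.ext
  apply ZeroAtInftyContinuousMap.ext
  intro n
  rw [Submodule.coe_add, ZeroAtInftyContinuousMap.add_apply, mkC0_apply, mkC0_apply, mkC0_apply]
  cases n with
  | zero => simp [cval]
  | succ j =>
    simp only [cval]
    split_ifs
    · abel
    · rw [add_zero]

theorem cc_smul (E : ℕ → Submodule ℝ D) (hE : Monotone E) (k : ℕ) (c : ℝ) (w : D)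
    (hw : w ∈ E k) : cc E hE k (c • w) = c • cc E hE k w := by
  unfold cc
  rw [dif_pos hw, dif_pos ((E k).smul_mem c hw)]
  apply Subtype.ext
  apply ZeroAtInftyContinuousMap.ext
  intro n
  rw [Submodule.coe_smul, ZeroAtInftyContinuousMap.smul_apply, mkC0_apply, mkC0_apply]
  cases n with
  | zero => simp [cval]
  | succ j =>
    simp only [cval]
    split_ifs
    · rw [smul_neg]
    · rw [smul_zero]

end cert

section gen

variable {D : Type} [NormedAddCommGroup D] [NormedSpace ℝ D] {Y : Type} [NormedAddCommGroup Y]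
  [NormedSpace ℝ Y]

/-- the properties of the maps `c k` -/
structure IsC (E : ℕ → Submodule ℝ D) (c : ℕ → D → Y) : Prop where
  mono : Monotone E
  norm_le : ∀ k w, ‖c k w‖ ≤ ‖w‖
  add : ∀ k w z, w ∈ E k → z ∈ E k → c k (w + z) = c k w + c k z
  smul : ∀ k (a : ℝ) w, w ∈ E k → c k (a • w) = a • c k w

/-- the limit of `φ (c k w)` along the hyperfilter -/
noncomputable def LL (c : ℕ → D → Y) (φ : Y →L[ℝ] ℝ) (w : D) : ℝ :=
  limUnder (hyperfilter ℕ : Filter ℕ) fun k => φ (c k w)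

variable {E : ℕ → Submodule ℝ D} {c : ℕ → D → Y}

theorem abs_phi_le (hC : IsC E c) (φ : Y →L[ℝ] ℝ) (w : D) (k : ℕ) :
    |φ (c k w)| ≤ ‖φ‖ * ‖w‖ := by
  rw [← Real.norm_eq_abs]
  exact (φ.le_opNorm _).trans (mul_le_mul_of_nonneg_left (hC.norm_le k w) (norm_nonneg _))

theorem LL_tendsto (hC : IsC E c) (φ : Y →L[ℝ] ℝ) (w : D) :
    Tendsto (fun k => φ (c k w)) (hyperfilter ℕ : Filter ℕ) (𝓝 (LL c φ w)) := by
  apply tendsto_nhds_limUnder
  have hK : IsCompact (Set.Icc (-(‖φ‖ * ‖w‖)) (‖φ‖ * ‖w‖)) := isCompact_Icc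
  have h := hK.ultrafilter_le_nhds ((hyperfilter ℕ).map fun k => φ (c k w)) (by
    rw [Ultrafilter.coe_map, Filter.le_principal_iff, Filter.mem_map]
    apply Filter.univ_mem'
    intro k
    exact abs_le.1 (abs_phi_le hC φ w k))
  obtain ⟨x, _, hx⟩ := h
  exact ⟨x, hx⟩

theorem abs_LL_le (hC : IsC E c) (φ : Y →L[ℝ] ℝ) (w : D) :
    |LL c φ w| ≤ ‖φ‖ * ‖w‖ :=
  le_of_tendsto (LL_tendsto hC φ w).abs (Filter.Eventually.of_forall (abs_phi_le hC φ w))

/-- eventually in the hyperfilter, `w` lies in `E k` -/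
theorem eventually_mem (hC : IsC E c) (w : D) (hw : ∃ n, w ∈ E n) :
    ∀ᶠ k in (hyperfilter ℕ : Filter ℕ), w ∈ E k := by
  obtain ⟨n, hn⟩ := hw
  apply Nat.hyperfilter_le_atTop
  filter_upwards [eventually_ge_atTop n] with k hk
  exact hC.mono hk hn

theorem LL_add_right (hC : IsC E c) (φ : Y →L[ℝ] ℝ) (w z : D)
    (hw : ∃ n, w ∈ E n) (hz : ∃ n, z ∈ E n) : LL c φ (w + z) = LL c φ w + LL c φ z := by
  apply tendsto_nhds_unique (LL_tendsto hC φ (w + z))
  apply ((LL_tendsto hC φ w).add (LL_tendsto hC φ z)).congr'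
  filter_upwards [eventually_mem hC w hw, eventually_mem hC z hz] with k h1 h2
  rw [hC.add k w z h1 h2, map_add]

theorem LL_smul_right (hC : IsC E c) (φ : Y →L[ℝ] ℝ) (a : ℝ)
    (w : D) (hw : ∃ n, w ∈ E n) : LL c φ (a • w) = a * LL c φ w := by
  apply tendsto_nhds_unique (LL_tendsto hC φ (a • w))
  apply ((LL_tendsto hC φ w).const_mul a).congr'
  filter_upwards [eventually_mem hC w hw] with k h1
  rw [hC.smul k a w h1, map_smul, smul_eq_mul]

theorem LL_add_left (hC : IsC E c) (φ ψ : Y →L[ℝ] ℝ) (w : D) :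
    LL c (φ + ψ) w = LL c φ w + LL c ψ w := by
  apply tendsto_nhds_unique (LL_tendsto hC (φ + ψ) w)
  exact (LL_tendsto hC φ w).add (LL_tendsto hC ψ w)

theorem LL_smul_left (hC : IsC E c) (a : ℝ) (φ : Y →L[ℝ] ℝ)
    (w : D) : LL c (a • φ) w = a * LL c φ w := by
  apply tendsto_nhds_unique (LL_tendsto hC (a • φ) w)
  exact (LL_tendsto hC φ w).const_mul a

/-- the union of the `E n` -/
def Einf (E : ℕ → Submodule ℝ D) (hE : Monotone E) : Submodule ℝ D where
  carrier := {w | ∃ n, w ∈ E n}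
  add_mem' := by
    rintro w z ⟨n, hn⟩ ⟨m, hm⟩
    exact ⟨max n m, (E _).add_mem (hE (le_max_left n m) hn) (hE (le_max_right n m) hm)⟩
  zero_mem' := ⟨0, (E 0).zero_mem⟩
  smul_mem' := by
    rintro c w ⟨n, hn⟩
    exact ⟨n, (E n).smul_mem c hn⟩

/-- `w ↦ LL φ w` on the union of the `E n` -/
noncomputable def LE (hC : IsC E c) (φ : Y →L[ℝ] ℝ) :
    Einf E hC.mono →L[ℝ] ℝ :=
  LinearMap.mkContinuous
    { toFun := fun w => LL c φ w.1
      map_add' := fun w z => LL_add_right hC φ w.1 z.1 w.2 z.2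
      map_smul' := fun a w => LL_smul_right hC φ a w.1 w.2 } ‖φ‖ (by
    intro w
    exact abs_LL_le hC φ w.1)

theorem exists_ext (hC : IsC E c) (φ : Y →L[ℝ] ℝ) :
    ∃ g : D →L[ℝ] ℝ, ∀ w, (∃ n, w ∈ E n) → g w = LL c φ w := by
  obtain ⟨g, hg, _⟩ := exists_extension_norm_eq (Einf E hC.mono) (LE hC φ)
  exact ⟨g, fun w hw => hg ⟨w, hw⟩⟩

/-- the functional `ζ` attached to `w` -/
noncomputable def zz (hC : IsC E c) (w : D) : (Y →L[ℝ] ℝ) →L[ℝ] ℝ :=
  LinearMap.mkContinuous
    { toFun := fun φ => LL c φ w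
      map_add' := fun φ ψ => LL_add_left hC φ ψ w
      map_smul' := fun a φ => LL_smul_left hC a φ w } ‖w‖ (by
    intro φ
    rw [mul_comm]
    exact abs_LL_le hC φ w)

theorem zz_apply (hC : IsC E c) (w : D) (φ : Y →L[ℝ] ℝ) :
    zz hC w φ = LL c φ w := rfl

theorem zz_norm_le (hC : IsC E c) (w : D) : ‖zz hC w‖ ≤ ‖w‖ :=
  LinearMap.mkContinuous_norm_le _ (norm_nonneg _) _

/-- the certificate on `Y` -/
theorem cert_of {e : ℕ → (D →L[ℝ] ℝ)} {ι : Type} {f : ι → (D →L[ℝ] ℝ)} {y : ι → D}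
    (hD : IsDav e E f y) (hC : IsC E c) (L : Y →L[ℝ] D) (hL : ‖L‖ ≤ 1)
    (hLc : ∀ k w, w ∈ E k → L (c k w) = w) :
    IsCert (fun i => (f i).comp L) (fun i => zz hC (y i)) where
  summable := by
    apply Summable.of_nonneg_of_le _ _ hD.summable
    · intro i
      positivity
    · intro i
      apply mul_le_mul _ (zz_norm_le hC (y i)) (ContinuousLinearMap.opNorm_nonneg _) (norm_nonneg _)
      calc ‖(f i).comp L‖ ≤ ‖f i‖ * ‖L‖ := ContinuousLinearMap.opNorm_comp_le _ _
        _ ≤ ‖f i‖ * 1 := mul_le_mul_of_nonneg_left hL (norm_nonneg _)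
        _ = ‖f i‖ := mul_one _
  trace := by
    have h : ∀ i, zz hC (y i) ((f i).comp L) = f i (y i) := by
      intro i
      rw [zz_apply]
      apply tendsto_nhds_unique (LL_tendsto hC _ (y i))
      apply tendsto_const_nhds.congr'
      filter_upwards [eventually_mem hC (y i) (hD.mem i)] with k hk
      rw [ContinuousLinearMap.comp_apply, hLc k (y i) hk]
    simp only [h]
    exact hD.trace
  zero := by
    intro φ v
    obtain ⟨g, hg⟩ := exists_ext hC φ
    have h : ∀ i, zz hC (y i) φ * ((f i).comp L) v = g (y i) * f i (L v) := by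
      intro i
      rw [zz_apply, hg (y i) (hD.mem i), ContinuousLinearMap.comp_apply]
    simp only [h]
    exact hD.zero g (L v)

end gen

/-- TASK 2b -/
theorem taskYb : TaskYb := by
  intro D _ _ _ e E ι f y hD
  have hC : IsC E (cc E hD.mono) :=
    { mono := hD.mono
      norm_le := cc_norm_le E hD.mono
      add := cc_add E hD.mono
      smul := cc_smul E hD.mono }
  exact ⟨_, _, cert_of hD hC (ev E 0) (ev_norm_le E 0) (cc_zero_apply E hD.mono)⟩

end Pool.Agent.H33R3.NucY
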