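import Mathlib

set_option autoImplicit false

/-!
# The Levi form, its behaviour under holomorphic maps, radial subharmonic functions
-/

namespace Pool.Agent.H33R3.Rossi

open Metric Set Filter Topology

section chain

variable {E F : Type*} [NormedAddCommGroup E] [NormedSpace ℂ E] [NormedSpace ℝ E]
  [IsScalarTower ℝ ℂ E] [NormedAddCommGroup F] [NormedSpace ℂ F] [NormedSpace ℝ F]
  [IsScalarTower ℝ ℂ F]

/-- (four times) the Levi form of `φ` at `z` in the direction `v`. -/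
noncomputable def levi (φ : E → ℝ) (z v : E) : ℝ :=
  fderiv ℝ (fderiv ℝ φ) z v v + fderiv ℝ (fderiv ℝ φ) z (Complex.I • v) (Complex.I • v)

lemma levi_congr {φ ψ : E → ℝ} {z : E} (h : φ =ᶠ[𝓝 z] ψ) (v : E) : levi φ z v = levi ψ z v := by
  have h1 : fderiv ℝ φ =ᶠ[𝓝 z] fderiv ℝ ψ := h.fderiv
  unfold levi
  rw [h1.fderiv_eq]

lemma second_comp {G : E → F} {u : F → ℝ} {z : E} (hG : ContDiffAt ℂ 2 G z)
    (hu : ContDiffAt ℝ 2 u (G z)) (w : E) :
    fderiv ℝ (fderiv ℝ (fun x => u (G x))) z w w =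
      fderiv ℝ (fderiv ℝ u) (G z) (fderiv ℂ G z w) (fderiv ℂ G z w) +
        fderiv ℝ u (G z) (fderiv ℂ (fderiv ℂ G) z w w) := by
  have hGr : ContDiffAt ℝ 2 G z := hG.restrict_scalars ℝ
  have hφ : ContDiffAt ℝ 2 (fun x => u (G x)) z := hu.comp z hGr
  have hφd : DifferentiableAt ℝ (fderiv ℝ (fun x => u (G x))) z :=
    (hφ.fderiv_right (m := 1) (by norm_num)).differentiableAt one_ne_zero
  have e1 : fderiv ℝ (fderiv ℝ (fun x => u (G x))) z w w =
      fderiv ℝ (fun y => fderiv ℝ (fun x => u (G x)) y w) z w := by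
    rw [fderiv_clm_apply hφd (differentiableAt_const w)]
    simp
  have hGc : ContinuousAt G z := hG.continuousAt
  have hev : (fun y => fderiv ℝ (fun x => u (G x)) y w) =ᶠ[𝓝 z]
      (fun y => fderiv ℝ u (G y) (fderiv ℂ G y w)) := by
    filter_upwards [hG.eventually (by simp), hGc.eventually (hu.eventually (by simp))] with y h1 h2
    have h3 : HasFDerivAt G ((fderiv ℂ G y).restrictScalars ℝ) y :=
      ((h1.differentiableAt two_ne_zero).hasFDerivAt).restrictScalars ℝ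
    have h4 : HasFDerivAt u (fderiv ℝ u (G y)) (G y) :=
      (h2.differentiableAt two_ne_zero).hasFDerivAt
    have h5 := (h4.comp y h3).fderiv
    have h6 : fderiv ℝ (fun x => u (G x)) y =
        (fderiv ℝ u (G y)).comp ((fderiv ℂ G y).restrictScalars ℝ) := h5
    rw [h6]
    rfl
  rw [e1, hev.fderiv_eq]
  have hB : HasFDerivAt (fun y => fderiv ℝ u (G y))
      ((fderiv ℝ (fderiv ℝ u) (G z)).comp ((fderiv ℂ G z).restrictScalars ℝ)) z := by
    have h3 : HasFDerivAt G ((fderiv ℂ G z).restrictScalars ℝ) z :=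
      ((hG.differentiableAt two_ne_zero).hasFDerivAt).restrictScalars ℝ
    have h4 : HasFDerivAt (fderiv ℝ u) (fderiv ℝ (fderiv ℝ u) (G z)) (G z) :=
      ((hu.fderiv_right (m := 1) (by norm_num)).differentiableAt one_ne_zero).hasFDerivAt
    exact h4.comp z h3
  have hA : HasFDerivAt (fderiv ℂ G) (fderiv ℂ (fderiv ℂ G) z) z :=
    ((hG.fderiv_right (m := 1) (by norm_num)).differentiableAt one_ne_zero).hasFDerivAt
  have hc : HasFDerivAt (fun y => fderiv ℂ G y w)
      (((fderiv ℂ (fderiv ℂ G) z).flip w).restrictScalars ℝ) z := by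
    have h1 := hA.clm_apply (hasFDerivAt_const w z)
    have h2 := h1.restrictScalars ℝ
    convert! h2 using 1
    ext v
    simp
  have := (hB.clm_apply hc).fderiv
  rw [this]
  simp
  ring

/-- Levi form of a composition with a holomorphic map. -/
lemma levi_comp {G : E → F} {u : F → ℝ} {z : E} (hG : ContDiffAt ℂ 2 G z)
    (hu : ContDiffAt ℝ 2 u (G z)) (v : E) :
    levi (fun x => u (G x)) z v = levi u (G z) (fderiv ℂ G z v) := by
  unfold levi
  rw [second_comp hG hu, second_comp hG hu]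
  have h1 : fderiv ℂ G z (Complex.I • v) = Complex.I • fderiv ℂ G z v := by simp
  have h2 : fderiv ℂ (fderiv ℂ G) z (Complex.I • v) (Complex.I • v) =
      -fderiv ℂ (fderiv ℂ G) z v v := by
    simp only [map_smul, smul_smul, smul_apply]
    simp
  rw [h1, h2]
  simp
  ring

end chain

/-- Levi form on `ℂ` (the Laplacian): behaviour under complex multiplication. -/
lemma levi_smul (φ : ℂ → ℝ) (z : ℂ) (hφ : ContDiffAt ℝ 2 φ z) (a : ℂ) :
    levi φ z a = ‖a‖ ^ 2 * levi φ z 1 := by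
  unfold levi
  set B := fderiv ℝ (fderiv ℝ φ) z with hB
  have hsym : ∀ v w, B v w = B w v := by
    intro v w
    have := (hφ.isSymmSndFDerivAt (by simp))
    exact this v w
  have e1 : a = a.re • (1 : ℂ) + a.im • Complex.I := by
    apply Complex.ext <;> simp
  have e2 : Complex.I • a = (-a.im) • (1 : ℂ) + a.re • Complex.I := by
    apply Complex.ext <;> simp
  have e3 : (Complex.I • (1 : ℂ)) = Complex.I := by simp
  have hn : ‖a‖ ^ 2 = a.re ^ 2 + a.im ^ 2 := by
    rw [← Complex.normSq_eq_norm_sq, Complex.normSq_apply]; ring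
  have h1 : B a a = a.re ^ 2 * B 1 1 + 2 * a.re * a.im * B 1 Complex.I +
      a.im ^ 2 * B Complex.I Complex.I := by
    conv_lhs => rw [e1]
    simp only [map_add, map_smul, ContinuousLinearMap.add_apply, ContinuousLinearMap.smul_apply,
      smul_eq_mul]
    rw [hsym Complex.I 1]
    ring
  have h2 : B (Complex.I • a) (Complex.I • a) = a.im ^ 2 * B 1 1 - 2 * a.re * a.im * B 1 Complex.I
      + a.re ^ 2 * B Complex.I Complex.I := by
    rw [e2]
    simp only [map_add, map_smul, ContinuousLinearMap.add_apply, ContinuousLinearMap.smul_apply,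
      smul_eq_mul]
    rw [hsym Complex.I 1]
    ring
  rw [h1, h2, e3, hn]
  ring

/-- A smooth radial function on `ℂ` whose Laplacian is nonnegative, positive exactly on the open
annulus `a < |ζ| < b`. -/
lemma exists_radial {a b : ℝ} (ha : 0 < a) (hab : a < b) :
    ∃ Θ : ℂ → ℝ, ContDiff ℝ (⊤ : ℕ∞) Θ ∧ (∀ ζ v, 0 ≤ levi Θ ζ v) ∧
      (∀ ζ v, ¬ (a < ‖ζ‖ ∧ ‖ζ‖ < b) → levi Θ ζ v = 0) ∧
      (∀ ζ v, a < ‖ζ‖ → ‖ζ‖ < b → levi Θ ζ v = 0 → v = 0) := by
  -- the bump
  set β : ℝ → ℝ := fun s => expNegInvGlue (s - a ^ 2) * expNegInvGlue (b ^ 2 - s) with hβ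
  have hβs : ContDiff ℝ (⊤ : ℕ∞) β := by
    apply ContDiff.mul
    · exact expNegInvGlue.contDiff.comp (contDiff_id.sub contDiff_const)
    · exact expNegInvGlue.contDiff.comp (contDiff_const.sub contDiff_id)
  have hβ0 : ∀ s, 0 ≤ β s := fun s => mul_nonneg (expNegInvGlue.nonneg _) (expNegInvGlue.nonneg _)
  have hβpos : ∀ s, a ^ 2 < s → s < b ^ 2 → 0 < β s := fun s h1 h2 =>
    mul_pos (expNegInvGlue.pos_of_pos (by linarith)) (expNegInvGlue.pos_of_pos (by linarith))
  have hβz1 : ∀ s, s ≤ a ^ 2 → β s = 0 := fun s h => by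
    simp only [hβ]; rw [expNegInvGlue.zero_of_nonpos (by linarith), zero_mul]
  have hβz2 : ∀ s, b ^ 2 ≤ s → β s = 0 := fun s h => by
    simp only [hβ]; rw [expNegInvGlue.zero_of_nonpos (x := b ^ 2 - s) (by linarith), mul_zero]
  have hβc : Continuous β := hβs.continuous
  -- primitive
  set η : ℝ → ℝ := fun s => ∫ r in (0 : ℝ)..s, β r with hη
  have hηd : ∀ s, HasDerivAt η (β s) s := fun s =>
    intervalIntegral.integral_hasDerivAt_right (hβc.intervalIntegrable _ _)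
      (hβc.stronglyMeasurableAtFilter _ _) hβc.continuousAt
  have hηs : ContDiff ℝ (⊤ : ℕ∞) η := by
    rw [contDiff_infty_iff_deriv]
    refine ⟨fun s => (hηd s).differentiableAt, ?_⟩
    have : deriv η = β := funext fun s => (hηd s).deriv
    rw [this]
    exact hβs
  have hηz : ∀ s, s ≤ a ^ 2 → η s = 0 := by
    intro s hs
    simp only [hη]
    rw [intervalIntegral.integral_congr (g := fun _ => (0 : ℝ))]
    · simp
    · intro r hr
      apply hβz1
      rcases le_total 0 s with h | h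
      · rw [uIcc_of_le h] at hr; exact hr.2.trans hs
      · rw [uIcc_of_ge h] at hr; exact hr.2.trans (by positivity)
  set θ : ℝ → ℝ := fun s => η s / s with hθ
  have hθs : ContDiff ℝ (⊤ : ℕ∞) θ := by
    rw [contDiff_iff_contDiffAt]
    intro s
    rcases lt_or_ge s (a ^ 2) with h | h
    · have : θ =ᶠ[𝓝 s] fun _ => 0 := by
        filter_upwards [gt_mem_nhds h] with r hr
        simp only [hθ]
        rw [hηz r (le_of_lt hr), zero_div]
      exact contDiffAt_const.congr_of_eventuallyEq this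
    · have hs : s ≠ 0 := (lt_of_lt_of_le (by positivity) h).ne'
      exact hηs.contDiffAt.div contDiffAt_id hs
  have hθc : Continuous θ := hθs.continuous
  have hsθ : ∀ s, s * θ s = η s := by
    intro s
    rcases eq_or_ne s 0 with h | h
    · subst h
      rw [zero_mul, hηz 0 (by positivity)]
    · simp only [hθ]; field_simp
  have hθd : ∀ s, s * deriv θ s + θ s = β s := by
    intro s
    have h1 : HasDerivAt (fun s => s * θ s) (1 * θ s + s * deriv θ s) s :=
      (hasDerivAt_id s).mul (hθs.differentiable (by simp) s).hasDerivAt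
    have h2 : HasDerivAt (fun s => s * θ s) (β s) s := by
      have : (fun s => s * θ s) = η := funext hsθ
      rw [this]; exact hηd s
    have := h1.unique h2
    linarith
  set χ : ℝ → ℝ := fun s => ∫ r in (0 : ℝ)..s, θ r with hχ
  have hχd : ∀ s, HasDerivAt χ (θ s) s := fun s =>
    intervalIntegral.integral_hasDerivAt_right (hθc.intervalIntegrable _ _)
      (hθc.stronglyMeasurableAtFilter _ _) hθc.continuousAt
  have hχs : ContDiff ℝ (⊤ : ℕ∞) χ := by
    rw [contDiff_infty_iff_deriv]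
    refine ⟨fun s => (hχd s).differentiableAt, ?_⟩
    have : deriv χ = θ := funext fun s => (hχd s).deriv
    rw [this]
    exact hθs
  -- the radial function
  set Θ : ℂ → ℝ := fun ζ => χ (‖ζ‖ ^ 2) with hΘ
  have hΘs : ContDiff ℝ (⊤ : ℕ∞) Θ := hχs.comp (contDiff_norm_sq ℝ)
  have hfd : ∀ ζ : ℂ, HasFDerivAt Θ ((2 * θ (‖ζ‖ ^ 2)) • (innerSL ℝ ζ)) ζ := by
    intro ζ
    have h1 : HasFDerivAt (fun ζ : ℂ => ‖ζ‖ ^ 2) (2 • (innerSL ℝ ζ)) ζ :=
      (hasStrictFDerivAt_norm_sq ζ).hasFDerivAt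
    have h2 := (hχd (‖ζ‖ ^ 2)).comp_hasFDerivAt ζ h1
    convert! h2 using 1
    ext v
    simp
    ring
  have hfd' : fderiv ℝ Θ = fun ζ : ℂ => (2 * θ (‖ζ‖ ^ 2)) • (innerSL ℝ ζ) :=
    funext fun ζ => (hfd ζ).fderiv
  have hsecond : ∀ ζ v : ℂ, fderiv ℝ (fderiv ℝ Θ) ζ v v =
      4 * deriv θ (‖ζ‖ ^ 2) * (inner ℝ ζ v) ^ 2 + 2 * θ (‖ζ‖ ^ 2) * ‖v‖ ^ 2 := by
    intro ζ v
    have hc : HasFDerivAt (fun ζ : ℂ => 2 * θ (‖ζ‖ ^ 2))
        ((2 * deriv θ (‖ζ‖ ^ 2)) • (2 • (innerSL ℝ ζ))) ζ := by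
      have h1 : HasFDerivAt (fun ζ : ℂ => ‖ζ‖ ^ 2) (2 • (innerSL ℝ ζ)) ζ :=
        (hasStrictFDerivAt_norm_sq ζ).hasFDerivAt
      have h2 := (((hθs.differentiable (by simp) (‖ζ‖ ^ 2)).hasDerivAt).const_mul
        2).comp_hasFDerivAt ζ h1
      exact h2
    have hL : HasFDerivAt (fun ζ : ℂ => (innerSL ℝ ζ : ℂ →L[ℝ] ℝ)) (innerSL ℝ) ζ :=
      (innerSL ℝ : ℂ →L[ℝ] ℂ →L[ℝ] ℝ).hasFDerivAt
    rw [hfd']
    rw [(hc.fun_smul hL).fderiv]
    simp only [ContinuousLinearMap.add_apply, ContinuousLinearMap.smul_apply,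
      ContinuousLinearMap.smulRight_apply, innerSL_apply_apply, smul_eq_mul, nsmul_eq_mul,
      real_inner_self_eq_norm_sq]
    have hvv : ((innerSL ℝ : ℂ →L[ℝ] ℂ →L[ℝ] ℝ) v) v = ‖v‖ ^ 2 := real_inner_self_eq_norm_sq v
    push_cast
    linear_combination 2 * θ (‖ζ‖ ^ 2) * hvv
  have hlevi : ∀ ζ v : ℂ, levi Θ ζ v = 4 * β (‖ζ‖ ^ 2) * ‖v‖ ^ 2 := by
    intro ζ v
    unfold levi
    rw [hsecond, hsecond, ← hθd (‖ζ‖ ^ 2)]
    have h1 : (inner ℝ ζ v) ^ 2 + (inner ℝ ζ (Complex.I • v)) ^ 2 = ‖ζ‖ ^ 2 * ‖v‖ ^ 2 := by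
      rw [Complex.inner, Complex.inner, ← Complex.normSq_eq_norm_sq, ← Complex.normSq_eq_norm_sq,
        Complex.normSq_apply, Complex.normSq_apply]
      simp
      ring
    have h2 : ‖Complex.I • v‖ = ‖v‖ := by simp
    rw [h2]
    linear_combination 4 * deriv θ (‖ζ‖ ^ 2) * h1
  refine ⟨Θ, hΘs, ?_, ?_, ?_⟩
  · intro ζ v
    rw [hlevi]
    have := hβ0 (‖ζ‖ ^ 2)
    positivity
  · intro ζ v h
    rw [hlevi]
    have : β (‖ζ‖ ^ 2) = 0 := by
      by_cases h1 : a < ‖ζ‖
      · apply hβz2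
        have : b ≤ ‖ζ‖ := by
          by_contra h2
          exact h ⟨h1, not_le.1 h2⟩
        have hb : 0 < b := ha.trans hab
        gcongr
      · apply hβz1
        have := not_lt.1 h1
        gcongr
    rw [this]; ring
  · intro ζ v h1 h2 h3
    rw [hlevi] at h3
    have h4 : 0 < β (‖ζ‖ ^ 2) := by
      apply hβpos
      · gcongr
      · gcongr
    have h5 : ‖v‖ ^ 2 = 0 := by
      rcases mul_eq_zero.1 h3 with h | h
      · exfalso; linarith
      · exact h
    exact norm_eq_zero.1 (pow_eq_zero_iff two_ne_zero |>.1 h5)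

end Pool.Agent.H33R3.Rossi
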