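import Mathlib

set_option autoImplicit false

/-!
# A Wermer type set without analytic discs
-/

namespace Pool.Agent.H33R3.Rossi

open Metric Set Filter Topology

/-- centres -/
noncomputable def cen (k : ℕ) : ℂ := TopologicalSpace.denseSeq ℂ (Nat.unpair k).1

/-- radii -/
noncomputable def rad (k : ℕ) : ℝ := 1 / (((Nat.unpair k).2 : ℝ) + 1)

lemma rad_pos (k : ℕ) : 0 < rad k := by unfold rad; positivity

lemma exists_cen {O : Set ℂ} (hO : IsOpen O) (hne : O.Nonempty) :
    ∃ k, closedBall (cen k) (rad k) ⊆ O := by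
  obtain ⟨_, hx, ⟨i, rfl⟩⟩ := (TopologicalSpace.denseRange_denseSeq ℂ).inter_open_nonempty O hO hne
  obtain ⟨ε, hε, hb⟩ := Metric.isOpen_iff.1 hO _ hx
  obtain ⟨m, hm⟩ := exists_nat_one_div_lt hε
  refine ⟨Nat.pair i m, ?_⟩
  unfold cen rad
  rw [Nat.unpair_pair]
  exact (closedBall_subset_ball hm).trans hb

/-- size of the perturbation -/
noncomputable def dl (r : ℝ) (k : ℕ) : ℝ := r ^ 2 / (4 * (1 + ‖cen k‖))

/-- the radii of the tubes -/
noncomputable def rr : ℕ → ℝ
  | 0 => 1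
  | k + 1 => min (min (rr k ^ 2 / 4) (dl (rr k) k * rad k / 4)) ((1 / ((k : ℝ) + 2)) ^ (2 ^ (k + 1)))

/-- the polynomials -/
noncomputable def PP : ℕ → ℂ × ℂ → ℂ
  | 0 => fun z => z.2
  | k + 1 => fun z => PP k z ^ 2 - (dl (rr k) k : ℂ) * (z.1 - cen k)

lemma dl_pos {r : ℝ} (hr : 0 < r) (k : ℕ) : 0 < dl r k := by unfold dl; positivity

lemma rr_pos (k : ℕ) : 0 < rr k := by
  induction k with
  | zero => simp [rr]
  | succ k ih =>
    simp only [rr]
    have h1 := dl_pos ih k
    have h2 := rad_pos k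
    refine lt_min (lt_min ?_ ?_) ?_ <;> positivity

lemma rr_succ_le1 (k : ℕ) : rr (k + 1) ≤ rr k ^ 2 / 4 := by
  simp only [rr]
  exact (min_le_left _ _).trans (min_le_left _ _)

lemma rr_succ_le2 (k : ℕ) : rr (k + 1) ≤ dl (rr k) k * rad k / 4 := by
  simp only [rr]
  exact (min_le_left _ _).trans (min_le_right _ _)

lemma rr_succ_le3 (k : ℕ) : rr (k + 1) ≤ (1 / ((k : ℝ) + 2)) ^ (2 ^ (k + 1)) := by
  simp only [rr]
  exact min_le_right _ _

lemma PP_contDiff (k : ℕ) : ContDiff ℂ (⊤ : ℕ∞) (PP k) := by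
  induction k with
  | zero => simp only [PP]; exact contDiff_snd
  | succ k ih =>
    simp only [PP]
    exact (ih.pow 2).sub (contDiff_const.mul (contDiff_fst.sub contDiff_const))

lemma PP_diff (k : ℕ) : Differentiable ℂ (PP k) := (PP_contDiff k).differentiable (by simp)

lemma nested_step {z : ℂ × ℂ} (hz : ‖z.1‖ ≤ 1) {k : ℕ} (h : ‖PP (k + 1) z‖ ≤ rr (k + 1)) :
    ‖PP k z‖ ≤ 3 / 4 * rr k := by
  have h0 := rr_pos k
  have h1 : ‖(dl (rr k) k : ℂ) * (z.1 - cen k)‖ ≤ rr k ^ 2 / 4 := by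
    rw [norm_mul, Complex.norm_real, Real.norm_of_nonneg (dl_pos h0 k).le]
    have h2 : ‖z.1 - cen k‖ ≤ 1 + ‖cen k‖ := (norm_sub_le _ _).trans (by linarith)
    calc dl (rr k) k * ‖z.1 - cen k‖ ≤ dl (rr k) k * (1 + ‖cen k‖) := by
          gcongr; exact (dl_pos h0 k).le
      _ = rr k ^ 2 / 4 := by unfold dl; field_simp
  have h2 : ‖PP k z ^ 2‖ ≤ rr k ^ 2 / 2 := by
    have e : PP k z ^ 2 = PP (k + 1) z + (dl (rr k) k : ℂ) * (z.1 - cen k) := by
      simp only [PP]; ring
    rw [e]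
    refine (norm_add_le _ _).trans ?_
    have := rr_succ_le1 k
    linarith
  rw [norm_pow] at h2
  have h3 : ‖PP k z‖ ^ 2 ≤ (3 / 4 * rr k) ^ 2 := by nlinarith [sq_nonneg (rr k)]
  exact le_of_sq_le_sq h3 (by positivity)

lemma nested {z : ℂ × ℂ} (hz : ‖z.1‖ ≤ 1) {k m : ℕ} (hkm : k < m) (h : ‖PP m z‖ ≤ rr m) :
    ‖PP k z‖ ≤ 3 / 4 * rr k := by
  induction m, hkm using Nat.le_induction with
  | base => exact nested_step hz h
  | succ n hn ih =>
    apply ih
    have h1 := nested_step hz h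
    have := rr_pos n
    linarith

lemma PP_surj (k : ℕ) (x w : ℂ) : ∃ y, PP k (x, y) = w := by
  induction k generalizing w with
  | zero => exact ⟨w, rfl⟩
  | succ k ih =>
    obtain ⟨v, hv⟩ := IsAlgClosed.exists_pow_nat_eq (w + (dl (rr k) k : ℂ) * (x - cen k))
      (n := 2) (by norm_num)
    obtain ⟨y, hy⟩ := ih v
    refine ⟨y, ?_⟩
    simp only [PP]
    rw [hy, hv]
    ring

/-- a point of the Wermer set over `x = 0`. -/
lemma exists_point : ∃ y : ℂ, ∀ k, ‖PP k (0, y)‖ ≤ rr k := by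
  set S : ℕ → Set ℂ := fun k => {y | ‖PP k (0, y)‖ ≤ rr k} with hS
  have hcont : ∀ k, Continuous fun y : ℂ => ‖PP k (0, y)‖ := fun k =>
    ((PP_diff k).continuous.comp (by fun_prop : Continuous fun y : ℂ => ((0, y) : ℂ × ℂ))).norm
  have hcl : ∀ k, IsClosed (S k) := fun k => isClosed_le (hcont k) continuous_const
  have hmono : ∀ k, S (k + 1) ⊆ S k := fun k y hy => by
    have := nested_step (z := (0, y)) (by simp) hy
    have h0 := rr_pos k
    simp only [hS, mem_ofPred_eq]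
    linarith
  have hne : ∀ k, (S k).Nonempty := fun k => by
    obtain ⟨y, hy⟩ := PP_surj k 0 0
    exact ⟨y, by simp only [hS, mem_ofPred_eq, hy, norm_zero]; exact (rr_pos k).le⟩
  have hc0 : IsCompact (S 0) := by
    have : S 0 = closedBall 0 1 := by
      ext y
      simp [hS, PP, rr]
    rw [this]
    exact isCompact_closedBall _ _
  obtain ⟨y, hy⟩ := IsCompact.nonempty_iInter_of_sequence_nonempty_isCompact_isClosed S hmono hne
    hc0 hcl
  exact ⟨y, fun k => mem_iInter.1 hy k⟩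

/-- there is no holomorphic square root of a small perturbation of `δ (s - a)`. -/
lemma sqrt_absurd {h : ℂ → ℂ} {O : Set ℂ} (hO : IsOpen O) (hh : DifferentiableOn ℂ h O) {a : ℂ}
    {η δ r : ℝ} (hη : 0 < η) (hδ : 0 < δ) (hr : r ≤ δ * η / 4) (hsub : closedBall a η ⊆ O)
    (hb : ∀ s ∈ closedBall a η, ‖h s ^ 2 - (δ : ℂ) * (s - a)‖ ≤ r) : False := by
  have hr0 : 0 ≤ r := (norm_nonneg _).trans (hb a (mem_closedBall_self hη.le))
  -- a zero of `h`
  obtain ⟨s₁, hs₁, hz⟩ : ∃ s ∈ closedBall a η, h s = 0 := by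
    by_contra hcon
    push Not at hcon
    have hd : DiffContOnCl ℂ (fun s => (h s ^ 2)⁻¹) (ball a η) := by
      apply DifferentiableOn.diffContOnCl
      rw [closure_ball a hη.ne']
      exact ((hh.mono hsub).pow 2).inv fun s hs => pow_ne_zero 2 (hcon s hs)
    have h1 := Complex.norm_le_of_forall_mem_frontier_norm_le isBounded_ball hd
      (C := (δ * η - r)⁻¹) (by
        intro s hs
        rw [frontier_ball a hη.ne'] at hs
        have hs' : ‖s - a‖ = η := by rw [← dist_eq_norm]; exact hs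
        have h2 := hb s (sphere_subset_closedBall hs)
        have h3 : δ * η - r ≤ ‖h s ^ 2‖ := by
          have h4 : ‖(δ : ℂ) * (s - a)‖ = δ * η := by
            rw [norm_mul, hs', Complex.norm_real, Real.norm_of_nonneg hδ.le]
          have h5 : ‖(δ : ℂ) * (s - a)‖ ≤ ‖h s ^ 2‖ + ‖h s ^ 2 - (δ : ℂ) * (s - a)‖ := by
            have := norm_sub_le (h s ^ 2) (h s ^ 2 - (δ : ℂ) * (s - a))
            simpa using this
          linarith
        rw [norm_inv]
        apply inv_anti₀ _ h3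
        have : 0 < δ * η := by positivity
        linarith) (subset_closure (mem_ball_self hη) : a ∈ closure (ball a η))
    have h2 := hb a (mem_closedBall_self hη.le)
    rw [sub_self, mul_zero, sub_zero] at h2
    rw [norm_inv] at h1
    have h3 : 0 < ‖h a ^ 2‖ := norm_pos_iff.2 (pow_ne_zero 2 (hcon a (mem_closedBall_self hη.le)))
    have h4 : 0 < δ * η := by positivity
    have h5 : δ * η - r ≤ ‖h a ^ 2‖ := (inv_le_inv₀ h3 (by linarith)).1 h1
    linarith
  have h1 : δ * ‖s₁ - a‖ ≤ r := by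
    have := hb s₁ hs₁
    rw [hz] at this
    simpa [abs_of_pos hδ] using this
  have h2 : ‖s₁ - a‖ ≤ η / 4 := by
    have : δ * ‖s₁ - a‖ ≤ δ * (η / 4) := by linarith
    exact le_of_mul_le_mul_left this hδ
  have hin : closedBall s₁ (η / 2) ⊆ closedBall a η := by
    intro s hs
    rw [mem_closedBall] at hs ⊢
    have := dist_triangle s s₁ a
    rw [dist_eq_norm s₁ a] at this
    linarith
  set e : ℂ → ℂ := fun s => h s ^ 2 - (δ : ℂ) * (s - a) with he
  have hed : DiffContOnCl ℂ e (ball s₁ (η / 2)) := by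
    apply DifferentiableOn.diffContOnCl
    rw [closure_ball s₁ (by positivity)]
    have := hh.mono (hin.trans hsub)
    fun_prop
  have h3 := Complex.norm_deriv_le_of_forall_mem_sphere_norm_le (c := s₁) (R := η / 2) (C := r)
    (f := e) (by positivity) hed fun s hs => hb s (hin (sphere_subset_closedBall hs))
  have hs₁O : s₁ ∈ O := hsub hs₁
  have h4 : deriv e s₁ = -(δ : ℂ) := by
    have h5 : HasDerivAt h (deriv h s₁) s₁ :=
      ((hh s₁ hs₁O).differentiableAt (hO.mem_nhds hs₁O)).hasDerivAt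
    have h6 := (h5.pow 2).sub (((hasDerivAt_id s₁).sub_const a).const_mul (δ : ℂ))
    have h7 : HasDerivAt e (((2 : ℕ) : ℂ) * h s₁ ^ (2 - 1) * deriv h s₁ - (δ : ℂ) * 1) s₁ := h6
    rw [h7.deriv, hz]
    simp
  rw [h4, norm_neg, Complex.norm_real, Real.norm_of_nonneg hδ.le, le_div_iff₀ (by positivity)] at h3
  have : 0 < δ * η := by positivity
  linarith

/-- reversed polynomials -/
noncomputable def RR (x c : ℂ) : ℕ → ℂ → ℂ
  | 0 => fun z => 1 + c * z
  | k + 1 => fun z => RR x c k z ^ 2 - (dl (rr k) k : ℂ) * (x - cen k) * z ^ (2 ^ (k + 1))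

lemma RR_zero (x c : ℂ) (k : ℕ) : RR x c k 0 = 1 := by
  induction k with
  | zero => simp [RR]
  | succ k ih => simp [RR, ih]

lemma RR_diff (x c : ℂ) (k : ℕ) : Differentiable ℂ (RR x c k) := by
  induction k with
  | zero => simp only [RR]; fun_prop
  | succ k ih => simp only [RR]; fun_prop

lemma RR_eq (x c : ℂ) (k : ℕ) {z : ℂ} (hz : z ≠ 0) :
    RR x c k z = z ^ (2 ^ k) * PP k (x, c + 1 / z) := by
  induction k with
  | zero => simp only [RR, PP]; field_simp; simp; left; ring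
  | succ k ih =>
    simp only [RR, PP]
    rw [ih, pow_succ 2 k, pow_mul]
    ring

/-- the vertical slices of the Wermer set contain no disc. -/
lemma no_vertical (x c : ℂ) {ρ : ℝ} (hρ : 0 < ρ)
    (h : ∀ y ∈ closedBall c ρ, ∀ k, ‖PP k (x, y)‖ ≤ rr k) : False := by
  have key : ∀ k, ρ ^ (2 ^ k) ≤ rr k := by
    intro k
    have hρ' : 0 < 1 / ρ := by positivity
    have h1 := Complex.norm_le_of_forall_mem_frontier_norm_le (isBounded_ball (x := (0 : ℂ))
      (r := 1 / ρ)) (f := RR x c k) (RR_diff x c k).diffContOnCl (C := (1 / ρ) ^ (2 ^ k) * rr k) (by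
        intro z hz
        rw [frontier_ball _ hρ'.ne'] at hz
        have hz' : ‖z‖ = 1 / ρ := by simpa using hz
        have hz0 : z ≠ 0 := by
          rintro rfl
          rw [norm_zero] at hz'
          linarith
        rw [RR_eq x c k hz0, norm_mul, norm_pow, hz']
        gcongr
        apply h
        rw [mem_closedBall, dist_eq_norm]
        simp [hz'])
      (subset_closure (mem_ball_self hρ') : (0 : ℂ) ∈ closure (ball 0 (1 / ρ)))
    rw [RR_zero, norm_one, div_pow, one_pow, div_mul_eq_mul_div, one_mul,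
      le_div_iff₀ (by positivity), one_mul] at h1
    exact h1
  obtain ⟨m, hm⟩ := exists_nat_one_div_lt hρ
  have h1 := key (m + 1)
  have h2 := rr_succ_le3 m
  have h3 : (1 / ((m : ℝ) + 2)) < ρ := by
    refine lt_of_le_of_lt ?_ hm
    gcongr
    linarith
  have h4 : (1 / ((m : ℝ) + 2)) ^ (2 ^ (m + 1)) < ρ ^ (2 ^ (m + 1)) := by
    apply pow_lt_pow_left₀ h3 (by positivity)
    positivity
  linarith

/-- a holomorphic function on the disc, not constant there, has a nonvanishing derivative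
somewhere -/
lemma exists_deriv_ne_ball {X : ℂ → ℂ} (hX : DifferentiableOn ℂ X (ball 0 1))
    (hn : ∃ t ∈ ball (0 : ℂ) 1, X t ≠ X 0) : ∃ t ∈ ball (0 : ℂ) 1, deriv X t ≠ 0 := by
  by_contra hcon
  push Not at hcon
  obtain ⟨t, ht, hne⟩ := hn
  exact hne (isOpen_ball.is_const_of_deriv_eq_zero (convex_ball _ _).isPreconnected hX
    (fun z hz => hcon z hz) ht (mem_ball_self one_pos))

/-- **No analytic discs** in the Wermer set. -/
theorem no_disc {g : ℂ → ℂ × ℂ} (hg : DifferentiableOn ℂ g (ball 0 1))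
    (hK : ∀ t ∈ ball (0 : ℂ) 1, ∀ k, ‖PP k (g t)‖ ≤ rr k) :
    ∀ t ∈ ball (0 : ℂ) 1, g t = g 0 := by
  have hX : DifferentiableOn ℂ (fun t => (g t).1) (ball 0 1) := hg.fst
  have hY : DifferentiableOn ℂ (fun t => (g t).2) (ball 0 1) := hg.snd
  have hXc : ∀ t ∈ ball (0 : ℂ) 1, (g t).1 = (g 0).1 := by
    by_contra hcon
    push Not at hcon
    obtain ⟨t₀, ht₀, hne⟩ := exists_deriv_ne_ball hX hcon
    set X : ℂ → ℂ := fun t => (g t).1 with hXdef
    have hXa : AnalyticAt ℂ X t₀ := hX.analyticAt (isOpen_ball.mem_nhds ht₀)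
    have hcd : ContDiffAt ℂ 1 X t₀ := hXa.contDiffAt
    have hfd : HasFDerivAt X
        ((ContinuousLinearEquiv.unitsEquivAut ℂ (Units.mk0 _ hne) : ℂ ≃L[ℂ] ℂ) : ℂ →L[ℂ] ℂ)
        t₀ := by
      have := hXa.differentiableAt.hasDerivAt.hasFDerivAt
      convert! this using 1
    set σ := hcd.localInverse hfd one_ne_zero with hσ
    have hσc : ContDiffAt ℂ 1 σ (X t₀) := hcd.to_localInverse hfd one_ne_zero
    have hσ0 : σ (X t₀) = t₀ := hcd.localInverse_apply_image hfd one_ne_zero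
    have hσd : ∀ᶠ s in 𝓝 (X t₀), DifferentiableAt ℂ σ s := by
      filter_upwards [hσc.eventually (by simp)] with u hu
      exact hu.differentiableAt one_ne_zero
    have hright : ∀ᶠ s in 𝓝 (X t₀), X (σ s) = s :=
      (hcd.hasStrictFDerivAt' hfd one_ne_zero).eventually_right_inverse
    have hσt : Tendsto σ (𝓝 (X t₀)) (𝓝 t₀) := by
      have h1 : ContinuousAt σ (X t₀) := hσc.continuousAt
      rw [ContinuousAt, hσ0] at h1
      exact h1
    have hball : ∀ᶠ s in 𝓝 (X t₀), σ s ∈ ball (0 : ℂ) 1 :=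
      hσt.eventually (isOpen_ball.mem_nhds ht₀)
    obtain ⟨ε, hε, hO⟩ := Metric.eventually_nhds_iff_ball.1 (hσd.and (hright.and hball))
    obtain ⟨k, hk⟩ := exists_cen (isOpen_ball (x := X t₀) (ε := ε)) ⟨_, mem_ball_self hε⟩
    have hhd : DifferentiableOn ℂ (fun s => PP k (g (σ s))) (ball (X t₀) ε) := by
      intro s hs
      have h1 := (hO s hs).1
      have h2 : DifferentiableAt ℂ g (σ s) :=
        (hg _ (hO s hs).2.2).differentiableAt (isOpen_ball.mem_nhds (hO s hs).2.2)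
      have h3 : DifferentiableAt ℂ (fun s => g (σ s)) s := h2.comp s h1
      exact ((PP_diff k _).comp s h3).differentiableWithinAt
    refine sqrt_absurd isOpen_ball hhd (rad_pos k) (dl_pos (rr_pos k) k) (rr_succ_le2 k) hk ?_
    intro s hs
    have hs' := hO s (hk hs)
    have h1 := hK (σ s) hs'.2.2 (k + 1)
    simp only [PP] at h1
    have h2 : (g (σ s)).1 = s := hs'.2.1
    rwa [h2] at h1
  have hYc : ∀ t ∈ ball (0 : ℂ) 1, (g t).2 = (g 0).2 := by
    by_contra hcon
    push Not at hcon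
    obtain ⟨t₁, ht₁, hne⟩ := hcon
    have hYa : AnalyticOnNhd ℂ (fun t => (g t).2) (ball 0 1) :=
      hY.analyticOnNhd isOpen_ball
    rcases hYa.is_constant_or_isOpen (convex_ball _ _).isPreconnected with h | h
    · obtain ⟨w, hw⟩ := h
      exact hne ((hw t₁ ht₁).trans (hw 0 (mem_ball_self one_pos)).symm)
    · have hop := h (ball 0 1) Subset.rfl isOpen_ball
      obtain ⟨ρ, hρ, hb⟩ := Metric.isOpen_iff.1 hop ((g 0).2) ⟨0, mem_ball_self one_pos, rfl⟩
      refine no_vertical (g 0).1 (g 0).2 (half_pos hρ) ?_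
      intro y hy k
      obtain ⟨t, ht, hty⟩ := hb (closedBall_subset_ball (half_lt_self hρ) hy)
      have h1 := hK t ht k
      have h2 : g t = ((g 0).1, y) := Prod.ext (hXc t ht) hty
      rwa [h2] at h1
  intro t ht
  exact Prod.ext (hXc t ht) (hYc t ht)

end Pool.Agent.H33R3.Rossi
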