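import Mathlib
import Pool.Agent.H33R3.RossiA
import Pool.Agent.H33R3.RossiB

set_option autoImplicit false

/-!
# Summation of the shell functions
-/

namespace Pool.Agent.H33R3.Rossi

open Metric Set Filter Topology

lemma exists_weights {E : Type*} [NormedAddCommGroup E] [NormedSpace ℝ E]
    (w : ℕ → E → ℝ) (hw : ∀ k, ContDiff ℝ (⊤ : ℕ∞) (w k)) (hc : ∀ k, HasCompactSupport (w k)) :
    ∃ l : ℕ → ℝ, (∀ k, 0 < l k) ∧ ∃ v : ℕ → ℕ → ℝ, (∀ j, Summable (v j)) ∧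
      ∀ j k x, ‖iteratedFDeriv ℝ j (l k • w k) x‖ ≤ v j k := by
  have hex : ∀ k j : ℕ, ∃ C : ℝ, ∀ x, ‖iteratedFDeriv ℝ j (w k) x‖ ≤ C := by
    intro k j
    exact ((hw k).continuous_iteratedFDeriv (m := j)
      (by exact_mod_cast le_top)).bounded_above_of_compact_support ((hc k).iteratedFDeriv j)
  choose C hC using hex
  have hC0 : ∀ k j, 0 ≤ C k j := fun k j => (norm_nonneg _).trans (hC k j 0)
  set l : ℕ → ℝ := fun k => (1 / 2) ^ k / (1 + ∑ j ∈ Finset.range (k + 1), C k j) with hl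
  have hden : ∀ k, 0 < 1 + ∑ j ∈ Finset.range (k + 1), C k j := fun k => by
    have : 0 ≤ ∑ j ∈ Finset.range (k + 1), C k j := Finset.sum_nonneg fun j _ => hC0 k j
    linarith
  have hlpos : ∀ k, 0 < l k := fun k => div_pos (by positivity) (hden k)
  refine ⟨l, hlpos, fun j k => l k * C k j, ?_, ?_⟩
  · intro j
    refine Summable.of_norm_bounded_eventually_nat (g := fun k => (1 / 2 : ℝ) ^ k)
      summable_geometric_two ?_
    filter_upwards [eventually_ge_atTop j] with k hk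
    rw [Real.norm_of_nonneg (mul_nonneg (hlpos k).le (hC0 k j))]
    simp only [hl]
    rw [div_mul_eq_mul_div, div_le_iff₀ (hden k)]
    apply mul_le_mul_of_nonneg_left _ (by positivity)
    have : C k j ≤ ∑ j ∈ Finset.range (k + 1), C k j :=
      Finset.single_le_sum (f := fun j => C k j) (fun i _ => hC0 k i)
        (Finset.mem_range.2 (by omega))
    linarith
  · intro j k x
    rw [iteratedFDeriv_const_smul_apply ((hw k).contDiffAt.of_le (by exact_mod_cast le_top)),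
      norm_smul, Real.norm_of_nonneg (hlpos k).le]
    exact mul_le_mul_of_nonneg_left (hC k j x) (hlpos k).le

lemma levi_eq_iterated {E : Type*} [NormedAddCommGroup E] [NormedSpace ℂ E] [NormedSpace ℝ E]
    (φ : E → ℝ) (z v : E) : levi φ z v = iteratedFDeriv ℝ 2 φ z ![v, v] +
      iteratedFDeriv ℝ 2 φ z ![Complex.I • v, Complex.I • v] := by
  rw [iteratedFDeriv_two_apply, iteratedFDeriv_two_apply]
  rfl

lemma two_le_top : (2 : WithTop ℕ∞) ≤ ((⊤ : ℕ∞) : WithTop ℕ∞) := WithTop.coe_le_coe.2 le_top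

/-- the smooth function: its Levi form is a sum of the Levi forms of the shell functions. -/
theorem exists_u : ∃ u : ℂ × ℂ → ℝ, ContDiff ℝ (⊤ : ℕ∞) u ∧
    (∀ z ∈ ball (0 : ℂ × ℂ) 2, ∀ v, 0 ≤ levi u z v) ∧
    (∀ z ∈ ball (0 : ℂ × ℂ) 2, ∀ v, levi u z v = 0 → ∀ k, 3 / 4 * rr k < ‖PP k z‖ →
      ‖PP k z‖ < rr k → fderiv ℂ (PP k) z v = 0) ∧
    (∀ z ∈ ball (0 : ℂ × ℂ) 2, ∀ v, (∀ k, 3 / 4 * rr k < ‖PP k z‖ →
      ‖PP k z‖ < rr k → fderiv ℂ (PP k) z v = 0) → levi u z v = 0) := by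
  have hrad : ∀ k, ∃ Θ : ℂ → ℝ, ContDiff ℝ (⊤ : ℕ∞) Θ ∧ (∀ ζ v, 0 ≤ levi Θ ζ v) ∧
      (∀ ζ v, ¬ (3 / 4 * rr k < ‖ζ‖ ∧ ‖ζ‖ < rr k) → levi Θ ζ v = 0) ∧
      (∀ ζ v, 3 / 4 * rr k < ‖ζ‖ → ‖ζ‖ < rr k → levi Θ ζ v = 0 → v = 0) := fun k => by
    have := rr_pos k
    exact exists_radial (by positivity) (by linarith)
  choose Θ hΘs hΘ0 hΘ1 hΘ2 using hrad
  let ψ : ContDiffBump (0 : ℂ × ℂ) := ⟨2, 3, by norm_num, by norm_num⟩
  set w : ℕ → ℂ × ℂ → ℝ := fun k z => ψ z * Θ k (PP k z) with hw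
  have hPr : ∀ k, ContDiff ℝ (⊤ : ℕ∞) (PP k) := fun k => (PP_contDiff k).restrict_scalars ℝ
  have hws : ∀ k, ContDiff ℝ (⊤ : ℕ∞) (w k) := fun k =>
    ψ.contDiff.mul ((hΘs k).comp (hPr k))
  have hwc : ∀ k, HasCompactSupport (w k) := fun k => ψ.hasCompactSupport.mul_right
  obtain ⟨l, hl, v, hv, hbd⟩ := exists_weights w hws hwc
  set u : ℂ × ℂ → ℝ := fun z => ∑' k, (l k • w k) z with hu
  have hlw : ∀ k, ContDiff ℝ (⊤ : ℕ∞) (l k • w k) := fun k => (hws k).const_smul (l k)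
  have hus : ContDiff ℝ (⊤ : ℕ∞) u :=
    contDiff_tsum hlw (fun j _ => hv j) (fun j k x _ => hbd j k x)
  -- Levi form on the ball
  have hloc : ∀ z ∈ ball (0 : ℂ × ℂ) 2, ∀ k, ∀ a : ℂ × ℂ,
      levi (l k • w k) z a = l k * levi (Θ k) (PP k z) (fderiv ℂ (PP k) z a) := by
    intro z hz k a
    have h1 : (l k • w k) =ᶠ[𝓝 z] fun y => (l k • Θ k) (PP k y) := by
      filter_upwards [isOpen_ball.mem_nhds hz] with y hy
      have : ψ y = 1 := ψ.one_of_mem_closedBall (ball_subset_closedBall hy)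
      simp [hw, this]
    have hcs : ContDiff ℝ (⊤ : ℕ∞) (l k • Θ k) := (hΘs k).const_smul (l k)
    rw [levi_congr h1, levi_comp (u := l k • Θ k) ((PP_contDiff k).of_le two_le_top).contDiffAt
      (hcs.of_le two_le_top).contDiffAt]
    rw [levi_eq_iterated, levi_eq_iterated, iteratedFDeriv_const_smul_apply
      ((hΘs k).of_le two_le_top).contDiffAt]
    simp [mul_add]
  have hsum : ∀ z ∈ ball (0 : ℂ × ℂ) 2, ∀ a : ℂ × ℂ,
      HasSum (fun k => l k * levi (Θ k) (PP k z) (fderiv ℂ (PP k) z a)) (levi u z a) := by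
    intro z hz a
    have e1 : iteratedFDeriv ℝ 2 u z = ∑' k, iteratedFDeriv ℝ 2 (l k • w k) z :=
      iteratedFDeriv_tsum_apply (N := (⊤ : ℕ∞)) hlw (fun j _ => hv j) (fun j k x _ => hbd j k x)
        (by exact_mod_cast le_top) z
    have hs : Summable fun k => iteratedFDeriv ℝ 2 (l k • w k) z :=
      Summable.of_norm_bounded (hv 2) fun k => hbd 2 k z
    have h2 : HasSum (fun k => iteratedFDeriv ℝ 2 (l k • w k) z) (iteratedFDeriv ℝ 2 u z) := by
      rw [e1]; exact hs.hasSum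
    have h3 := (ContinuousMultilinearMap.hasSum_eval h2 ![a, a]).add
      (ContinuousMultilinearMap.hasSum_eval h2 ![Complex.I • a, Complex.I • a])
    rw [← levi_eq_iterated] at h3
    convert! h3 using 2 with k
    rw [← hloc z hz k a, levi_eq_iterated]
  have hnn : ∀ z a k, 0 ≤ l k * levi (Θ k) (PP k z) (fderiv ℂ (PP k) z a) := fun z a k =>
    mul_nonneg (hl k).le (hΘ0 k _ _)
  refine ⟨u, hus, ?_, ?_, ?_⟩
  · intro z hz a
    exact (hsum z hz a).nonneg (hnn z a)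
  · intro z hz a h k h1 h2
    have h3 := hsum z hz a
    rw [h] at h3
    have h4 := (hasSum_zero_iff_of_nonneg (fun k => hnn z a k)).1 h3
    have h5 := congrFun h4 k
    simp only [Pi.zero_apply] at h5
    rcases mul_eq_zero.1 h5 with h6 | h6
    · exact absurd h6 (hl k).ne'
    · exact hΘ2 k _ _ h1 h2 h6
  · intro z hz a h
    have h3 := hsum z hz a
    have h4 : (fun k => l k * levi (Θ k) (PP k z) (fderiv ℂ (PP k) z a)) = fun _ => 0 := by
      funext k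
      by_cases h5 : 3 / 4 * rr k < ‖PP k z‖ ∧ ‖PP k z‖ < rr k
      · rw [h k h5.1 h5.2]
        have : levi (Θ k) (PP k z) 0 = 0 := by unfold levi; simp
        rw [this, mul_zero]
      · rw [hΘ1 k _ _ h5, mul_zero]
    rw [h4] at h3
    exact h3.unique hasSum_zero

end Pool.Agent.H33R3.Rossi
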