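import Mathlib
import Pool.Agent.H33R3.RossiC

set_option autoImplicit false

/-!
# The hypersurface `Re z₂ = u(z₀, z₁)`
-/

namespace Pool.Agent.H33R3.Rossi

open Metric Set Filter Topology

/-- A holomorphic disc along which `u` is harmonic (the real part of a holomorphic function) and
which starts in the Wermer set is constant. -/
lemma disc_const {u : ℂ × ℂ → ℝ} (hu : ContDiff ℝ (⊤ : ℕ∞) u)
    (hu1 : ∀ z ∈ ball (0 : ℂ × ℂ) 2, ∀ v, levi u z v = 0 → ∀ k, 3 / 4 * rr k < ‖PP k z‖ →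
      ‖PP k z‖ < rr k → fderiv ℂ (PP k) z v = 0)
    {g : ℂ → ℂ × ℂ} {h : ℂ → ℂ} (hg : DifferentiableOn ℂ g (ball 0 1))
    (hh : DifferentiableOn ℂ h (ball 0 1)) (hmap : ∀ t ∈ ball (0 : ℂ) 1, g t ∈ ball (0 : ℂ × ℂ) 2)
    (hre : ∀ t ∈ ball (0 : ℂ) 1, u (g t) = (h t).re)
    (h0 : ∀ k, ‖PP k (g 0)‖ ≤ 3 / 4 * rr k) : ∀ t ∈ ball (0 : ℂ) 1, g t = g 0 := by
  -- the derivative of `PP k ∘ g` vanishes in the shells
  have hgc : ∀ t ∈ ball (0 : ℂ) 1, ContDiffAt ℂ 2 g t := fun t ht =>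
    (hg.analyticAt (isOpen_ball.mem_nhds ht)).contDiffAt
  have hhc : ∀ t ∈ ball (0 : ℂ) 1, ContDiffAt ℂ 2 h t := fun t ht =>
    (hh.analyticAt (isOpen_ball.mem_nhds ht)).contDiffAt
  have hlev : ∀ t ∈ ball (0 : ℂ) 1, levi u (g t) (fderiv ℂ g t 1) = 0 := by
    intro t ht
    rw [← levi_comp (hgc t ht) (hu.of_le two_le_top).contDiffAt]
    have h1 : (fun x => u (g x)) =ᶠ[𝓝 t] fun x => Complex.reCLM (h x) := by
      filter_upwards [isOpen_ball.mem_nhds ht] with s hs
      exact hre s hs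
    rw [levi_congr h1, levi_comp (u := fun w : ℂ => Complex.reCLM w) (hhc t ht)
      Complex.reCLM.contDiff.contDiffAt]
    unfold levi
    have h2 : fderiv ℝ (fun w : ℂ => Complex.reCLM w) = fun _ => Complex.reCLM :=
      funext fun w => Complex.reCLM.fderiv
    rw [h2]
    simp
  have hshell : ∀ k, ∀ t ∈ ball (0 : ℂ) 1, 3 / 4 * rr k < ‖PP k (g t)‖ → ‖PP k (g t)‖ < rr k →
      deriv (fun s => PP k (g s)) t = 0 := by
    intro k t ht h1 h2
    have h3 := hu1 (g t) (hmap t ht) _ (hlev t ht) k h1 h2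
    have h4 : HasFDerivAt (fun s => PP k (g s))
        ((fderiv ℂ (PP k) (g t)).comp (fderiv ℂ g t)) t :=
      (PP_diff k (g t)).hasFDerivAt.comp t ((hgc t ht).differentiableAt two_ne_zero).hasFDerivAt
    have h5 := h4.hasDerivAt.deriv
    rw [h5]
    exact h3
  -- hence `|PP k ∘ g|` stays small
  have hsmall : ∀ k, ∀ t ∈ ball (0 : ℂ) 1, ‖PP k (g t)‖ ≤ 3 / 4 * rr k := by
    intro k t₁ ht₁
    by_contra hcon
    push Not at hcon
    have hF : DifferentiableOn ℂ (fun s => PP k (g s)) (ball 0 1) :=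
      (PP_diff k).comp_differentiableOn hg
    have hpc : IsPreconnected (ball (0 : ℂ) 1) := (convex_ball _ _).isPreconnected
    have hr := rr_pos k
    -- intermediate value
    have hcont : ContinuousOn (fun s => ‖PP k (g s)‖) (ball 0 1) := hF.continuousOn.norm
    set m := min ‖PP k (g t₁)‖ (7 / 8 * rr k) with hm
    have hm1 : 3 / 4 * rr k < m := lt_min hcon (by linarith)
    have hm2 : m < rr k := lt_of_le_of_lt (min_le_right _ _) (by linarith)
    obtain ⟨t₂, ht₂, hval⟩ := hpc.intermediate_value (mem_ball_self one_pos) ht₁ hcont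
      ⟨(h0 k).trans hm1.le, min_le_left _ _⟩
    simp only at hval
    have hev : ∀ᶠ s in 𝓝 t₂, deriv (fun s => PP k (g s)) s = 0 := by
      have hca : ContinuousAt (fun s => ‖PP k (g s)‖) t₂ :=
        hcont.continuousAt (isOpen_ball.mem_nhds ht₂)
      have hv1 : 3 / 4 * rr k < ‖PP k (g t₂)‖ := by rw [hval]; exact hm1
      have hv2 : ‖PP k (g t₂)‖ < rr k := by rw [hval]; exact hm2
      filter_upwards [isOpen_ball.mem_nhds ht₂, hca.eventually (lt_mem_nhds hv1),
        hca.eventually (gt_mem_nhds hv2)] with s hs h1 h2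
      exact hshell k s hs h1 h2
    have hda : AnalyticOnNhd ℂ (deriv fun s => PP k (g s)) (ball 0 1) :=
      (hF.analyticOnNhd isOpen_ball).deriv
    have hz := hda.eqOn_of_preconnected_of_eventuallyEq (g := fun _ => (0 : ℂ))
      (fun z _ => analyticAt_const) hpc ht₂ hev
    have hcst := isOpen_ball.is_const_of_deriv_eq_zero hpc hF hz ht₁ (mem_ball_self one_pos)
    rw [hcst] at hcon
    exact absurd (h0 k) (not_le.2 hcon)
  exact no_disc hg fun t ht k => (hsmall k t ht).trans (by have := rr_pos k; linarith)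

/-- at most one shell is active at each point over the unit disc, so there is a common
degenerate direction. -/
lemma exists_degenerate {z : ℂ × ℂ} (hz : ‖z.1‖ ≤ 1) :
    ∃ v : ℂ × ℂ, v ≠ 0 ∧ ∀ k, 3 / 4 * rr k < ‖PP k z‖ →
      ‖PP k z‖ < rr k → fderiv ℂ (PP k) z v = 0 := by
  by_cases hex : ∃ k, 3 / 4 * rr k < ‖PP k z‖ ∧ ‖PP k z‖ < rr k
  · obtain ⟨k, hk1, hk2⟩ := hex
    have huniq : ∀ m, 3 / 4 * rr m < ‖PP m z‖ → ‖PP m z‖ < rr m → m = k := by
      intro m hm1 hm2
      rcases lt_trichotomy m k with h | h | h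
      · exact absurd (nested hz h hk2.le) (not_le.2 hm1)
      · exact h
      · exact absurd (nested hz h hm2.le) (not_le.2 hk1)
    set A := fderiv ℂ (PP k) z with hA
    obtain ⟨v, hv, hAv⟩ : ∃ v : ℂ × ℂ, v ≠ 0 ∧ A v = 0 := by
      by_cases h1 : A (1, 0) = 0
      · exact ⟨(1, 0), by simp, h1⟩
      · refine ⟨(A (0, 1), -A (1, 0)), ?_, ?_⟩
        · intro h
          have := congrArg Prod.snd h
          simp at this
          exact h1 this
        · have e : ((A (0, 1), -A (1, 0)) : ℂ × ℂ) =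
              (A (0, 1)) • ((1, 0) : ℂ × ℂ) - (A (1, 0)) • ((0, 1) : ℂ × ℂ) := by
            ext <;> simp
          rw [e, map_sub, map_smul, map_smul, smul_eq_mul, smul_eq_mul]
          ring
    refine ⟨v, hv, fun m hm1 hm2 => ?_⟩
    rw [huniq m hm1 hm2]
    exact hAv
  · push Not at hex
    exact ⟨(1, 0), by simp, fun k h1 h2 => absurd h2 (not_lt.2 (hex k h1))⟩

end Pool.Agent.H33R3.Rossi
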